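import Pool.Agent.TC.Lit.Basic2

/-!
# Compact subsets of a chart domain (block LIT, module CHT)
-/

set_option autoImplicit false
set_option linter.unusedSectionVars false

open scoped Topology

noncomputable section

namespace TC
namespace Lit
namespace MCHT

/-- Transport of `Van` and `Det` along two open embeddings. -/
theorem transport (hEXC : Stmt_EXC) {U M V : Type} [TopologicalSpace U] [TopologicalSpace M]
    [TopologicalSpace V] [T1Space M] (φ : C(U, M)) (ψ : C(U, V))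
    (hφ : Topology.IsOpenEmbedding φ) (hψ : Topology.IsOpenEmbedding ψ) (K : Set M)
    (hK : IsClosed K) (hKr : K ⊆ Set.range φ) (hL : IsClosed (ψ '' (φ ⁻¹' K))) (n : ℕ)
    (h : Van n (ψ '' (φ ⁻¹' K)) ∧ Det n (ψ '' (φ ⁻¹' K))) : Van n K ∧ Det n K := by
  set L : Set V := ψ '' (φ ⁻¹' K) with hLdef
  have hLr : L ⊆ Set.range ψ := Set.image_subset_range _ _
  have hpre : ψ ⁻¹' L = φ ⁻¹' K := Set.preimage_image_eq _ hψ.injective
  have m1 : Set.MapsTo ψ (φ ⁻¹' K)ᶜ Lᶜ := by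
    intro u hu hu'
    rw [← hpre] at hu
    exact hu hu'
  have m2 : Set.MapsTo φ (φ ⁻¹' K)ᶜ Kᶜ := fun u hu => hu
  obtain ⟨x1, x2⟩ := hEXC U M φ hφ K hK hKr
  obtain ⟨-, y2⟩ := hEXC U V ψ hψ L hL hLr
  -- the conclusion from the vanishing in `V`
  have fin : ∀ (k : ℕ) (z : Chain M k) (y : Chain U k), RC (φ ⁻¹' K) y →
      RB K (z + cmap φ y) → RB L (cmap ψ y) → RB K z := by
    intro k z y hy hz hL'
    have h1 : RB (ψ ⁻¹' L) y := y2 k y (by rw [hpre]; exact hy) hL'
    rw [hpre] at h1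
    exact (RB.congr hz).2 (h1.cmap m2)
  constructor
  · intro k hk z hz
    obtain ⟨y, hy, hzy⟩ := x1 (k + 1) z hz
    exact fin (k + 1) z y hy hzy (h.1 k hk _ (hy.cmap m1))
  · intro z hz hz'
    obtain ⟨y, hy, hzy⟩ := x1 n z hz
    refine fin n z y hy hzy (h.2 _ (hy.cmap m1) ?_)
    rintro _ ⟨u, hu, rfl⟩
    have e1 : RB {φ u} (cmap φ y) :=
      (RB.congr (hzy.mono (Set.singleton_subset_iff.2 hu))).1 (hz' _ hu)
    obtain ⟨-, w2⟩ := hEXC U M φ hφ {φ u} isClosed_singleton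
      (Set.singleton_subset_iff.2 ⟨u, rfl⟩)
    have e2 : RB (φ ⁻¹' {φ u}) y :=
      w2 n y (hy.mono (Set.preimage_mono (Set.singleton_subset_iff.2 hu))) e1
    refine e2.cmap ?_
    intro u' hu' he
    apply hu'
    have : ψ u' = ψ u := he
    rw [hψ.injective this]
    rfl

end MCHT

open MCHT in
/-- CHT: compact subsets of a chart domain. -/
theorem CHT (hEXC : Stmt_EXC) (hCPT : Stmt_CPT) : Stmt_CHT := by
  intro n M _ _ e K hK hKe
  set φ : C(e.source, M) := ⟨Subtype.val, continuous_subtype_val⟩ with hφdef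
  have hφ : Topology.IsOpenEmbedding φ := e.open_source.isOpenEmbedding_subtypeVal
  set H : EuclideanSpace ℝ (Fin n) ≃ₜ (Fin n → ℝ) :=
    (EuclideanSpace.equiv (Fin n) ℝ).toHomeomorph with hH
  have hψ0 : Topology.IsOpenEmbedding (H ∘ e.source.domRestrict e) :=
    H.isOpenEmbedding.comp e.isOpenEmbedding_restrict
  set ψ : C(e.source, Fin n → ℝ) := ⟨H ∘ e.source.domRestrict e, hψ0.continuous⟩ with hψdef
  have hψ : Topology.IsOpenEmbedding ψ := hψ0
  have hKr : K ⊆ Set.range φ := by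
    intro x hx
    exact ⟨⟨x, hKe hx⟩, rfl⟩
  have hc : IsCompact (ψ '' (φ ⁻¹' K)) := by
    refine IsCompact.image ?_ ψ.continuous
    exact (hφ.isInducing.isCompact_preimage_iff hKr).2 hK
  exact transport hEXC φ ψ hφ hψ K hK.isClosed hKr hc.isClosed n (hCPT n _ hc)

end Lit
end TC
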