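import Pool.Agent.TC.Lit.Basic2

/-!
# Block LIT: module CIR (smooth circle actions are continuous paths of diffeomorphisms)
-/


set_option autoImplicit false
set_option linter.unusedSectionVars false

open scoped Manifold ContDiff Topology

noncomputable section

namespace TC
namespace Lit
namespace MCIRB

variable {E : Type} [NormedAddCommGroup E] [NormedSpace ℝ E] {H : Type} [TopologicalSpace H]
  {I : ModelWithCorners ℝ E H} {X : Type} [TopologicalSpace X] [ChartedSpace H X]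
  [IsManifold I ∞ X]

theorem chain (F : ℝ → X → X)
    (hF : ContMDiff ((𝓘(ℝ, ℝ)).prod I) I ∞ (fun p : ℝ × X => F p.1 p.2)) (t : ℝ)
    (v : TangentBundle I X) :
    tangentMap I I (F t) v = tangentMap ((𝓘(ℝ, ℝ)).prod I) I (fun p : ℝ × X => F p.1 p.2)
      ((equivTangentBundleProd 𝓘(ℝ, ℝ) ℝ I X).symm ((⟨t, 0⟩ : TangentBundle 𝓘(ℝ, ℝ) ℝ), v)) := by
  obtain ⟨x, w⟩ := v
  have hd : MDifferentiableAt ((𝓘(ℝ, ℝ)).prod I) I (fun p : ℝ × X => F p.1 p.2) (t, x) :=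
    hF.mdifferentiable (by simp) (t, x)
  have h1 : HasMFDerivAt I ((𝓘(ℝ, ℝ)).prod I) (fun y : X => (t, y)) x
      ((0 : TangentSpace I x →L[ℝ] TangentSpace 𝓘(ℝ, ℝ) t).prod
        (ContinuousLinearMap.id ℝ (TangentSpace I x))) :=
    (hasMFDerivAt_const t x).prodMk (hasMFDerivAt_id x)
  have h2 := hd.hasMFDerivAt.comp x h1
  have h3 : mfderiv I I (F t) x = _ := h2.mfderiv
  show (⟨F t x, mfderiv I I (F t) x w⟩ : TangentBundle I X) =
    ⟨F t x, mfderiv ((𝓘(ℝ, ℝ)).prod I) I (fun p : ℝ × X => F p.1 p.2) (t, x) ((0 : ℝ), w)⟩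
  rw [h3]
  rfl

theorem part_smooth (F : ℝ → X → X)
    (hF : ContMDiff ((𝓘(ℝ, ℝ)).prod I) I ∞ (fun p : ℝ × X => F p.1 p.2)) :
    ContMDiff ((𝓘(ℝ, ℝ)).prod I.tangent) I.tangent ∞
      (fun p : ℝ × TangentBundle I X => tangentMap I I (F p.1) p.2) := by
  have h1 : ContMDiff ((𝓘(ℝ, ℝ)).prod I).tangent I.tangent ∞
      (tangentMap ((𝓘(ℝ, ℝ)).prod I) I (fun p : ℝ × X => F p.1 p.2)) :=
    hF.contMDiff_tangentMap (by simp)
  have hz : ContMDiff 𝓘(ℝ, ℝ) (𝓘(ℝ, ℝ)).tangent ∞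
      (fun t : ℝ => (⟨t, 0⟩ : TangentBundle 𝓘(ℝ, ℝ) ℝ)) :=
    Bundle.contMDiff_zeroSection ℝ (TangentSpace 𝓘(ℝ, ℝ))
  have h2 : ContMDiff ((𝓘(ℝ, ℝ)).prod I.tangent) ((𝓘(ℝ, ℝ)).tangent.prod I.tangent) ∞
      (fun p : ℝ × TangentBundle I X =>
        ((⟨p.1, 0⟩ : TangentBundle 𝓘(ℝ, ℝ) ℝ), p.2)) :=
    (hz.comp contMDiff_fst).prodMk contMDiff_snd
  have h3 := h1.comp (contMDiff_equivTangentBundleProd_symm.comp h2)
  have e : (fun p : ℝ × TangentBundle I X => tangentMap I I (F p.1) p.2) = _ :=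
    funext fun p => chain F hF p.1 p.2
  rw [e]
  exact h3

/-- Joint continuity of iterated tangent maps. -/
theorem iter_cont (r : ℕ) (A : Mfd) (F : ℝ → A.X → A.X)
    (hF : ContMDiff ((𝓘(ℝ, ℝ)).prod A.I) A.I ∞ (fun p : ℝ × A.X => F p.1 p.2)) :
    Continuous (fun p : ℝ × (iterT r A).X => iterD r A (F p.1) p.2) := by
  induction r generalizing A with
  | zero => exact hF.continuous
  | succ r ih => exact ih A.tan (fun t => tangentMap A.I A.I (F t)) (part_smooth F hF)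

end MCIRB

open MCIRB in
theorem CIR : Stmt_CIR := by
  intro n M _ _ _ ρ
  have hsm : ∀ t : ℝ, ContMDiff (𝓡 n) (𝓡 n) ∞ (ρ.act t) := fun t =>
    ρ.smooth.comp (contMDiff_const.prodMk contMDiff_id)
  have hinv : ∀ (t : ℝ) (x : M), ρ.act (-t) (ρ.act t x) = x := fun t x => by
    rw [← ρ.add, neg_add_cancel, ρ.zero]
  have hinv' : ∀ (t : ℝ) (x : M), ρ.act t (ρ.act (-t) x) = x := fun t x => by
    rw [← ρ.add, add_neg_cancel, ρ.zero]
  let Θ : ℝ → DiffM n M := fun t =>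
    { toFun := ρ.act t
      invFun := ρ.act (-t)
      left_inv := hinv t
      right_inv := hinv' t
      contMDiff_toFun := hsm t
      contMDiff_invFun := hsm (-t) }
  have hfn : ∀ t, (Θ t).fn = ρ.act t := fun t => rfl
  have hneg : ∀ t, (Θ t)⁻¹ = Θ (-t) := fun t => DiffM.ext fun x => rfl
  have key : ∀ r : ℕ, Continuous (fun t => (Θ t).iter r) := by
    intro r
    refine ContinuousMap.continuous_of_continuous_uncurry _ ?_
    exact iter_cont r (mfd n M) (fun t => ρ.act t) ρ.smooth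
  refine ⟨Θ, DiffM.continuous_iff.2 fun r => ⟨key r, ?_⟩, fun t x => rfl⟩
  have e : (fun t => (Θ t)⁻¹.iter r) = (fun t => (Θ t).iter r) ∘ fun t => -t := by
    funext t
    rw [hneg]
    rfl
  rw [e]
  exact (key r).comp continuous_neg

end Lit
end TC
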