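import Pool.Agent.TC.Lit.Basic2

/-!
# Module CONV: compact convex subsets of `ℝ^n`
-/

set_option autoImplicit false
set_option linter.unusedSectionVars false

open scoped Topology

noncomputable section

namespace TC
namespace Lit

namespace MCONV

/-- The inclusion of a subset. -/
def incl {X : Type} [TopologicalSpace X] (U : Set X) : C(U, X) :=
  ⟨Subtype.val, continuous_subtype_val⟩

theorem lift_chain {X : Type} [TopologicalSpace X] {U : Set X} {k : ℕ} {y : Chain X k}
    (hy : ChainIn U y) : ∃ y' : Chain U k, cmap (incl U) y' = y := by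
  classical
  have hl : ∀ σ : {σ // σ ∈ y.support}, ∃ τ : C(Simp k, U), (incl U).comp τ = σ.1 := by
    intro σ
    refine ⟨⟨fun t => ⟨σ.1 t, hy σ.1 σ.2 ⟨t, rfl⟩⟩, ?_⟩, ?_⟩
    · exact Continuous.subtype_mk σ.1.continuous _
    · ext t
      rfl
  choose L hL using hl
  refine ⟨∑ σ ∈ y.support.attach, y σ.1 • Finsupp.single (L σ) (1 : F2), ?_⟩
  rw [map_sum]
  have h1 : ∀ σ ∈ y.support.attach, cmap (incl U) (y σ.1 • Finsupp.single (L σ) (1 : F2)) =
      Finsupp.single σ.1 (y σ.1) := by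
    intro σ _
    rw [map_smul, cmap_single, hL σ]
    simp
  rw [Finset.sum_congr rfl h1, Finset.sum_attach y.support (fun σ => Finsupp.single σ (y σ))]
  exact Finsupp.sum_single y

variable {n : ℕ} (x : Fin n → ℝ) (R : ℝ)

/-- The factor of the radial homotopy. -/
def fac (t : ℝ) (v : Fin n → ℝ) : ℝ := (1 - t) + t * max 1 (R / ‖v - x‖)

theorem one_le_fac {t : ℝ} (h0 : 0 ≤ t) (v : Fin n → ℝ) : 1 ≤ fac x R t v := by
  unfold fac
  have h1 : t * 1 ≤ t * max 1 (R / ‖v - x‖) := mul_le_mul_of_nonneg_left (le_max_left _ _) h0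
  linarith

/-- The radial homotopy. -/
def hom : C((({x} : Set (Fin n → ℝ))ᶜ : Set (Fin n → ℝ)) × unitInterval, Fin n → ℝ) where
  toFun p := x + fac x R p.2.1 p.1.1 • (p.1.1 - x)
  continuous_toFun := by
    have h1 : Continuous fun p : (({x} : Set (Fin n → ℝ))ᶜ : Set (Fin n → ℝ)) × unitInterval =>
        p.1.1 - x := (continuous_subtype_val.comp continuous_fst).sub continuous_const
    have h2 : Continuous fun p : (({x} : Set (Fin n → ℝ))ᶜ : Set (Fin n → ℝ)) × unitInterval =>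
        fac x R p.2.1 p.1.1 := by
      unfold fac
      have h3 : Continuous fun p : (({x} : Set (Fin n → ℝ))ᶜ : Set (Fin n → ℝ)) × unitInterval =>
          (p.2.1 : ℝ) := continuous_subtype_val.comp continuous_snd
      refine (continuous_const.sub h3).add (h3.mul (continuous_const.max ?_))
      refine continuous_const.div h1.norm ?_
      rintro ⟨⟨v, hv⟩, t⟩
      exact norm_ne_zero_iff.mpr (sub_ne_zero.mpr hv)
    exact continuous_const.add (h2.smul h1)

theorem hom_zero (v : (({x} : Set (Fin n → ℝ))ᶜ : Set (Fin n → ℝ))) : hom x R (v, 0) = v.1 := by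
  show x + fac x R 0 v.1 • (v.1 - x) = v.1
  unfold fac
  simp

/-- The end of the radial homotopy. -/
def psi : C((({x} : Set (Fin n → ℝ))ᶜ : Set (Fin n → ℝ)), Fin n → ℝ) :=
  (hom x R).comp ⟨fun v => (v, 1), by fun_prop⟩

theorem psi_norm (v : (({x} : Set (Fin n → ℝ))ᶜ : Set (Fin n → ℝ))) :
    R ≤ ‖psi x R v - x‖ := by
  have hv : 0 < ‖v.1 - x‖ := norm_pos_iff.mpr (sub_ne_zero.mpr v.2)
  have h1 : psi x R v - x = fac x R 1 v.1 • (v.1 - x) := by
    show x + fac x R 1 v.1 • (v.1 - x) - x = _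
    rw [add_sub_cancel_left]
  have h2 : R / ‖v.1 - x‖ ≤ fac x R 1 v.1 := by
    unfold fac
    simp
  have h3 : 0 ≤ fac x R 1 v.1 := le_trans zero_le_one (one_le_fac x R zero_le_one v.1)
  rw [h1, norm_smul, Real.norm_of_nonneg h3]
  calc R = R / ‖v.1 - x‖ * ‖v.1 - x‖ := by field_simp
    _ ≤ _ := mul_le_mul_of_nonneg_right h2 hv.le

theorem hom_mem {A : Set (Fin n → ℝ)} (hA : Convex ℝ A) (hx : x ∈ A)
    (v : (({x} : Set (Fin n → ℝ))ᶜ : Set (Fin n → ℝ))) (t : unitInterval)
    (h : hom x R (v, t) ∈ A) : v.1 ∈ A := by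
  have h1 : 1 ≤ fac x R t.1 v.1 := one_le_fac x R t.2.1 v.1
  have h2 := hA.add_smul_sub_mem hx h (t := (fac x R t.1 v.1)⁻¹)
    ⟨by positivity, inv_le_one_of_one_le₀ h1⟩
  have h3 : x + (fac x R t.1 v.1)⁻¹ • (hom x R (v, t) - x) = v.1 := by
    show x + (fac x R t.1 v.1)⁻¹ • (x + fac x R t.1 v.1 • (v.1 - x) - x) = v.1
    rw [add_sub_cancel_left, smul_smul, inv_mul_cancel₀ (by positivity), one_smul]
    abel
  rwa [h3] at h2

end MCONV

open MCONV in
theorem CONV (hPRISM : Stmt_PRISM) : Stmt_CONV := by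
  intro n A hAc hA x hx k z hz hb
  obtain ⟨R, -, hR⟩ := hAc.isBounded.subset_ball_lt 0 x
  obtain ⟨w, hw⟩ := hb
  obtain ⟨y', hy'⟩ := lift_chain hw
  have hRC : RC A (z + bd w) := by
    cases k with
    | zero => trivial
    | succ k =>
      show ChainIn Aᶜ (bd (z + bd w))
      rw [map_add, bd_bd, add_zero]
      exact hz
  have hRC' : RC (incl ({x} : Set (Fin n → ℝ))ᶜ ⁻¹' A) y' := by
    rw [← hy'] at hRC
    cases k with
    | zero => trivial
    | succ k =>
      have h1 : ChainIn Aᶜ (bd (cmap (incl ({x} : Set (Fin n → ℝ))ᶜ) y')) := hRC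
      rw [bd_cmap] at h1
      exact ChainIn.preimage (f := incl ({x} : Set (Fin n → ℝ))ᶜ) Subtype.val_injective h1
  have h1 := prism_rel hPRISM (hom x R) (incl ({x} : Set (Fin n → ℝ))ᶜ) (psi x R)
    (fun v => hom_zero x R v) (fun v => rfl) A
    (fun v hv t ht => hv (hom_mem x R hA hx v t ht)) y' hRC'
  have h2 : RB A (cmap (psi x R) y') := by
    apply RB.of_chainIn
    refine ChainIn.cmap (ChainIn.univ y') ?_
    intro v _ hv
    have h3 := hR hv
    rw [Metric.mem_ball, dist_eq_norm] at h3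
    exact absurd (psi_norm x R v) (not_le.mpr h3)
  have h3 : RB A (cmap (incl ({x} : Set (Fin n → ℝ))ᶜ) y') := (RB.congr h1).2 h2
  rw [hy'] at h3
  have h4 := h3.add (RB.bd (A := A) w)
  rwa [ch_add_cancel] at h4

end Lit
end TC
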