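import Pool.Agent.TC.Lit.Basic2

/-!
# Module CPT (block LIT): compact subsets of Euclidean space
-/

set_option autoImplicit false
set_option linter.unusedSectionVars false

open scoped Topology

noncomputable section

namespace TC
namespace Lit

namespace MCPT

variable {X : Type} [TopologicalSpace X]

/-- A relative cycle modulo `K` is a relative cycle modulo every subset of some open
neighbourhood of `K`. -/
theorem exists_open [T2Space X] {j : ℕ} (z : Chain X j) {K : Set X} (hz : RC K z) :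
    ∃ W : Set X, IsOpen W ∧ K ⊆ W ∧ ∀ K' : Set X, K' ⊆ W → RC K' z := by
  cases j with
  | zero => exact ⟨Set.univ, isOpen_univ, Set.subset_univ _, fun _ _ => trivial⟩
  | succ k =>
    have hz' : ChainIn Kᶜ (bd z) := hz
    set D : Set X := ⋃ σ ∈ (bd z).support, Set.range σ with hD
    have hDc : IsCompact D := by
      rw [hD]
      exact (bd z).support.isCompact_biUnion fun σ _ => isCompact_range σ.continuous
    refine ⟨Dᶜ, hDc.isClosed.isOpen_compl, ?_, ?_⟩
    · intro x hx hxD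
      rw [hD, Set.mem_iUnion₂] at hxD
      obtain ⟨σ, hσ, hxσ⟩ := hxD
      exact hz' σ hσ hxσ hx
    · intro K' hK' σ hσ x hxσ hxK'
      refine hK' hxK' ?_
      rw [hD, Set.mem_iUnion₂]
      exact ⟨σ, hσ, hxσ⟩

/-- Finitely many compact convex sets between a compact set and a neighbourhood. -/
theorem exists_list {n : ℕ} {K W : Set (Fin n → ℝ)} (hK : IsCompact K) (hW : IsOpen W)
    (hKW : K ⊆ W) : ∃ L : List (Set (Fin n → ℝ)),
      (∀ A ∈ L, (IsCompact A ∧ Convex ℝ A) ∧ ∃ c ∈ A, c ∈ K) ∧ (⋃ A ∈ L, A) ⊆ W ∧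
      K ⊆ ⋃ A ∈ L, A := by
  obtain ⟨δ, hδ, hδW⟩ := hK.exists_cthickening_subset_open hW hKW
  obtain ⟨t, htK, htf, hcov⟩ := hK.finite_cover_balls hδ
  refine ⟨htf.toFinset.toList.map fun c => Metric.closedBall c δ, ?_, ?_, ?_⟩
  · intro A hA
    rw [List.mem_map] at hA
    obtain ⟨c, hc, rfl⟩ := hA
    rw [Finset.mem_toList, Set.Finite.mem_toFinset] at hc
    exact ⟨⟨isCompact_closedBall c δ, convex_closedBall c δ⟩, c,
      Metric.mem_closedBall_self hδ.le, htK hc⟩
  · intro x hx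
    rw [Set.mem_iUnion₂] at hx
    obtain ⟨A, hA, hxA⟩ := hx
    rw [List.mem_map] at hA
    obtain ⟨c, hc, rfl⟩ := hA
    rw [Finset.mem_toList, Set.Finite.mem_toFinset] at hc
    exact hδW (Metric.closedBall_subset_cthickening (htK hc) δ hxA)
  · intro x hx
    have h1 := hcov hx
    rw [Set.mem_iUnion₂] at h1
    obtain ⟨c, hc, hxc⟩ := h1
    rw [Set.mem_iUnion₂]
    refine ⟨Metric.closedBall c δ, ?_, Metric.ball_subset_closedBall hxc⟩
    rw [List.mem_map]
    exact ⟨c, by rw [Finset.mem_toList, Set.Finite.mem_toFinset]; exact hc, rfl⟩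

end MCPT

open MCPT in
theorem CPT (hUNI : Stmt_UNI) (hCONV : Stmt_CONV) : Stmt_CPT := by
  intro n K hK
  constructor
  · intro k hk z hz
    obtain ⟨W, hWo, hKW, hWz⟩ := exists_open z hz
    obtain ⟨L, hL, hLW, hKL⟩ := exists_list hK hWo hKW
    exact ((hUNI n L fun A hA => (hL A hA).1).1 k hk z (hWz _ hLW)).mono hKL
  · intro z hz hpt
    obtain ⟨W, hWo, hKW, hWz⟩ := exists_open z hz
    obtain ⟨L, hL, hLW, hKL⟩ := exists_list hK hWo hKW
    refine ((hUNI n L fun A hA => (hL A hA).1).2 z (hWz _ hLW) ?_).mono hKL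
    intro x hx
    rw [Set.mem_iUnion₂] at hx
    obtain ⟨A, hA, hxA⟩ := hx
    obtain ⟨⟨hAc, hAx⟩, c, hcA, hcK⟩ := hL A hA
    have hAW : A ⊆ W := fun y hy => hLW (Set.mem_iUnion₂.2 ⟨A, hA, hy⟩)
    exact (hCONV n A hAc hAx c hcA n z (hWz A hAW) (hpt c hcK)).mono
      (Set.singleton_subset_iff.2 hxA)

end Lit
end TC
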