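import Pool.Agent.TC.Lit.Basic2

/-!
# Module CUT: cut-off functions on Milnor's space `EG`

With `q = ∑ t_j ^ 2` the functions `s_i = max 0 (t_i - q / 2)` have all the properties.
-/

set_option autoImplicit false
set_option linter.unusedSectionVars false

open scoped Manifold ContDiff Topology

noncomputable section

namespace TC
namespace Lit
namespace MCUT

variable {G : Type} [Group G]

/-- The sum of the squares of the coordinates. -/
def q (x : EJ G) : ℝ := x.t.sum fun _ a => a ^ 2

theorem sum_eq (x : EJ G) (F : Finset ℕ) (hF : x.t.support ⊆ F) : ∑ i ∈ F, x.t i = 1 := by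
  rw [← x.sum, Finsupp.sum]
  refine (Finset.sum_subset hF fun i _ hi => ?_).symm
  exact Finsupp.notMem_support_iff.1 hi

theorem q_eq (x : EJ G) (F : Finset ℕ) (hF : x.t.support ⊆ F) : q x = ∑ i ∈ F, x.t i ^ 2 := by
  rw [q, Finsupp.sum]
  refine Finset.sum_subset hF fun i _ hi => ?_
  rw [Finsupp.notMem_support_iff.1 hi]
  norm_num

theorem sum_le (x : EJ G) (F : Finset ℕ) : ∑ i ∈ F, x.t i ≤ 1 := by
  rw [← sum_eq x (F ∪ x.t.support) Finset.subset_union_right]
  exact Finset.sum_le_sum_of_subset_of_nonneg Finset.subset_union_left fun i _ _ => x.nonneg i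

theorem t_le (x : EJ G) (i : ℕ) : x.t i ≤ 1 := by
  have := sum_le x {i}
  rwa [Finset.sum_singleton] at this

theorem t_add_sum_le (x : EJ G) (F : Finset ℕ) (i : ℕ) (hi : i ∉ F) :
    x.t i + ∑ j ∈ F, x.t j ≤ 1 := by
  have := sum_le x (insert i F)
  rwa [Finset.sum_insert hi] at this

theorem q_ge (x : EJ G) (F : Finset ℕ) : ∑ i ∈ F, x.t i ^ 2 ≤ q x := by
  rw [q_eq x (F ∪ x.t.support) Finset.subset_union_right]
  exact Finset.sum_le_sum_of_subset_of_nonneg Finset.subset_union_left
    fun i _ _ => sq_nonneg _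

theorem q_le (x : EJ G) (F : Finset ℕ) :
    q x ≤ ∑ i ∈ F, x.t i ^ 2 + (1 - ∑ i ∈ F, x.t i) := by
  have h1 := q_eq x (F ∪ x.t.support) Finset.subset_union_right
  have h2 := sum_eq x (F ∪ x.t.support) Finset.subset_union_right
  have h3 : ∑ i ∈ (F ∪ x.t.support) \ F, x.t i ^ 2 ≤ ∑ i ∈ (F ∪ x.t.support) \ F, x.t i := by
    refine Finset.sum_le_sum fun i _ => ?_
    have := x.nonneg i
    have := t_le x i
    nlinarith
  rw [← Finset.sum_sdiff (Finset.subset_union_left : F ⊆ F ∪ x.t.support)] at h1 h2
  linarith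

theorem q_pos (x : EJ G) : 0 < q x := by
  by_contra hq
  have h0 : ∀ i, x.t i = 0 := by
    intro i
    have h := q_ge x {i}
    rw [Finset.sum_singleton] at h
    have : x.t i ^ 2 ≤ 0 := by linarith
    exact pow_eq_zero_iff (two_ne_zero) |>.1 (le_antisymm this (sq_nonneg _))
  have h1 := sum_eq x x.t.support (Finset.Subset.refl _)
  rw [Finset.sum_eq_zero fun i _ => h0 i] at h1
  exact zero_ne_one h1

theorem exists_lt (x : EJ G) : ∃ i, q x / 2 < x.t i := by
  by_contra hne
  push Not at hne
  have h1 := sum_eq x x.t.support (Finset.Subset.refl _)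
  have h2 := q_eq x x.t.support (Finset.Subset.refl _)
  have h3 : ∑ i ∈ x.t.support, x.t i ^ 2 ≤ ∑ i ∈ x.t.support, (q x / 2) * x.t i := by
    refine Finset.sum_le_sum fun i _ => ?_
    have := hne i
    have := x.nonneg i
    nlinarith
  rw [← Finset.mul_sum, h1, ← h2] at h3
  have := q_pos x
  linarith

variable [TopologicalSpace G]

theorem continuous_t (i : ℕ) : Continuous fun x : EJ G => x.t i := by
  rw [continuous_iff_le_induced]
  exact inf_le_left.trans (iInf_le _ i)

theorem continuous_q : Continuous (q : EJ G → ℝ) := by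
  rw [continuous_iff_continuousAt]
  intro x
  have hA : Continuous fun y : EJ G => ∑ i ∈ x.t.support, y.t i ^ 2 :=
    continuous_finsetSum _ fun i _ => (continuous_t i).pow 2
  have hB : Continuous fun y : EJ G => ∑ i ∈ x.t.support, y.t i :=
    continuous_finsetSum _ fun i _ => continuous_t i
  have h1 := sum_eq x x.t.support (Finset.Subset.refl _)
  have h2 := q_eq x x.t.support (Finset.Subset.refl _)
  have hA' := hA.tendsto x
  have hAB : Filter.Tendsto (fun y : EJ G => ∑ i ∈ x.t.support, y.t i ^ 2 +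
      (1 - ∑ i ∈ x.t.support, y.t i)) (𝓝 x)
      (𝓝 (∑ i ∈ x.t.support, x.t i ^ 2 + (1 - ∑ i ∈ x.t.support, x.t i))) :=
    (hA.add (continuous_const.sub hB)).tendsto x
  rw [← h2] at hA'
  have e : (∑ i ∈ x.t.support, x.t i ^ 2 + (1 - ∑ i ∈ x.t.support, x.t i)) = q x := by
    rw [h1, h2]; ring
  rw [e] at hAB
  exact tendsto_of_tendsto_of_tendsto_of_le_of_le hA' hAB (fun y => q_ge y _) (fun y => q_le y _)

end MCUT

open MCUT in
/-- CUT: cut-off functions on `EG`. -/
theorem CUT : Stmt_CUT := by
  intro G _ _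
  have hc : ∀ i, Continuous fun x : EJ G => x.t i - q x / 2 := fun i =>
    (continuous_t i).sub (continuous_q.div_const 2)
  refine ⟨fun i x => max 0 (x.t i - q x / 2), fun i => continuous_const.max (hc i),
    fun i x => le_max_left _ _, fun i g x => rfl, fun x => ?_, fun i x hx => ?_, fun x => ?_⟩
  · obtain ⟨i, hi⟩ := exists_lt x
    exact ⟨i, lt_max_of_lt_right (by linarith)⟩
  · have h0 : x.t i - q x / 2 < 0 := by
      have := q_pos x
      rw [hx]; linarith
    filter_upwards [((hc i).tendsto x).eventually (gt_mem_nhds h0)] with y hy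
    exact max_eq_left hy.le
  · have hB : Continuous fun y : EJ G => 1 - ∑ i ∈ x.t.support, y.t i - q y / 2 :=
      (continuous_const.sub (continuous_finsetSum _ fun i _ => continuous_t i)).sub
        (continuous_q.div_const 2)
    have h0 : 1 - ∑ i ∈ x.t.support, x.t i - q x / 2 < 0 := by
      have := q_pos x
      rw [sum_eq x x.t.support (Finset.Subset.refl _)]
      linarith
    refine ⟨x.t.support.sup id + 1, ?_⟩
    filter_upwards [(hB.tendsto x).eventually (gt_mem_nhds h0)] with y hy i hi
    have hi' : i ∉ x.t.support := fun h => by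
      have := Finset.le_sup (f := id) h
      simp only [id] at this
      omega
    have := t_add_sum_le y _ i hi'
    exact max_eq_left (by linarith)

end Lit
end TC
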