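import Pool.Agent.TC.Lit.Basic2

/-!
# Block LIT: module DEV (continuity of the evaluation and of the tangent map)
-/

set_option autoImplicit false
set_option linter.unusedSectionVars false

open scoped Manifold ContDiff Topology

noncomputable section

namespace TC
namespace Lit

theorem DEV : Stmt_DEV := by
  intro n M _ _ _
  have : FiniteDimensional ℝ (mfd n M).E :=
    inferInstanceAs (FiniteDimensional ℝ (EuclideanSpace ℝ (Fin n)))
  have : LocallyCompactSpace (mfd n M).H :=
    inferInstanceAs (LocallyCompactSpace (EuclideanSpace ℝ (Fin n)))
  have hid := (DiffM.continuous_iff (n := n) (M := M)).1 continuous_id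
  have key : ∀ r : ℕ, Continuous (fun p : DiffM n M × (iterT r (mfd n M)).X =>
      (p.1.iter r) p.2) := by
    intro r
    have : LocallyCompactSpace (iterT r (mfd n M)).X := iterT_locallyCompact r _
    exact ((hid r).1.comp continuous_fst).eval continuous_snd
  exact ⟨key 0, key 1⟩

end Lit
end TC
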