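import Pool.Agent.TC.Lit.Basic2

/-!
# Block LIT, module EJA: the action on `EG` is continuous and free
-/

set_option autoImplicit false

open scoped Topology

noncomputable section

namespace TC
namespace Lit

namespace MEJA

theorem smul_t {G : Type} [Group G] (g : G) (x : EJ G) (i : ℕ) : (g • x).t i = x.t i := rfl

theorem smul_g {G : Type} [Group G] (g : G) (x : EJ G) (i : ℕ) (h : x.t i ≠ 0) :
    (g • x).g i = g * x.g i := by
  classical
  show (if x.t i = 0 then 1 else g * x.g i) = g * x.g i
  rw [if_neg h]

theorem exists_t {G : Type} [Group G] (x : EJ G) : ∃ i, x.t i ≠ 0 := by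
  by_contra hc
  push Not at hc
  have h := x.sum
  have h0 : x.t = 0 := Finsupp.ext hc
  rw [h0, Finsupp.sum_zero_index] at h
  exact zero_ne_one h

end MEJA

open MEJA

theorem EJA (hEJC : Stmt_EJC) : Stmt_EJA := by
  intro G _ _ _
  refine ⟨⟨?_⟩, ?_⟩
  · have hid := (hEJC G (EJ G) id).1 continuous_id
    refine (hEJC G (G × EJ G) fun p => p.1 • p.2).2 ⟨fun i => ?_, fun i => ?_⟩
    · have h1 : Continuous fun x : EJ G => x.t i := hid.1 i
      have h2 : Continuous fun p : G × EJ G => p.2.t i := h1.comp continuous_snd
      exact h2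
    · have hid2 : ContinuousOn (fun x : EJ G => x.g i) {x | 0 < x.t i} := hid.2 i
      have h : ContinuousOn (fun p : G × EJ G => p.1 * p.2.g i) {p | 0 < (p.1 • p.2).t i} :=
        continuous_fst.continuousOn.mul (hid2.comp
          (continuous_snd : Continuous (Prod.snd : G × EJ G → EJ G)).continuousOn
          fun p hp => hp)
      refine h.congr fun p hp => ?_
      exact smul_g p.1 p.2 i (ne_of_gt hp)
  · intro g x hx
    obtain ⟨i, hi⟩ := exists_t x
    have h := smul_g g x i hi
    rw [hx] at h
    exact (mul_eq_right.1 h.symm)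

end Lit
end TC
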