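import Pool.Agent.TC.Lit.Basic2

/-!
# Continuity of maps into Milnor's space `EG` (block LIT, module EJC)
-/

set_option autoImplicit false
set_option linter.unusedSectionVars false

noncomputable section

open Topology

namespace TC
namespace Lit

/-- EJC: a map into `EG` is continuous iff its coordinates are. -/
theorem EJC : Stmt_EJC := by
  intro G _ _ Y tY F
  have key : Continuous F ↔ (∀ i : ℕ, Continuous fun y => (F y).t i) ∧
      ∀ s ∈ {S | ∃ (i : ℕ) (U : Set G), IsOpen U ∧ S = {x : EJ G | 0 < x.t i ∧ x.g i ∈ U}},
        IsOpen (F ⁻¹' s) := by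
    refine Iff.trans (@continuous_inf_rng Y (EJ G) F tY
      (⨅ i : ℕ, TopologicalSpace.induced (fun x : EJ G => x.t i) inferInstance)
        (TopologicalSpace.generateFrom
          {S | ∃ (i : ℕ) (U : Set G), IsOpen U ∧ S = {x : EJ G | 0 < x.t i ∧ x.g i ∈ U}})) ?_
    refine and_congr ?_ continuous_generateFrom_iff
    refine Iff.trans (@continuous_iInf_rng Y (EJ G) F ℕ tY
      (fun i : ℕ => TopologicalSpace.induced (fun x : EJ G => x.t i) inferInstance)) ?_
    exact forall_congr' fun i => continuous_induced_rng
  rw [key]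
  refine and_congr_right fun ht => ?_
  have hopen : ∀ i, IsOpen {y | 0 < (F y).t i} := fun i => isOpen_lt continuous_const (ht i)
  constructor
  · intro h i
    rw [continuousOn_open_iff (hopen i)]
    intro U hU
    exact h _ ⟨i, U, hU, rfl⟩
  · rintro h s ⟨i, U, hU, rfl⟩
    exact (continuousOn_open_iff (hopen i)).1 (h i) U hU

end Lit
end TC
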