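import Pool.Agent.TC.Lit.Basic2

/-!
# EXC: excision for open embeddings (block LIT)
-/

set_option autoImplicit false
set_option linter.unusedSectionVars false

noncomputable section

namespace TC
namespace Lit
namespace MEXC

/-- A chain whose simplices lie in the range of an embedding is the image of a chain. -/
theorem lift {U X : Type} [TopologicalSpace U] [TopologicalSpace X] (φ : C(U, X))
    (hφ : Topology.IsOpenEmbedding φ) {k : ℕ} {a : Chain X k} (ha : ChainIn (Set.range φ) a) :
    ∃ y : Chain U k, cmap φ y = a := by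
  have h : ∀ σ : C(Simp k, X), ∃ y : Chain U k, Set.range σ ⊆ Set.range φ →
      cmap φ y = Finsupp.single σ 1 := by
    intro σ
    by_cases hσ : Set.range σ ⊆ Set.range φ
    · have h1 : ∀ t, ∃ u, φ u = σ t := fun t => hσ ⟨t, rfl⟩
      choose τ hτ using h1
      have hc : Continuous τ := by
        rw [hφ.toIsEmbedding.toIsInducing.continuous_iff]
        have : φ ∘ τ = σ := funext hτ
        rw [this]
        exact σ.continuous
      refine ⟨Finsupp.single ⟨τ, hc⟩ 1, fun _ => ?_⟩
      rw [cmap_single]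
      congr 1
      exact ContinuousMap.ext hτ
    · exact ⟨0, fun h => absurd h hσ⟩
  choose Y hY using h
  refine ⟨∑ σ ∈ a.support, a σ • Y σ, ?_⟩
  rw [map_sum]
  have e : ∀ σ ∈ a.support, cmap φ (a σ • Y σ) = Finsupp.single σ (a σ) := by
    intro σ hσ
    rw [map_smul, hY σ (ha σ hσ), Finsupp.smul_single, smul_eq_mul, mul_one]
  rw [Finset.sum_congr rfl e]
  exact Finsupp.sum_single a

theorem sdN_add {X : Type} [TopologicalSpace X] (N k : ℕ) (a b : Chain X k) :
    (sdC k)^[N] (a + b) = (sdC k)^[N] a + (sdC k)^[N] b := by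
  rw [← Module.End.pow_apply, ← Module.End.pow_apply, ← Module.End.pow_apply, map_add]

section alg

variable {α : Type} (x c b h : α →₀ F2)

theorem alg_one : x + c + (x + (c + b)) = b := by
  have e : x + c + (x + (c + b)) = (x + x) + (c + c) + b := by abel
  rw [e, ch_add_self, ch_add_self, zero_add, zero_add]

theorem alg_two : x + c + (x + (c + b) + h) = b + h := by
  have e : x + c + (x + (c + b) + h) = (x + x) + (c + c) + (b + h) := by abel
  rw [e, ch_add_self, ch_add_self, zero_add, zero_add]

theorem alg_three : x + (c + (x + b)) = b + c := by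
  have e : x + (c + (x + b)) = (x + x) + (b + c) := by abel
  rw [e, ch_add_self, zero_add]

theorem alg_four : x + (c + (x + b + h)) = b + c + h := by
  have e : x + (c + (x + b + h)) = (x + x) + (b + c + h) := by abel
  rw [e, ch_add_self, zero_add]

end alg

end MEXC

open MEXC in
/-- EXC. -/
theorem EXC (hSDS : Stmt_SDS) (hSMALL : Stmt_SMALL) : Stmt_EXC := by
  intro U X _ _ φ hφ K hK hKφ
  have hcov : Set.range φ ∪ Kᶜ = Set.univ := by
    ext x
    simp only [Set.mem_union, Set.mem_univ, iff_true, Set.mem_compl_iff]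
    by_cases hx : x ∈ K
    · exact Or.inl (hKφ hx)
    · exact Or.inr hx
  have hsm : ∀ (k : ℕ) (z : Chain X k), ∃ N : ℕ, ∃ (y : Chain U k) (b : Chain X k),
      ChainIn Kᶜ b ∧ (sdC k)^[N] z = cmap φ y + b := by
    intro k z
    obtain ⟨N, a, b, ha, hb, h⟩ := hSMALL X (Set.range φ) Kᶜ hφ.isOpen_range hK.isOpen_compl k z
      (by rw [hcov]; exact ChainIn.univ z)
    obtain ⟨y, rfl⟩ := lift φ hφ ha
    exact ⟨N, y, b, hb, h⟩
  constructor
  · intro k z hz
    obtain ⟨N, y, b, hb, h⟩ := hsm k z
    refine ⟨y, ?_, ?_⟩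
    · cases k with
      | zero => exact RC_zero y
      | succ k =>
        show ChainIn (φ ⁻¹' K)ᶜ (bd y)
        refine ChainIn.preimage (f := φ) hφ.injective (C := Kᶜ) ?_
        rw [← bd_cmap]
        have h1 : cmap φ y = (sdC (k + 1))^[N] z + b := by
          rw [h, ch_add_cancel]
        rw [h1, map_add, bd_sdN hSDS]
        exact (ChainIn.sdN hSDS N hz).add hb.bd
    · refine ⟨hoN N k z, ?_⟩
      cases k with
      | zero =>
        rw [bd_hoN_zero hSDS, h, alg_one]
        exact hb
      | succ k =>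
        rw [bd_hoN hSDS, h, alg_two]
        exact hb.add (ChainIn.hoN hSDS N hz)
  · intro k y hy hw
    obtain ⟨w, hw⟩ := hw
    obtain ⟨N, a, b, hb, h⟩ := hsm (k + 1) w
    have h1 : ChainIn (φ ⁻¹' K)ᶜ ((sdC k)^[N] y + bd a) := by
      refine ChainIn.preimage (f := φ) hφ.injective (C := Kᶜ) ?_
      have h2 := ChainIn.sdN hSDS N hw
      rw [sdN_add, ← bd_sdN hSDS, h, ← cmap_sdN hSDS, map_add, bd_cmap, ← add_assoc] at h2
      rw [map_add]
      have h3 := h2.add hb.bd
      rwa [ch_add_cancel] at h3
    refine ⟨a + hoN N k y, ?_⟩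
    rw [map_add]
    cases k with
    | zero =>
      rw [bd_hoN_zero hSDS, alg_three]
      exact h1
    | succ k =>
      rw [bd_hoN hSDS, alg_four]
      exact h1.add (ChainIn.hoN hSDS N hy)

end Lit
end TC
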