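import Pool.Agent.TC.Lit.Basic2

/-!
# Module FIB (block LIT): the universal bundle has the property `TopFib`
-/

set_option autoImplicit false
set_option linter.unusedSectionVars false

open scoped Manifold ContDiff Topology

noncomputable section

namespace TC
namespace Lit
namespace MFIB

/-- The straight line from the vertex `0` to a point of the simplex. -/
def lin (k : ℕ) : C(unitInterval × Simp k, Simp k) where
  toFun p := ⟨fun i => (1 - (p.1 : ℝ)) * (vtx (k := k) 0).1 i + (p.1 : ℝ) * p.2.1 i, by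
    constructor
    · intro i
      exact add_nonneg (mul_nonneg (sub_nonneg.2 p.1.2.2) ((vtx (k := k) 0).2.1 i))
        (mul_nonneg p.1.2.1 (p.2.2.1 i))
    · rw [Finset.sum_add_distrib, ← Finset.mul_sum, ← Finset.mul_sum,
        (vtx (k := k) 0).2.2, p.2.2.2]
      ring⟩
  continuous_toFun := by
    refine Continuous.subtype_mk ?_ _
    refine continuous_pi fun i => ?_
    have h1 : Continuous fun p : unitInterval × Simp k => (p.1 : ℝ) :=
      continuous_subtype_val.comp continuous_fst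
    have h2 : Continuous fun p : unitInterval × Simp k => p.2.1 i :=
      (continuous_apply i).comp (continuous_subtype_val.comp continuous_snd)
    exact ((continuous_const.sub h1).mul continuous_const).add (h1.mul h2)

theorem lin_zero {k : ℕ} (s : Simp k) : lin k (0, s) = vtx 0 := by
  apply Subtype.ext
  funext i
  show (1 - ((0 : unitInterval) : ℝ)) * (vtx (k := k) 0).1 i +
    ((0 : unitInterval) : ℝ) * s.1 i = (vtx (k := k) 0).1 i
  simp

theorem lin_one {k : ℕ} (s : Simp k) : lin k (1, s) = s := by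
  apply Subtype.ext
  funext i
  show (1 - ((1 : unitInterval) : ℝ)) * (vtx (k := k) 0).1 i +
    ((1 : unitInterval) : ℝ) * s.1 i = s.1 i
  simp

section

variable {k : ℕ} {X P : Type} [TopologicalSpace X] [TopologicalSpace P]

/-- The inclusion of the fibre. -/
def inc (φ : (Simp k × X) ≃ₜ P) : C(X, P) :=
  ⟨fun x => φ (vtx 0, x), φ.continuous.comp (continuous_const.prodMk continuous_id)⟩

/-- The projection to the fibre. -/
def prj (φ : (Simp k × X) ≃ₜ P) : C(P, X) :=
  ⟨fun p => (φ.symm p).2, continuous_snd.comp φ.symm.continuous⟩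

/-- The homotopy from `inc ∘ prj` to the identity. -/
def hty (φ : (Simp k × X) ≃ₜ P) : C(P × unitInterval, P) :=
  ⟨fun q => φ (lin k (q.2, (φ.symm q.1).1), (φ.symm q.1).2), by
    refine φ.continuous.comp ?_
    have h : Continuous fun q : P × unitInterval => φ.symm q.1 :=
      φ.symm.continuous.comp continuous_fst
    exact ((lin k).continuous.comp
      (continuous_snd.prodMk (continuous_fst.comp h))).prodMk (continuous_snd.comp h)⟩

theorem prj_inc (φ : (Simp k × X) ≃ₜ P) (x : X) : prj φ (inc φ x) = x := by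
  show (φ.symm (φ (vtx 0, x))).2 = x
  rw [φ.symm_apply_apply]

theorem hty_zero (φ : (Simp k × X) ≃ₜ P) (p : P) : hty φ (p, 0) = inc φ (prj φ p) := by
  show φ (lin k (0, (φ.symm p).1), (φ.symm p).2) = φ (vtx 0, (φ.symm p).2)
  rw [lin_zero]

theorem hty_one (φ : (Simp k × X) ≃ₜ P) (p : P) : hty φ (p, 1) = p := by
  show φ (lin k (1, (φ.symm p).1), (φ.symm p).2) = p
  rw [lin_one]
  exact φ.apply_symm_apply p

theorem heq_inc (hHEQ : Stmt_HEQ) (φ : (Simp k × X) ≃ₜ P) :
    (∀ (l : ℕ) (z : Chain X (l + 1)), bd z = 0 →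
    (z ∈ LinearMap.range (bd : Chain X (l + 2) →ₗ[F2] Chain X (l + 1)) ↔
      cmap (inc φ) z ∈ LinearMap.range (bd : Chain P (l + 2) →ₗ[F2] Chain P (l + 1)))) ∧
  (∀ m : ℕ, TopH m X → TopH m P) :=
  hHEQ X P (inc φ) (prj φ) ⟨fun q => q.1, continuous_fst⟩ (hty φ)
    (fun x => (prj_inc φ x).symm) (fun _ => rfl) (hty_zero φ) (hty_one φ)

theorem heq_prj (hHEQ : Stmt_HEQ) (φ : (Simp k × X) ≃ₜ P) (l : ℕ) (z : Chain P (l + 1))
    (hz : bd z = 0) : z ∈ LinearMap.range (bd : Chain P (l + 2) →ₗ[F2] Chain P (l + 1)) ↔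
      cmap (prj φ) z ∈ LinearMap.range (bd : Chain X (l + 2) →ₗ[F2] Chain X (l + 1)) :=
  (hHEQ P X (prj φ) (inc φ) (hty φ) ⟨fun q => q.1, continuous_fst⟩
    (hty_zero φ) (hty_one φ) (fun x => (prj_inc φ x).symm) (fun _ => rfl)).1 l z hz

end

end MFIB

open MFIB in
theorem FIB (hTRIV : Stmt_TRIV) (hLIFT : Stmt_LIFT) (hHEQ : Stmt_HEQ) (_hPRISM : Stmt_PRISM) :
    Stmt_FIB := by
  intro G _ _ _ X _ _ _ m hX hex
  have htriv : ∀ {j : ℕ} (σ : C(Simp j, BG G)),
      ∃ τ : C(Simp j, EJ G), ∀ t, BG.mk (τ t) = σ t := fun σ => hLIFT G _ σ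
  refine ⟨?_, ?_, ?_⟩
  · intro j σ
    obtain ⟨τ, hτ⟩ := htriv σ
    obtain ⟨φ, -⟩ := hTRIV G X j σ τ hτ
    exact (heq_inc hHEQ φ).2 m hX
  · intro j σ i z hz hr
    obtain ⟨τ, hτ⟩ := htriv σ
    obtain ⟨φ, hφ⟩ := hTRIV G X (j + 1) σ τ hτ
    obtain ⟨φ', hφ'⟩ := hTRIV G X j (σ.comp (face i)) (τ.comp (face i)) (fun t => hτ _)
    have key : ∀ p, prj φ (PB.face Borel.proj σ i p) = prj φ' p := by
      intro p
      obtain ⟨⟨s, x⟩, rfl⟩ := φ'.surjective p
      have h1 : PB.face (Borel.proj : C(Borel G X, BG G)) σ i (φ' (s, x)) =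
          φ (face i s, x) := by
        apply Subtype.ext
        have e1 : (PB.face (Borel.proj : C(Borel G X, BG G)) σ i (φ' (s, x))).1 =
            (face i (φ' (s, x)).1.1, (φ' (s, x)).1.2) := rfl
        rw [e1, hφ', hφ]
        rfl
      show (φ.symm (PB.face Borel.proj σ i (φ' (s, x)))).2 = (φ'.symm (φ' (s, x))).2
      rw [h1, φ.symm_apply_apply, φ'.symm_apply_apply]
    have hcomp : (prj φ).comp (PB.face Borel.proj σ i) = prj φ' := ContinuousMap.ext key
    rw [heq_prj hHEQ φ' m z hz, ← hcomp, ← cmap_comp]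
    obtain ⟨w, hw⟩ := hr
    exact ⟨cmap (prj φ) w, by rw [bd_cmap, hw]⟩
  · intro σ
    obtain ⟨τ, hτ⟩ := htriv σ
    obtain ⟨φ, -⟩ := hTRIV G X 0 σ τ hτ
    obtain ⟨z, hz, hz'⟩ := hex
    refine ⟨cmap (inc φ) z, by rw [bd_cmap, hz, map_zero], fun h => hz' ?_⟩
    exact ((heq_inc hHEQ φ).1 m z hz).2 h

end Lit
end TC
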