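import Pool.Agent.TC.Lit.Basic2

/-!
# The classifying map of a family of Gauss maps
-/

set_option autoImplicit false
set_option linter.unusedSectionVars false

open scoped Manifold ContDiff Topology

noncomputable section

namespace TC.Lit

namespace MGBSO

variable {n : ℕ} {M : Type} [TopologicalSpace M] [ChartedSpace (EuclideanSpace ℝ (Fin n)) M]
  [IsManifold (𝓡 n) ∞ M] {Y : Type} [TopologicalSpace Y]
  {Φ : Y × TangentBundle (𝓡 n) M → L2}

theorem indep (hΦ : IsGauss n M Y Φ) (y : Y) (m : M)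
    (t : Module.Basis (Fin n) ℝ (TangentSpace (𝓡 n) m)) :
    LinearIndependent ℝ (fun i => Φ (y, ⟨m, t i⟩)) := by
  obtain ⟨L, hL, hLv⟩ := hΦ.2 y m
  have h1 := t.linearIndependent.map' L (LinearMap.ker_eq_bot.2 hL)
  have h2 : (fun i => Φ (y, ⟨m, t i⟩)) = L ∘ t := by
    funext i
    exact hLv (t i)
  rw [h2]
  exact h1

theorem mk_eq (hΦ : IsGauss n M Y Φ) (y : Y) (m : M)
    (t t' : Module.Basis (Fin n) ℝ (TangentSpace (𝓡 n) m)) (h : t.orientation = t'.orientation) :
    BSO.mk ⟨_, indep hΦ y m t⟩ = BSO.mk ⟨_, indep hΦ y m t'⟩ := by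
  obtain ⟨L, hL, hLv⟩ := hΦ.2 y m
  refine Quotient.sound ⟨t.toMatrix t', ?_, ?_⟩
  · have h1 := (Module.Basis.orientation_eq_iff_det_pos t t').1 h
    rwa [Module.Basis.det_apply] at h1
  · intro j
    show Φ (y, ⟨m, t' j⟩) = ∑ i, t.toMatrix t' i j • Φ (y, ⟨m, t i⟩)
    simp only [hLv]
    rw [← Module.Basis.sum_toMatrix_smul_self t t' j, map_sum]
    simp only [map_smul]

/-- There is a positive basis at every point. -/
theorem exists_pos (o : Orient M n) (m : M) (hn : 0 < n) :
    ∃ t : Module.Basis (Fin n) ℝ (TangentSpace (𝓡 n) m), t.orientation = o.or m := by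
  have : Nonempty (Fin n) := ⟨⟨0, hn⟩⟩
  let b : Module.Basis (Fin n) ℝ (TangentSpace (𝓡 n) m) :=
    (EuclideanSpace.basisFun (Fin n) ℝ).toBasis
  exact ⟨b.adjustToOrientation (o.or m), b.orientation_adjustToOrientation (o.or m)⟩

/-- A local frame. -/
theorem local_frame (m₀ : M) (b : Module.Basis (Fin n) ℝ (TangentSpace (𝓡 n) m₀)) :
    ∃ (W : Set M) (T : ∀ m : M, m ∈ W → Module.Basis (Fin n) ℝ (TangentSpace (𝓡 n) m))
      (hm : m₀ ∈ W), IsOpen W ∧ T m₀ hm = b ∧
      ∀ i, Continuous fun w : W => (⟨w.1, T w.1 w.2 i⟩ : TangentBundle (𝓡 n) M) := by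
  let e := trivializationAt (EuclideanSpace ℝ (Fin n)) (TangentSpace (𝓡 n) : M → Type) m₀
  have hm : m₀ ∈ e.baseSet := FiberBundle.mem_baseSet_trivializationAt' m₀
  let w : Module.Basis (Fin n) ℝ (EuclideanSpace ℝ (Fin n)) := b.map (e.linearEquivAt ℝ m₀ hm)
  refine ⟨e.baseSet, fun m h => w.map (e.linearEquivAt ℝ m h).symm, hm, e.open_baseSet, ?_, ?_⟩
  · refine Module.Basis.eq_of_apply_eq fun i => ?_
    exact (e.linearEquivAt ℝ m₀ hm).symm_apply_apply (b i)
  · intro i
    have h1 : Continuous fun v : e.baseSet =>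
        e.toOpenPartialHomeomorph.symm ((v : M), w i) := by
      refine e.toOpenPartialHomeomorph.continuousOn_symm.comp_continuous
        (continuous_subtype_val.prodMk continuous_const) ?_
      intro v
      have : e.toOpenPartialHomeomorph.target = e.baseSet ×ˢ Set.univ := e.target_eq
      rw [this]
      exact ⟨v.2, trivial⟩
    refine h1.congr fun v => ?_
    rw [← e.mk_symm v.2]
    rfl

end MGBSO

open MGBSO in
theorem GBSO : Stmt_GBSO := by
  intro n M _ _ _ o Y _ Φ hΦ
  rcases Nat.eq_zero_or_pos n with rfl | hn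
  · -- dimension zero
    have hli : LinearIndependent ℝ (fun i : Fin 0 => (Fin.elim0 i : L2)) :=
      linearIndependent_empty_type
    refine ⟨⟨fun _ => BSO.mk ⟨_, hli⟩, continuous_const⟩, ?_⟩
    intro y m t _
    refine ⟨indep hΦ y m t, ?_⟩
    show BSO.mk _ = BSO.mk _
    congr 2
    funext i
    exact Fin.elim0 i
  · choose b hb using fun m => exists_pos o m hn
    let F : Y × M → BSO n := fun p => BSO.mk ⟨_, indep hΦ p.1 p.2 (b p.2)⟩
    have hF : ∀ (y : Y) (m : M) (t : Module.Basis (Fin n) ℝ (TangentSpace (𝓡 n) m)),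
        t.orientation = o.or m → F (y, m) = BSO.mk ⟨_, indep hΦ y m t⟩ := by
      intro y m t ht
      exact mk_eq hΦ y m (b m) t ((hb m).trans ht.symm)
    obtain ⟨U, hU, hUo⟩ := o.isOpen
    have hcont : Continuous F := by
      rw [continuous_iff_continuousAt]
      rintro ⟨y₀, m₀⟩
      obtain ⟨W, T, hm, hW, hT, hTc⟩ := local_frame m₀ (b m₀)
      -- the open set where the frame is positive
      have hfr : Continuous fun w : W => fun i => (⟨w.1, T w.1 w.2 i⟩ : TangentBundle (𝓡 n) M) :=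
        continuous_pi hTc
      obtain ⟨V, hV, hVe⟩ := isOpen_induced_iff.1 (hU.preimage hfr)
      have hVW : IsOpen (V ∩ W) := hV.inter hW
      have hpos : ∀ m (h : m ∈ V ∩ W), (T m h.2).orientation = o.or m := by
        intro m h
        have h1 : (⟨m, h.2⟩ : W) ∈ Subtype.val ⁻¹' V := h.1
        rw [hVe] at h1
        exact (hUo m (T m h.2)).1 h1
      have hm₀ : m₀ ∈ V ∩ W := by
        refine ⟨?_, hm⟩
        have h1 : (⟨m₀, hm⟩ : W) ∈ Subtype.val ⁻¹' V := by
          rw [hVe]
          refine (hUo m₀ (T m₀ hm)).2 ?_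
          rw [hT, hb]
        exact h1
      have hopen : IsOpen (Set.univ ×ˢ (V ∩ W) : Set (Y × M)) := isOpen_univ.prod hVW
      have hon : ContinuousOn F (Set.univ ×ˢ (V ∩ W)) := by
        rw [continuousOn_iff_continuous_domRestrict]
        have h1 : Continuous fun p : (Set.univ ×ˢ (V ∩ W) : Set (Y × M)) =>
            (⟨fun i => Φ (p.1.1, ⟨p.1.2, T p.1.2 p.2.2.2 i⟩),
              indep hΦ p.1.1 p.1.2 (T p.1.2 p.2.2.2)⟩ : Frames n) := by
          refine Continuous.subtype_mk ?_ _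
          refine continuous_pi fun i => hΦ.1.comp ?_
          refine (continuous_fst.comp continuous_subtype_val).prodMk ?_
          have h2 : Continuous fun p : (Set.univ ×ˢ (V ∩ W) : Set (Y × M)) =>
              (⟨p.1.2, p.2.2.2⟩ : W) :=
            (continuous_snd.comp continuous_subtype_val).subtype_mk _
          exact (hTc i).comp h2
        have h3 : Continuous (BSO.mk : Frames n → BSO n) := continuous_quotient_mk'
        refine (h3.comp h1).congr fun p => ?_
        exact (hF p.1.1 p.1.2 _ (hpos p.1.2 p.2.2)).symm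
      exact (hon _ ⟨trivial, hm₀⟩).continuousAt (hopen.mem_nhds ⟨trivial, hm₀⟩)
    exact ⟨⟨F, hcont⟩, fun y m t ht => ⟨indep hΦ y m t, hF y m t ht⟩⟩

end TC.Lit
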