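import Pool.Agent.TC.Lit.Basic2

/-!
# Block LIT: module HALF (the half turn belongs to the identity component)
-/

set_option autoImplicit false
set_option linter.unusedSectionVars false

open scoped Manifold ContDiff Topology

noncomputable section

namespace TC
namespace Lit

theorem HALF (hCIR : Stmt_CIR) : Stmt_HALF := by
  intro n M _ _ _ ρ
  obtain ⟨Θ, hc, hΘ⟩ := hCIR n M ρ
  have h0 : Θ 0 = 1 := DiffM.ext fun x => by rw [hΘ, ρ.zero, DiffM.one_fn]
  have hmem : Θ 1 ∈ Diff0 n M := by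
    have h1 : IsPreconnected (Set.range Θ) := isPreconnected_range hc
    have h2 : (1 : DiffM n M) ∈ Set.range Θ := ⟨0, h0⟩
    exact h1.subset_connectedComponent h2 ⟨1, rfl⟩
  refine ⟨⟨Θ 1, hmem⟩, ?_, fun x => hΘ 1 x⟩
  apply Subtype.ext
  show Θ 1 * Θ 1 = 1
  refine DiffM.ext fun x => ?_
  rw [DiffM.mul_fn, hΘ, hΘ, DiffM.one_fn, ← ρ.add, one_add_one_eq_two, ρ.two]

end Lit
end TC
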