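import Pool.Agent.TC.Lit.Basic2

/-!
# Top homology and homotopy equivalences
-/

set_option autoImplicit false
set_option linter.unusedSectionVars false

open scoped Manifold ContDiff Topology

noncomputable section

namespace TC.Lit

namespace MHEQ

variable {X Y : Type} [TopologicalSpace X] [TopologicalSpace Y]

/-- The boundaries. -/
abbrev Bd (X : Type) [TopologicalSpace X] (k : ℕ) : Submodule F2 (Chain X (k + 1)) :=
  LinearMap.range (bd : Chain X (k + 2) →ₗ[F2] Chain X (k + 1))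

theorem homotopy (hP : Stmt_PRISM) (F : C(X × unitInterval, Y)) (f g : C(X, Y))
    (hf : ∀ x, F (x, 0) = f x) (hg : ∀ x, F (x, 1) = g x) {k : ℕ} (z : Chain X (k + 1))
    (hz : bd z = 0) : cmap f z + cmap g z ∈ Bd Y k := by
  obtain ⟨P, -, h1, -⟩ := hP X Y F f g hf hg
  refine ⟨P (k + 1) z, ?_⟩
  rw [h1, hz, map_zero, add_zero]

theorem map_mem (f : C(X, Y)) {k : ℕ} {z : Chain X (k + 1)} (h : z ∈ Bd X k) :
    cmap f z ∈ Bd Y k := by
  obtain ⟨w, rfl⟩ := h
  exact ⟨cmap f w, bd_cmap f w⟩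

theorem congr {k : ℕ} {z w : Chain X (k + 1)} (h : z + w ∈ Bd X k) :
    z ∈ Bd X k ↔ w ∈ Bd X k := by
  constructor
  · intro hz
    have := (Bd X k).add_mem hz h
    rwa [ch_add_cancel_left] at this
  · intro hw
    have := (Bd X k).add_mem h hw
    rwa [ch_add_cancel] at this

theorem retract (hP : Stmt_PRISM) (f : C(X, Y)) (g : C(Y, X)) (F : C(X × unitInterval, X))
    (hf : ∀ x, F (x, 0) = g (f x)) (hg : ∀ x, F (x, 1) = x) {k : ℕ} (z : Chain X (k + 1))
    (hz : bd z = 0) : z ∈ Bd X k ↔ cmap f z ∈ Bd Y k := by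
  refine ⟨map_mem f, fun h => ?_⟩
  have h1 := map_mem g h
  rw [cmap_comp] at h1
  have h2 := homotopy hP F (g.comp f) (ContinuousMap.id X) hf hg z hz
  rw [cmap_id] at h2
  exact (congr h2).1 h1

end MHEQ

open MHEQ in
theorem HEQ (hPRISM : Stmt_PRISM) : Stmt_HEQ := by
  intro X Y _ _ f g F F' hF0 hF1 hF0' hF1'
  refine ⟨fun k z hz => retract hPRISM f g F hF0 hF1 z hz, fun m hX => ⟨?_, ?_⟩⟩
  · intro k hk z hz
    refine (retract hPRISM g f F' hF0' hF1' z hz).2 ?_
    refine hX.1 k hk _ ?_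
    rw [bd_cmap, hz, map_zero]
  · intro z z' hz hz' h h'
    refine (retract hPRISM g f F' hF0' hF1' (z + z') (by rw [map_add, hz, hz', add_zero])).2 ?_
    rw [map_add]
    refine hX.2 _ _ (by rw [bd_cmap, hz, map_zero]) (by rw [bd_cmap, hz', map_zero]) ?_ ?_
    · exact fun h1 => h ((retract hPRISM g f F' hF0' hF1' z hz).2 h1)
    · exact fun h1 => h' ((retract hPRISM g f F' hF0' hF1' z' hz').2 h1)

end TC.Lit
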