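import Pool.Agent.TC.Lit.Basic2

/-!
# Block LIT, module HMT: homotopic maps induce the same map in cohomology
-/

set_option autoImplicit false
set_option linter.unusedSectionVars false

open scoped Manifold ContDiff Topology

noncomputable section

namespace TC
namespace Lit
namespace MHMT

theorem pair_cmap_single {X Y : Type} [TopologicalSpace X] [TopologicalSpace Y] {k : ℕ}
    (f : C(X, Y)) (u : Coch Y k) (σ : C(Simp k, X)) :
    pair u (cmap f (Finsupp.single σ 1)) = pull f u σ := by
  rw [cmap_single, pair_single, one_mul]
  rfl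

/-- The difference of the pull backs of a cocycle under homotopic maps is a coboundary. -/
theorem mem_Bk (hPRISM : Stmt_PRISM) {X Y : Type} [TopologicalSpace X] [TopologicalSpace Y]
    (F : C(X × unitInterval, Y)) (f g : C(X, Y)) (h0 : ∀ x, F (x, 0) = f x)
    (h1 : ∀ x, F (x, 1) = g x) (k : ℕ) (u : Coch Y k) (hu : cobd u = 0) :
    pull f u - pull g u ∈ Bk X k := by
  obtain ⟨P, hP0, hP1, -⟩ := hPRISM X Y F f g h0 h1
  have hz : ∀ z : Chain Y (k + 1), pair u (bd z) = 0 := by
    intro z
    rw [← pair_cobd, hu]
    induction z using Finsupp.induction_linear with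
    | zero => simp
    | add x y hx hy => rw [map_add, hx, hy, add_zero]
    | single σ a => rw [pair_single]; simp
  have hsub : ∀ a b : F2, a - b = a + b := by decide
  cases k with
  | zero =>
    have h : pull f u - pull g u = 0 := by
      funext σ
      show pull f u σ - pull g u σ = 0
      rw [hsub, ← pair_cmap_single, ← pair_cmap_single, ← map_add, ← hP0, hz]
    rw [h]
    exact Submodule.zero_mem _
  | succ k =>
    refine ⟨fun τ => pair u (P k (Finsupp.single τ 1)), ?_⟩
    funext σ
    show ∑ i : Fin (k + 2), pair u (P k (Finsupp.single (σ.comp (face i)) 1)) =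
      pull f u σ - pull g u σ
    rw [hsub, ← pair_cmap_single, ← pair_cmap_single, ← map_sum, ← map_sum, ← bd_single]
    have h := hP1 k (Finsupp.single σ 1)
    have h2 : P k (bd (Finsupp.single σ 1)) = (cmap f (Finsupp.single σ 1) +
        cmap g (Finsupp.single σ 1)) + bd (P (k + 1) (Finsupp.single σ 1)) := by
      rw [h, ← add_assoc, ch_add_self, zero_add]
    rw [h2, map_add, map_add, hz, add_zero]

end MHMT

theorem HMT (hPRISM : Stmt_PRISM) : Stmt_HMT := by
  intro X Y _ _ F f g h0 h1 k c
  induction c using Submodule.Quotient.induction_on with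
  | H u =>
    obtain ⟨u, hu⟩ := u
    refine (Submodule.Quotient.eq _).2 ?_
    exact MHMT.mem_Bk hPRISM F f g h0 h1 k u hu

end Lit
end TC
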