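import Pool.Agent.TC.Lit.Stmts

/-!
# Statements of the modules of the block LIT (`TC.Goal → TC.Goal2`), part 2: Milnor's classifying
space, diffeomorphism groups, Gauss maps, fibre transfers.
-/

set_option autoImplicit false
set_option linter.unusedSectionVars false

open scoped Manifold ContDiff Topology

noncomputable section

namespace TC
namespace Lit

/-! ## Milnor's classifying space -/

/-- EJC: continuity of maps into `EG`. -/
def Stmt_EJC : Prop := ∀ (G : Type) [Group G] [TopologicalSpace G] (Y : Type)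
  [TopologicalSpace Y] (F : Y → EJ G), Continuous F ↔
    (∀ i, Continuous fun y => (F y).t i) ∧
      ∀ i, ContinuousOn (fun y => (F y).g i) {y | 0 < (F y).t i}

/-- EJA: the action on `EG` is continuous and free. -/
def Stmt_EJA : Prop := ∀ (G : Type) [Group G] [TopologicalSpace G] [IsTopologicalGroup G],
  ContinuousSMul G (EJ G) ∧ ∀ (g : G) (x : EJ G), g • x = x → g = 1

/-- TRS: continuity of the translation function of `EG → BG`. -/
def Stmt_TRS : Prop := ∀ (G : Type) [Group G] [TopologicalSpace G] [IsTopologicalGroup G]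
  (Y : Type) [TopologicalSpace Y] (a b : Y → EJ G), Continuous a → Continuous b →
  (∀ y, BG.mk (a y) = BG.mk (b y)) → ∃ g : Y → G, Continuous g ∧ ∀ y, b y = g y • a y

/-- SEC: local sections of `EG → BG`. -/
def Stmt_SEC : Prop := ∀ (G : Type) [Group G] [TopologicalSpace G] [IsTopologicalGroup G]
  (p : BG G), ∃ U : Set (BG G), IsOpen U ∧ p ∈ U ∧ ∃ s : BG G → EJ G, ContinuousOn s U ∧
    ∀ u ∈ U, BG.mk (s u) = u

/-- OPN: the quotient maps are open. -/
def Stmt_OPN : Prop := ∀ (G : Type) [Group G] [TopologicalSpace G] [IsTopologicalGroup G]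
  (X : Type) [TopologicalSpace X] [MulAction G X] [ContinuousSMul G X],
  IsOpenQuotientMap (BG.mk : EJ G → BG G) ∧
    IsOpenQuotientMap (Borel.mk : EJ G × X → Borel G X) ∧
    (∀ p q : EJ G × X, Borel.mk p = Borel.mk q ↔ ∃ g : G, p = g • q) ∧
    (∀ x y : EJ G, BG.mk x = BG.mk y ↔ ∃ g : G, x = g • y)

/-- LIFT: singular simplices of `BG` lift to `EG`. -/
def Stmt_LIFT : Prop := ∀ (G : Type) [Group G] [TopologicalSpace G] [IsTopologicalGroup G]
  (j : ℕ) (σ : C(Simp j, BG G)), ∃ τ : C(Simp j, EJ G), ∀ t, BG.mk (τ t) = σ t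

/-- TRIV: the pull back of `EG ×_G X → BG` along a singular simplex is trivial. -/
def Stmt_TRIV : Prop := ∀ (G : Type) [Group G] [TopologicalSpace G] [IsTopologicalGroup G]
  (X : Type) [TopologicalSpace X] [MulAction G X] [ContinuousSMul G X] (j : ℕ)
  (σ : C(Simp j, BG G)) (τ : C(Simp j, EJ G)), (∀ t, BG.mk (τ t) = σ t) →
  ∃ φ : (Simp j × X) ≃ₜ PB (Borel.proj : C(Borel G X, BG G)) σ,
    ∀ p, (φ p).1 = (p.1, Borel.mk (τ p.1, p.2))

/-! ## Diffeomorphism groups -/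

section
variable (n : ℕ) (M : Type) [TopologicalSpace M] [ChartedSpace (EuclideanSpace ℝ (Fin n)) M]
  [IsManifold (𝓡 n) ∞ M]

/-- DEV: joint continuity of the evaluation and of the tangent map. -/
def P_DEV : Prop :=
  Continuous (fun p : DiffM n M × M => p.1.fn p.2) ∧
  Continuous (fun p : DiffM n M × TangentBundle (𝓡 n) M => tangentMap (𝓡 n) (𝓡 n) p.1.fn p.2)

/-- CIR: a smooth circle action is a continuous path in the group of diffeomorphisms. -/
def P_CIR : Prop := ∀ ρ : CircleAct M n, ∃ Θ : ℝ → DiffM n M, Continuous Θ ∧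
  ∀ (t : ℝ) (x : M), (Θ t).fn x = ρ.act t x

/-- HALF: the half turn belongs to the identity component. -/
def P_HALF : Prop := ∀ ρ : CircleAct M n, ∃ θ : Diff0 n M, θ * θ = 1 ∧
  ∀ x : M, θ.1.fn x = ρ.half x

/-- ORI: diffeomorphisms in the identity component preserve the orientation. -/
def P_ORI : Prop := ∀ (o : Orient M n) (g : DiffM n M), g ∈ Diff0 n M → ∀ (m : M)
  (t : Module.Basis (Fin n) ℝ (TangentSpace (𝓡 n) m)), t.orientation = o.or m →
  ∃ t' : Module.Basis (Fin n) ℝ (TangentSpace (𝓡 n) (g.fn m)), t'.orientation = o.or (g.fn m) ∧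
    ∀ i, tangentMap (𝓡 n) (𝓡 n) g.fn ⟨m, t i⟩ = ⟨g.fn m, t' i⟩

end

/-- DEV. -/
def Stmt_DEV : Prop := ∀ (n : ℕ) (M : Type) [TopologicalSpace M]
  [ChartedSpace (EuclideanSpace ℝ (Fin n)) M] [IsManifold (𝓡 n) ∞ M], P_DEV n M

/-- CIR. -/
def Stmt_CIR : Prop := ∀ (n : ℕ) (M : Type) [TopologicalSpace M]
  [ChartedSpace (EuclideanSpace ℝ (Fin n)) M] [IsManifold (𝓡 n) ∞ M], P_CIR n M

/-- HALF. -/
def Stmt_HALF : Prop := ∀ (n : ℕ) (M : Type) [TopologicalSpace M]
  [ChartedSpace (EuclideanSpace ℝ (Fin n)) M] [IsManifold (𝓡 n) ∞ M], P_HALF n M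

/-- ORI. -/
def Stmt_ORI : Prop := ∀ (n : ℕ) (M : Type) [TopologicalSpace M]
  [ChartedSpace (EuclideanSpace ℝ (Fin n)) M] [IsManifold (𝓡 n) ∞ M], P_ORI n M

/-! ## Gauss maps -/

/-- A family of Gauss maps of `TM` parametrised by a space `Y`. -/
def IsGauss (n : ℕ) (M : Type) [TopologicalSpace M] [ChartedSpace (EuclideanSpace ℝ (Fin n)) M]
    [IsManifold (𝓡 n) ∞ M] (Y : Type) [TopologicalSpace Y]
    (Φ : Y × TangentBundle (𝓡 n) M → L2) : Prop :=
  Continuous Φ ∧ ∀ (y : Y) (m : M), ∃ L : TangentSpace (𝓡 n) m →ₗ[ℝ] L2,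
    Function.Injective L ∧ ∀ v : TangentSpace (𝓡 n) m, Φ (y, ⟨m, v⟩) = L v

/-- `F (y, m)` is the oriented subspace `Φ (y, T_m M)`. -/
def IsGaussCl {n : ℕ} {M : Type} [TopologicalSpace M] [ChartedSpace (EuclideanSpace ℝ (Fin n)) M]
    [IsManifold (𝓡 n) ∞ M] (o : Orient M n) {Y : Type}
    (Φ : Y × TangentBundle (𝓡 n) M → L2) (F : Y × M → BSO n) : Prop :=
  ∀ (y : Y) (m : M) (t : Module.Basis (Fin n) ℝ (TangentSpace (𝓡 n) m)),
    t.orientation = o.or m → ∃ hli : LinearIndependent ℝ (fun i => Φ (y, ⟨m, t i⟩)),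
      F (y, m) = BSO.mk ⟨_, hli⟩

/-- GBSO: the classifying map of a family of Gauss maps. -/
def Stmt_GBSO : Prop := ∀ (n : ℕ) (M : Type) [TopologicalSpace M]
  [ChartedSpace (EuclideanSpace ℝ (Fin n)) M] [IsManifold (𝓡 n) ∞ M] (o : Orient M n)
  (Y : Type) [TopologicalSpace Y] (Φ : Y × TangentBundle (𝓡 n) M → L2), IsGauss n M Y Φ →
  ∃ F : C(Y × M, BSO n), IsGaussCl o Φ F

/-- WHI: a Gauss map of the tangent bundle of a compact manifold. -/
def Stmt_WHI : Prop := ∀ (n : ℕ) (M : Type) [TopologicalSpace M] [T2Space M] [CompactSpace M]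
  [ChartedSpace (EuclideanSpace ℝ (Fin n)) M] [IsManifold (𝓡 n) ∞ M],
  ∃ (N : ℕ) (Φ : TangentBundle (𝓡 n) M → EuclideanSpace ℝ (Fin N)), Continuous Φ ∧
    ∀ m : M, ∃ L : TangentSpace (𝓡 n) m →ₗ[ℝ] EuclideanSpace ℝ (Fin N),
      Function.Injective L ∧ ∀ v : TangentSpace (𝓡 n) m, Φ ⟨m, v⟩ = L v

/-- CUT: cut-off functions on `EG`. -/
def Stmt_CUT : Prop := ∀ (G : Type) [Group G] [TopologicalSpace G],
  ∃ s : ℕ → EJ G → ℝ, (∀ i, Continuous (s i)) ∧ (∀ i x, 0 ≤ s i x) ∧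
    (∀ i (g : G) x, s i (g • x) = s i x) ∧ (∀ x, ∃ i, 0 < s i x) ∧
    (∀ i x, x.t i = 0 → ∀ᶠ y in 𝓝 x, s i y = 0) ∧
    (∀ x, ∃ N : ℕ, ∀ᶠ y in 𝓝 x, ∀ i, N ≤ i → s i y = 0)

/-- UGE: existence of a Gauss map of the universal bundle. -/
def Stmt_UGE : Prop := ∀ (n : ℕ) (M : Type) [TopologicalSpace M] [T2Space M] [CompactSpace M]
  [ChartedSpace (EuclideanSpace ℝ (Fin n)) M] [IsManifold (𝓡 n) ∞ M], Nonempty (UGaussMap n M)

/-- UCL: every Gauss map of the universal bundle has a classifying map. -/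
def Stmt_UCL : Prop := ∀ (n : ℕ) (M : Type) [TopologicalSpace M]
  [ChartedSpace (EuclideanSpace ℝ (Fin n)) M] [IsManifold (𝓡 n) ∞ M] (o : Orient M n)
  (Φ : UGaussMap n M), ∃ f : C(Borel (Diff0 n M) M, BSO n),
    IsGaussCl o Φ.toFun (fun p => f (Borel.mk p))

/-- HMT: homotopic maps induce the same map in cohomology. -/
def Stmt_HMT : Prop := ∀ (X Y : Type) [TopologicalSpace X] [TopologicalSpace Y]
  (F : C(X × unitInterval, Y)) (f g : C(X, Y)), (∀ x, F (x, 0) = f x) → (∀ x, F (x, 1) = g x) →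
  ∀ (k : ℕ) (c : HH Y k), HH.map f c = HH.map g c

/-- LHT: two Gauss maps are connected by three linear homotopies of Gauss maps. -/
def Stmt_LHT : Prop :=
  ∃ a b : L2 →L[ℝ] L2, ∀ (V : Type) [AddCommGroup V] [Module ℝ V] (L L' : V →ₗ[ℝ] L2),
    Function.Injective L → Function.Injective L' →
    ∀ s ∈ Set.Icc (0 : ℝ) 1,
      Function.Injective (fun v => (1 - s) • L v + s • a (L v)) ∧
      Function.Injective (fun v => (1 - s) • L' v + s • b (L' v)) ∧
      Function.Injective (fun v => (1 - s) • a (L v) + s • b (L' v))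

/-- UUQ: all classifying maps induce the same map in cohomology. -/
def Stmt_UUQ : Prop := ∀ (n : ℕ) (M : Type) [TopologicalSpace M]
  [ChartedSpace (EuclideanSpace ℝ (Fin n)) M] [IsManifold (𝓡 n) ∞ M] (o : Orient M n)
  (f f' : C(Borel (Diff0 n M) M, BSO n)), IsUClassifying o f → IsUClassifying o f' →
  ∀ (k : ℕ) (c : HH (BSO n) k), HH.map f c = HH.map f' c

/-! ## Fibre transfers -/

section transfer

variable {E B : Type} [TopologicalSpace E] [TopologicalSpace B]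

/-- The homology of the fibres behaves like that of a closed connected manifold of dimension
`m + 1`. -/
structure TopFib (m : ℕ) (π : C(E, B)) : Prop where
  top : ∀ {j : ℕ} (σ : C(Simp j, B)), TopH m (PB π σ)
  inj : ∀ {j : ℕ} (σ : C(Simp (j + 1), B)) (i : Fin (j + 2))
    (z : Chain (PB π (σ.comp (face i))) (m + 1)), bd z = 0 →
    cmap (PB.face π σ i) z ∈
      LinearMap.range (bd : Chain (PB π σ) (m + 2) →ₗ[F2] Chain (PB π σ) (m + 1)) →
    z ∈ LinearMap.range (bd : Chain (PB π (σ.comp (face i))) (m + 2) →ₗ[F2] Chain _ (m + 1))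
  ex : ∀ σ : C(Simp 0, B), ∃ z : Chain (PB π σ) (m + 1), bd z = 0 ∧
    z ∉ LinearMap.range (bd : Chain (PB π σ) (m + 2) →ₗ[F2] Chain (PB π σ) (m + 1))

end transfer

/-- TREX: existence of fibre transfers. -/
def Stmt_TREX : Prop := ∀ (E B : Type) [TopologicalSpace E] [TopologicalSpace B] (m : ℕ)
  (π : C(E, B)), TopFib m π → Nonempty (FibreTransfer m π)

/-- The map of pull backs induced by a map of bundles. -/
def pbMap {E₀ B₀ E B : Type} [TopologicalSpace E₀] [TopologicalSpace B₀] [TopologicalSpace E]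
    [TopologicalSpace B] (π₀ : C(E₀, B₀)) (π : C(E, B)) (h : C(B₀, B)) (hh : C(E₀, E))
    (sq : ∀ e, π (hh e) = h (π₀ e)) {j : ℕ} (σ : C(Simp j, B₀)) :
    C(PB π₀ σ, PB π (h.comp σ)) :=
  ⟨fun p => ⟨(p.1.1, hh p.1.2), by
    have hp : σ p.1.1 = π₀ p.1.2 := p.2
    show h (σ p.1.1) = π (hh p.1.2)
    rw [hp, sq]⟩, by
    refine Continuous.subtype_mk ?_ _
    exact (continuous_fst.comp continuous_subtype_val).prodMk
      (hh.continuous.comp (continuous_snd.comp continuous_subtype_val))⟩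

/-- TRCMP: comparison of fibre transfers along a map of bundles. -/
def Stmt_TRCMP : Prop := ∀ (E₀ B₀ E B : Type) [TopologicalSpace E₀] [TopologicalSpace B₀]
  [TopologicalSpace E] [TopologicalSpace B] (m : ℕ) (π₀ : C(E₀, B₀)) (π : C(E, B))
  (h : C(B₀, B)) (hh : C(E₀, E)) (sq : ∀ e, π (hh e) = h (π₀ e)) (T₀ : FibreTransfer m π₀)
  (T : FibreTransfer m π), TopFib m π →
  (∀ (σ : C(Simp 0, B₀)) (z : Chain (PB π₀ σ) (m + 1)), bd z = 0 →
    cmap (pbMap π₀ π h hh sq σ) z ∈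
      LinearMap.range (bd : Chain (PB π (h.comp σ)) (m + 2) →ₗ[F2] Chain _ (m + 1)) →
    z ∈ LinearMap.range (bd : Chain (PB π₀ σ) (m + 2) →ₗ[F2] Chain _ (m + 1))) →
  ∀ (j : ℕ) (x : HH E (m + 1 + j)), HH.map h (T.integ x) = T₀.integ (HH.map hh x)

/-- HEQ: `TopH` and homotopy equivalences. -/
def Stmt_HEQ : Prop := ∀ (X Y : Type) [TopologicalSpace X] [TopologicalSpace Y]
  (f : C(X, Y)) (g : C(Y, X)) (F : C(X × unitInterval, X)) (F' : C(Y × unitInterval, Y)),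
  (∀ x, F (x, 0) = g (f x)) → (∀ x, F (x, 1) = x) → (∀ y, F' (y, 0) = f (g y)) →
  (∀ y, F' (y, 1) = y) →
  (∀ (k : ℕ) (z : Chain X (k + 1)), bd z = 0 →
    (z ∈ LinearMap.range (bd : Chain X (k + 2) →ₗ[F2] Chain X (k + 1)) ↔
      cmap f z ∈ LinearMap.range (bd : Chain Y (k + 2) →ₗ[F2] Chain Y (k + 1)))) ∧
  (∀ m : ℕ, TopH m X → TopH m Y)

/-- FIB: the universal bundle has the property `TopFib`. -/
def Stmt_FIB : Prop := ∀ (G : Type) [Group G] [TopologicalSpace G] [IsTopologicalGroup G]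
  (X : Type) [TopologicalSpace X] [MulAction G X] [ContinuousSMul G X] (m : ℕ), TopH m X →
  (∃ z : Chain X (m + 1), bd z = 0 ∧
    z ∉ LinearMap.range (bd : Chain X (m + 2) →ₗ[F2] Chain X (m + 1))) →
  TopFib m (Borel.proj : C(Borel G X, BG G))

/-! ## The map `ℝP² → BDiff_0(M)` -/

/-- SPH: the equivariant map `S² → EG` given by an involution in `G`. -/
def Stmt_SPH : Prop := ∀ (G : Type) [Group G] [TopologicalSpace G] [IsTopologicalGroup G]
  (θ : G), θ * θ = 1 → ∃ j : C(S2, EJ G), ∀ b : S2, j (-b) = θ • j b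

/-- The data of the pull back of the universal bundle to `ℝP²`. -/
structure PullData {n : ℕ} {M : Type} [TopologicalSpace M]
    [ChartedSpace (EuclideanSpace ℝ (Fin n)) M] [IsManifold (𝓡 n) ∞ M] (ρ : CircleAct M n) where
  θ : Diff0 n M
  hθ : ∀ x : M, θ.1.fn x = ρ.half x
  j : C(S2, EJ (Diff0 n M))
  hj : ∀ b : S2, j (-b) = θ • j b
  h : C(RP2, BG (Diff0 n M))
  h_mk : ∀ b : S2, h (RP2.mk b) = BG.mk (j b)
  hh : C(Tot ρ.half ρ.half_invol, Borel (Diff0 n M) M)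
  hh_mk : ∀ (m : M) (b : S2), hh (Tot.mk _ _ (m, b)) = Borel.mk (j b, m)

/-- PDT: existence of the data. -/
def Stmt_PDT : Prop := ∀ (n : ℕ) (M : Type) [TopologicalSpace M]
  [ChartedSpace (EuclideanSpace ℝ (Fin n)) M] [IsManifold (𝓡 n) ∞ M] (ρ : CircleAct M n),
  Nonempty (PullData ρ)

/-- PUL: the pull back of a classifying map is classifying. -/
def Stmt_PUL : Prop := ∀ (n : ℕ) (M : Type) [TopologicalSpace M]
  [ChartedSpace (EuclideanSpace ℝ (Fin n)) M] [IsManifold (𝓡 n) ∞ M] (o : Orient M n)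
  (ρ : CircleAct M n) (D : PullData ρ) (f : C(Borel (Diff0 n M) M, BSO n)),
  IsUClassifying o f → IsClassifying o ρ (f.comp D.hh)

/-- TFB: the fibre of `E → ℝP²` is `M`. -/
def Stmt_TFB : Prop := ∀ (n : ℕ) (M : Type) [TopologicalSpace M] [T2Space M] [CompactSpace M]
  [ChartedSpace (EuclideanSpace ℝ (Fin n)) M] [IsManifold (𝓡 n) ∞ M] (ρ : CircleAct M n)
  (σ : C(Simp 0, RP2)) (b : S2), (∀ t, σ t = RP2.mk b) →
  ∃ φ : M ≃ₜ PB (Tot.proj ρ.half ρ.half_invol) σ,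
    ∀ m, (φ m).1 = (vtx 0, Tot.mk _ _ (m, b))

/-- TFI: the fibres over points of `ℝP²` and their images in the universal bundle. -/
def Stmt_TFI : Prop := ∀ (n : ℕ) (M : Type) [TopologicalSpace M] [T2Space M] [CompactSpace M]
  [ChartedSpace (EuclideanSpace ℝ (Fin n)) M] [IsManifold (𝓡 n) ∞ M] (ρ : CircleAct M n)
  (D : PullData ρ), ∃ sq : ∀ e, (Borel.proj : C(Borel (Diff0 n M) M, BG (Diff0 n M))) (D.hh e) =
      D.h (Tot.proj ρ.half ρ.half_invol e),
  ∀ (σ : C(Simp 0, RP2)) (k : ℕ) (z : Chain (PB (Tot.proj ρ.half ρ.half_invol) σ) (k + 1)),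
    bd z = 0 → cmap (pbMap _ _ D.h D.hh sq σ) z ∈
      LinearMap.range (bd : Chain (PB Borel.proj (D.h.comp σ)) (k + 2) →ₗ[F2] Chain _ (k + 1)) →
    z ∈ LinearMap.range (bd : Chain (PB (Tot.proj ρ.half ρ.half_invol) σ) (k + 2) →ₗ[F2] _)

/-- LIT: the assembly. -/
def Stmt_LIT : Prop := Goal → Goal2

end Lit
end TC
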