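import Pool.Agent.TC.Lit.Basic2
import Pool.Agent.TC.Lit.Stmts2

/-!
# Block LIT, module LIFT: singular simplices of `BG` lift to `EG`
-/

set_option autoImplicit false
set_option linter.unusedSectionVars false

open scoped Topology

noncomputable section

namespace TC
namespace Lit

namespace MLIFT

variable {G : Type} [Group G] [TopologicalSpace G]

/-- `F` lifts on the box `[a, b]`. -/
def L {n : ℕ} (F : C(Fin n → ℝ, BG G)) (a b : Fin n → ℝ) : Prop :=
  ∃ s : C(Set.Icc a b, EJ G), ∀ x, BG.mk (s x) = F x.1

theorem L_of_section {n : ℕ} (F : C(Fin n → ℝ, BG G)) (a b : Fin n → ℝ) (U : Set (BG G))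
    (s : BG G → EJ G) (hs : ContinuousOn s U) (hsU : ∀ u ∈ U, BG.mk (s u) = u)
    (h : ∀ x ∈ Set.Icc a b, F x ∈ U) : L F a b := by
  refine ⟨⟨fun x => s (F x.1), ?_⟩, fun x => hsU _ (h x.1 x.2)⟩
  exact hs.comp_continuous (F.continuous.comp continuous_subtype_val) (fun x => h x.1 x.2)

/-- Gluing along a common face. -/
theorem glue [IsTopologicalGroup G] (hEJA : Stmt_EJA) (hTRS : Stmt_TRS) {n : ℕ}
    (F : C(Fin n → ℝ, BG G)) (a b : Fin n → ℝ) (k : Fin n) (c : ℝ) (hac : a k ≤ c)
    (hcb : c ≤ b k) (h1 : L F a (Function.update b k c)) (h2 : L F (Function.update a k c) b) :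
    L F a b := by
  obtain ⟨s1, hs1⟩ := h1
  obtain ⟨s2, hs2⟩ := h2
  have hsm : ContinuousSMul G (EJ G) := (hEJA G).1
  -- the clamps
  have m1 : ∀ x : Set.Icc a b, Function.update x.1 k (min (x.1 k) c) ∈
      Set.Icc a (Function.update b k c) := by
    intro x
    constructor
    · intro i
      by_cases hi : i = k
      · subst hi; simp only [Function.update_self]; exact le_min (x.2.1 i) hac
      · simp only [Function.update_of_ne hi]; exact x.2.1 i
    · intro i
      by_cases hi : i = k
      · subst hi; simp only [Function.update_self]; exact min_le_right _ _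
      · simp only [Function.update_of_ne hi]; exact x.2.2 i
  have m2 : ∀ x : Set.Icc a b, Function.update x.1 k (max (x.1 k) c) ∈
      Set.Icc (Function.update a k c) b := by
    intro x
    constructor
    · intro i
      by_cases hi : i = k
      · subst hi; simp only [Function.update_self]; exact le_max_right _ _
      · simp only [Function.update_of_ne hi]; exact x.2.1 i
    · intro i
      by_cases hi : i = k
      · subst hi; simp only [Function.update_self]; exact max_le (x.2.2 i) hcb
      · simp only [Function.update_of_ne hi]; exact x.2.2 i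
  have m3 : ∀ x : Set.Icc a b, Function.update x.1 k c ∈ Set.Icc a (Function.update b k c) := by
    intro x
    constructor
    · intro i
      by_cases hi : i = k
      · subst hi; simp only [Function.update_self]; exact hac
      · simp only [Function.update_of_ne hi]; exact x.2.1 i
    · intro i
      by_cases hi : i = k
      · subst hi; simp only [Function.update_self]; exact le_rfl
      · simp only [Function.update_of_ne hi]; exact x.2.2 i
  have m4 : ∀ x : Set.Icc a b, Function.update x.1 k c ∈ Set.Icc (Function.update a k c) b := by
    intro x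
    constructor
    · intro i
      by_cases hi : i = k
      · subst hi; simp only [Function.update_self]; exact le_rfl
      · simp only [Function.update_of_ne hi]; exact x.2.1 i
    · intro i
      by_cases hi : i = k
      · subst hi; simp only [Function.update_self]; exact hcb
      · simp only [Function.update_of_ne hi]; exact x.2.2 i
  have ck : Continuous fun x : Set.Icc a b => x.1 k :=
    (continuous_apply k).comp continuous_subtype_val
  let p1 : C(Set.Icc a b, EJ G) := ⟨fun x => s1 ⟨_, m1 x⟩, s1.continuous.comp
    (Continuous.subtype_mk (continuous_subtype_val.update k (ck.min continuous_const)) _)⟩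
  let p2 : C(Set.Icc a b, EJ G) := ⟨fun x => s2 ⟨_, m2 x⟩, s2.continuous.comp
    (Continuous.subtype_mk (continuous_subtype_val.update k (ck.max continuous_const)) _)⟩
  let p3 : C(Set.Icc a b, EJ G) := ⟨fun x => s1 ⟨_, m3 x⟩, s1.continuous.comp
    (Continuous.subtype_mk (continuous_subtype_val.update k continuous_const) _)⟩
  let p4 : C(Set.Icc a b, EJ G) := ⟨fun x => s2 ⟨_, m4 x⟩, s2.continuous.comp
    (Continuous.subtype_mk (continuous_subtype_val.update k continuous_const) _)⟩
  obtain ⟨g, hg, hg2⟩ := hTRS G (Set.Icc a b) p4 p3 p4.continuous p3.continuous (by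
    intro y
    change BG.mk (s2 _) = BG.mk (s1 _)
    rw [hs1, hs2])
  have mkinv : ∀ (h : G) (x : EJ G), BG.mk (h • x) = BG.mk x :=
    fun h x => Quotient.sound ⟨h, rfl⟩
  refine ⟨⟨fun x => if x.1 k ≤ c then p1 x else g x • p2 x, ?_⟩, ?_⟩
  · refine Continuous.if_le p1.continuous (hg.smul p2.continuous) ck continuous_const ?_
    intro x hx
    have e1 : p1 x = p3 x := by
      change s1 _ = s1 _
      congr 2
      rw [hx, min_self]
    have e2 : p2 x = p4 x := by
      change s2 _ = s2 _
      congr 2
      rw [hx, max_self]
    rw [e1, e2]
    exact hg2 x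
  · intro x
    change BG.mk (if x.1 k ≤ c then p1 x else g x • p2 x) = F x.1
    split_ifs with hx
    · change BG.mk (s1 _) = _
      rw [hs1]
      change F (Function.update x.1 k (min (x.1 k) c)) = _
      rw [min_eq_left hx, Function.update_eq_self]
    · rw [mkinv]
      change BG.mk (s2 _) = _
      rw [hs2]
      change F (Function.update x.1 k (max (x.1 k) c)) = _
      rw [max_eq_left (not_le.1 hx).le, Function.update_eq_self]

theorem L_all [IsTopologicalGroup G] (hEJA : Stmt_EJA) (hTRS : Stmt_TRS) (hSEC : Stmt_SEC)
    {n : ℕ} (F : C(Fin n → ℝ, BG G)) : L F 0 1 := by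
  choose U hUo hUp s hs hsU using hSEC G
  obtain ⟨δ, hδ, hleb⟩ := lebesgue_number_lemma_of_metric (s := Set.Icc (0 : Fin n → ℝ) 1)
    (c := fun p : BG G => F ⁻¹' (U p)) isCompact_Icc (fun p => (hUo p).preimage F.continuous)
    (fun x _ => Set.mem_iUnion.2 ⟨F x, hUp (F x)⟩)
  have key : ∀ k : ℕ, ∀ a b : Fin n → ℝ, 0 ≤ a → a ≤ b → b ≤ 1 →
      (∀ i : Fin n, k ≤ i.1 → b i - a i < δ) → L F a b := by
    intro k
    induction k with
    | zero =>
      intro a b ha hab hb hd
      obtain ⟨p, hp⟩ := hleb a ⟨ha, hab.trans hb⟩
      refine L_of_section F a b (U p) (s p) (hs p) (hsU p) ?_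
      intro x hx
      apply hp
      rw [Metric.mem_ball, dist_pi_lt_iff hδ]
      intro i
      rw [Real.dist_eq, abs_of_nonneg (by linarith [hx.1 i])]
      linarith [hx.2 i, hd i (Nat.zero_le _)]
    | succ k ih =>
      by_cases hk : k < n
      swap
      · intro a b ha hab hb hd
        refine ih a b ha hab hb ?_
        intro i hi
        exact absurd i.2 (by omega)
      have step : ∀ m : ℕ, ∀ a b : Fin n → ℝ, 0 ≤ a → a ≤ b → b ≤ 1 →
          (∀ i : Fin n, k + 1 ≤ i.1 → b i - a i < δ) → b ⟨k, hk⟩ - a ⟨k, hk⟩ ≤ m * (δ / 2) →
          L F a b := by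
        intro m
        induction m with
        | zero =>
          intro a b ha hab hb hd hm
          refine ih a b ha hab hb ?_
          intro i hi
          rcases Nat.eq_or_lt_of_le hi with h | h
          · have : i = ⟨k, hk⟩ := Fin.ext h.symm
            rw [this]
            simp at hm
            linarith
          · exact hd i h
        | succ m ihm =>
          intro a b ha hab hb hd hm
          by_cases hlt : b ⟨k, hk⟩ - a ⟨k, hk⟩ < δ
          · refine ih a b ha hab hb ?_
            intro i hi
            rcases Nat.eq_or_lt_of_le hi with h | h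
            · have : i = ⟨k, hk⟩ := Fin.ext h.symm
              rw [this]
              exact hlt
            · exact hd i h
          · push Not at hlt
            have h1 : a ⟨k, hk⟩ ≤ b ⟨k, hk⟩ - δ / 2 := by linarith
            have h2 : b ⟨k, hk⟩ - δ / 2 ≤ b ⟨k, hk⟩ := by linarith
            refine glue hEJA hTRS F a b ⟨k, hk⟩ (b ⟨k, hk⟩ - δ / 2) h1 h2 ?_ ?_
            · refine ihm a _ ha ?_ ?_ ?_ ?_
              · intro i
                by_cases hi : i = ⟨k, hk⟩
                · subst hi; simp only [Function.update_self]; exact h1
                · simp only [Function.update_of_ne hi]; exact hab i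
              · intro i
                by_cases hi : i = ⟨k, hk⟩
                · subst hi; simp only [Function.update_self]; exact h2.trans (hb _)
                · simp only [Function.update_of_ne hi]; exact hb i
              · intro i hi
                have : i ≠ ⟨k, hk⟩ := by
                  rintro rfl
                  simp at hi
                simp only [Function.update_of_ne this]
                exact hd i hi
              · simp only [Function.update_self]
                push_cast at hm
                linarith
            · refine ih _ b ?_ ?_ hb ?_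
              · intro i
                by_cases hi : i = ⟨k, hk⟩
                · subst hi; simp only [Function.update_self]; exact (ha _).trans h1
                · simp only [Function.update_of_ne hi]; exact ha i
              · intro i
                by_cases hi : i = ⟨k, hk⟩
                · subst hi; simp only [Function.update_self]; exact h2
                · simp only [Function.update_of_ne hi]; exact hab i
              · intro i hi
                rcases Nat.eq_or_lt_of_le hi with h | h
                · have : i = ⟨k, hk⟩ := Fin.ext h.symm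
                  rw [this]
                  simp only [Function.update_self]
                  linarith
                · have : i ≠ ⟨k, hk⟩ := by
                    rintro rfl
                    simp at h
                  simp only [Function.update_of_ne this]
                  exact hd i h
      intro a b ha hab hb hd
      obtain ⟨m, hm⟩ := exists_nat_ge (1 / (δ / 2))
      refine step m a b ha hab hb hd ?_
      have h3 : (1 : ℝ) ≤ m * (δ / 2) := by
        rw [div_le_iff₀ (by positivity)] at hm
        exact hm
      have h4 := ha ⟨k, hk⟩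
      have h5 := hb ⟨k, hk⟩
      simp only [Pi.zero_apply, Pi.one_apply] at h4 h5
      linarith
  exact key n 0 1 le_rfl (fun i => zero_le_one) le_rfl (fun i hi => absurd i.2 (by omega))

/-- A retraction of `ℝ^(j+1)` to the standard simplex. -/
def retr (j : ℕ) : C(Fin (j + 1) → ℝ, Simp j) where
  toFun x := ⟨fun i => (max (x i) 0 + max (1 - ∑ l, max (x l) 0) 0 / (j + 1)) /
      (∑ l, max (x l) 0 + max (1 - ∑ l, max (x l) 0) 0), by
    have hs : (0 : ℝ) ≤ ∑ l, max (x l) 0 := Finset.sum_nonneg fun _ _ => le_max_right _ _
    have hpos : 0 < ∑ l, max (x l) 0 + max (1 - ∑ l, max (x l) 0) 0 := by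
      have := le_max_left (1 - ∑ l, max (x l) 0) 0
      linarith
    constructor
    · intro i
      have h1 : (0 : ℝ) ≤ max (x i) 0 := le_max_right _ _
      have h2 : (0 : ℝ) ≤ max (1 - ∑ l, max (x l) 0) 0 := le_max_right _ _
      positivity
    · rw [← Finset.sum_div, Finset.sum_add_distrib, Finset.sum_const, Finset.card_univ,
        Fintype.card_fin, nsmul_eq_mul]
      rw [div_eq_one_iff_eq hpos.ne']
      congr 1
      push_cast
      field_simp⟩
  continuous_toFun := by
    refine Continuous.subtype_mk ?_ _
    refine continuous_pi fun i => ?_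
    have hc : Continuous fun x : Fin (j + 1) → ℝ => ∑ l, max (x l) 0 :=
      continuous_finsetSum _ fun l _ => (continuous_apply l).max continuous_const
    refine Continuous.div ?_ ?_ ?_
    · exact ((continuous_apply i).max continuous_const).add
        (((continuous_const.sub hc).max continuous_const).div_const _)
    · exact hc.add ((continuous_const.sub hc).max continuous_const)
    · intro x
      have := le_max_left (1 - ∑ l, max (x l) 0) 0
      intro h0
      linarith

theorem retr_apply {j : ℕ} (t : Simp j) : retr j t.1 = t := by
  apply Subtype.ext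
  funext i
  have h1 : ∀ l, max (t.1 l) 0 = t.1 l := fun l => max_eq_left (t.2.1 l)
  have h2 : ∑ l, t.1 l = 1 := t.2.2
  change (max (t.1 i) 0 + max (1 - ∑ l, max (t.1 l) 0) 0 / (j + 1)) /
      (∑ l, max (t.1 l) 0 + max (1 - ∑ l, max (t.1 l) 0) 0) = t.1 i
  simp [h1, h2]

end MLIFT

open MLIFT in
theorem LIFT (hEJA : Stmt_EJA) (hTRS : Stmt_TRS) (hSEC : Stmt_SEC) : Stmt_LIFT := by
  intro G _ _ _ j σ
  obtain ⟨s, hs⟩ := L_all hEJA hTRS hSEC (σ.comp (retr j))
  have hmem : ∀ t : Simp j, t.1 ∈ Set.Icc (0 : Fin (j + 1) → ℝ) 1 := by
    intro t
    refine ⟨fun i => t.2.1 i, fun i => ?_⟩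
    have h := Finset.single_le_sum (f := t.1) (fun l _ => t.2.1 l) (Finset.mem_univ i)
    rw [t.2.2] at h
    exact h
  refine ⟨⟨fun t => s ⟨t.1, hmem t⟩, s.continuous.comp
    (Continuous.subtype_mk continuous_subtype_val _)⟩, fun t => ?_⟩
  change BG.mk (s _) = _
  rw [hs]
  change σ (retr j t.1) = σ t
  rw [retr_apply]

end Lit
end TC
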