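import Pool.Agent.TC.Lit.Basic2

/-!
# LINE: relative cycles along a line (block LIT)
-/

set_option autoImplicit false
set_option linter.unusedSectionVars false

noncomputable section

namespace TC
namespace Lit
namespace MLINE

/-- The inclusion of the hyperplane of height `h`. -/
def inc (n : ℕ) (h : ℝ) : C(Fin n → ℝ, Fin (n + 1) → ℝ) :=
  ⟨fun u => Fin.snoc (α := fun _ => ℝ) u h, by
    apply Continuous.finSnoc
    · exact continuous_id
    · exact continuous_const⟩

theorem prN_inc (n : ℕ) (h : ℝ) (u : Fin n → ℝ) : prN n (inc n h u) = u := by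
  funext i
  show Fin.snoc (α := fun _ => ℝ) u h i.castSucc = u i
  rw [Fin.snoc_castSucc]

/-- The linear homotopy in the last coordinate. -/
def hom (n : ℕ) (h : ℝ) : C((Fin (n + 1) → ℝ) × unitInterval, Fin (n + 1) → ℝ) :=
  ⟨fun p => Fin.snoc (α := fun _ => ℝ) (prN n p.1)
      ((1 - (p.2 : ℝ)) * p.1 (Fin.last n) + (p.2 : ℝ) * h), by
    apply Continuous.finSnoc
    · exact (prN n).continuous.comp continuous_fst
    · fun_prop⟩

theorem prN_hom (n : ℕ) (h : ℝ) (p : (Fin (n + 1) → ℝ) × unitInterval) :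
    prN n (hom n h p) = prN n p.1 := by
  funext i
  show Fin.snoc (α := fun _ => ℝ) (prN n p.1) _ i.castSucc = prN n p.1 i
  rw [Fin.snoc_castSucc]

theorem hom_zero (n : ℕ) (h : ℝ) (y : Fin (n + 1) → ℝ) : hom n h (y, 0) = y := by
  funext i
  refine Fin.lastCases ?_ (fun j => ?_) i
  · show Fin.snoc (α := fun _ => ℝ) (prN n y) _ (Fin.last n) = _
    rw [Fin.snoc_last]
    simp
  · show Fin.snoc (α := fun _ => ℝ) (prN n y) _ j.castSucc = _
    rw [Fin.snoc_castSucc]
    rfl

theorem hom_one (n : ℕ) (h : ℝ) (y : Fin (n + 1) → ℝ) :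
    hom n h (y, 1) = (inc n h).comp (prN n) y := by
  show Fin.snoc (α := fun _ => ℝ) (prN n y) _ = Fin.snoc (α := fun _ => ℝ) (prN n y) h
  congr 1
  simp

end MLINE

/-- LINE. -/
theorem LINE (hPRISM : Stmt_PRISM) : Stmt_LINE := by
  intro n x k a ha
  refine ⟨ha.cmap fun y hy h => hy h, fun h => ?_⟩
  have h1 : RB (lineN x) (cmap (MLINE.inc n (x (Fin.last n))) (cmap (prN n) a)) := by
    refine h.cmap fun u hu hu' => hu ?_
    have : prN n (MLINE.inc n (x (Fin.last n)) u) = prN n x := hu'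
    rw [MLINE.prN_inc] at this
    exact this
  rw [cmap_comp] at h1
  have h2 : RB (lineN x) (cmap (ContinuousMap.id _) a +
      cmap ((MLINE.inc n (x (Fin.last n))).comp (prN n)) a) := by
    refine prism_rel hPRISM (MLINE.hom n (x (Fin.last n))) _ _
      (fun y => MLINE.hom_zero n _ y) (fun y => MLINE.hom_one n _ y) (lineN x) ?_ a ha
    intro y hy t hyt
    apply hy
    have : prN n (MLINE.hom n (x (Fin.last n)) (y, t)) = prN n x := hyt
    rw [MLINE.prN_hom] at this
    exact this
  rw [cmap_id] at h2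
  exact (RB.congr h2).2 h1

end Lit
end TC
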