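import Pool.Agent.TC.Lit.Basic2

/-!
# Block LIT: the assembly `TC.Goal → TC.Goal2`
-/

set_option autoImplicit false
set_option linter.unusedSectionVars false

open scoped Manifold ContDiff Topology

noncomputable section

namespace TC
namespace Lit
namespace MLIT

theorem map_comp {X Y Z : Type} [TopologicalSpace X] [TopologicalSpace Y] [TopologicalSpace Z]
    {k : ℕ} (f : C(X, Y)) (g : C(Y, Z)) (c : HH Z k) :
    HH.map f (HH.map g c) = HH.map (g.comp f) c := by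
  induction c using Submodule.Quotient.induction_on with
  | _ c => rfl

theorem map_id {X : Type} [TopologicalSpace X] {k : ℕ} (c : HH X k) :
    HH.map (ContinuousMap.id X) c = c := by
  induction c using Submodule.Quotient.induction_on with
  | _ c => rfl

/-- Transport of non-bounding cycles along a homeomorphism. -/
theorem homeo_range {X Y : Type} [TopologicalSpace X] [TopologicalSpace Y] (φ : X ≃ₜ Y) {k : ℕ}
    (z : Chain Y k) (h : cmap (φ.symm : C(Y, X)) z ∈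
      LinearMap.range (bd : Chain X (k + 1) →ₗ[F2] Chain X k)) :
    z ∈ LinearMap.range (bd : Chain Y (k + 1) →ₗ[F2] Chain Y k) := by
  obtain ⟨w, hw⟩ := h
  refine ⟨cmap (φ : C(X, Y)) w, ?_⟩
  rw [bd_cmap, hw, cmap_comp]
  have : (φ : C(X, Y)).comp (φ.symm : C(Y, X)) = ContinuousMap.id Y := by
    ext y
    simp
  rw [this, cmap_id]

theorem exists_S2 : Nonempty S2 := by
  have : Nontrivial (EuclideanSpace ℝ (Fin 3)) := inferInstance
  exact ((NormedSpace.sphere_nonempty (x := (0 : EuclideanSpace ℝ (Fin 3))) (r := 1)).2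
    zero_le_one).to_subtype

end MLIT

open MLIT in
theorem LIT (hTOPH : Stmt_TOPH) (hTREX : Stmt_TREX) (hTRCMP : Stmt_TRCMP) (hFIB : Stmt_FIB)
    (hUGE : Stmt_UGE) (hUCL : Stmt_UCL) (hUUQ : Stmt_UUQ) (hPDT : Stmt_PDT) (hPUL : Stmt_PUL)
    (hTFB : Stmt_TFB) (hTFI : Stmt_TFI) (hDEV : Stmt_DEV) : Stmt_LIT := by
  rintro ⟨M, i1, i2, i3, i4, i5, i6, o, ρ, hasph, c, T₀, ⟨f₀, hf₀⟩, hall⟩
  have hsm : ContinuousSMul (Diff0 7 M) M := by
    refine ⟨?_⟩
    have h := (hDEV 7 M).1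
    exact h.comp ((continuous_subtype_val.comp continuous_fst).prodMk continuous_snd)
  -- the fundamental cycle of `M`
  obtain ⟨b₀⟩ := exists_S2
  let σ₀ : C(Simp 0, RP2) := ContinuousMap.const _ (RP2.mk b₀)
  obtain ⟨φ₀, -⟩ := hTFB 7 M ρ σ₀ b₀ (fun _ => rfl)
  have hTop : TopH 6 M := hTOPH 6 M
  have hfund : ∃ z : Chain M (6 + 1), bd z = 0 ∧
      z ∉ LinearMap.range (bd : Chain M (6 + 2) →ₗ[F2] Chain M (6 + 1)) := by
    let z₀ : Chain (PB (Tot.proj ρ.half ρ.half_invol) σ₀) (6 + 1) := T₀.chain (j := 0) σ₀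
    have hz₀ : bd z₀ = 0 := T₀.bd_zero σ₀
    refine ⟨cmap (φ₀.symm : C(_, M)) z₀, ?_, ?_⟩
    · rw [bd_cmap, hz₀, map_zero]
    · intro h
      exact T₀.fund σ₀ (homeo_range φ₀ z₀ h)
  have hfib : TopFib 6 (Borel.proj : C(Borel (Diff0 7 M) M, BG (Diff0 7 M))) :=
    hFIB (Diff0 7 M) M 6 hTop hfund
  obtain ⟨T⟩ := hTREX _ _ 6 (Borel.proj : C(Borel (Diff0 7 M) M, BG (Diff0 7 M))) hfib
  obtain ⟨Φ⟩ := hUGE 7 M
  obtain ⟨f, hf⟩ := hUCL 7 M o Φ
  have hfc : IsUClassifying o f := ⟨Φ, fun x m t ht => hf x m t ht⟩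
  obtain ⟨D⟩ := hPDT 7 M ρ
  obtain ⟨sq, hsq⟩ := hTFI 7 M ρ D
  refine ⟨M, i1, i2, i3, i4, i5, i6, o, hasph, c, T.integ (j := 2) (HH.map f c), ?_, ?_⟩
  · intro κ'
    constructor
    · rintro ⟨f', T', hf', rfl⟩
      have e1 : HH.map f' c = HH.map f c := hUUQ 7 M o f' f hf' hfc 9 c
      rw [e1]
      have e2 := hTRCMP _ _ _ _ 6 (Borel.proj : C(Borel (Diff0 7 M) M, BG (Diff0 7 M)))
        (Borel.proj : C(Borel (Diff0 7 M) M, BG (Diff0 7 M))) (ContinuousMap.id _)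
        (ContinuousMap.id _) (fun _ => rfl) T' T hfib (by
          intro σ z _ h
          obtain ⟨w, hw⟩ := h
          exact ⟨w, hw.trans (cmap_id z)⟩) 2 (HH.map f c)
      rw [map_id, map_id] at e2
      exact e2.symm
    · rintro rfl
      exact ⟨f, T, hfc, rfl⟩
  · intro h0
    have e3 := hTRCMP _ _ _ _ 6 (Tot.proj ρ.half ρ.half_invol)
      (Borel.proj : C(Borel (Diff0 7 M) M, BG (Diff0 7 M))) D.h D.hh sq T₀ T hfib
      (fun σ z hz h => hsq σ 6 z hz h) 2 (HH.map f c)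
    rw [h0, map_zero, map_comp] at e3
    exact hall _ (hPUL 7 M o ρ D f hfc) e3.symm

end Lit
end TC
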