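import Pool.Agent.TC.Lit.Basic2

/-!
# Block LIT, module MFD: compact manifolds
-/

set_option autoImplicit false
set_option linter.unusedSectionVars false

open scoped Topology

noncomputable section

namespace TC
namespace Lit

namespace MMFD

theorem chainIn_univ' {X : Type} [TopologicalSpace X] {A : Set X} (hA : A = Set.univ) {k : ℕ}
    (z : Chain X k) : ChainIn A z := by
  intro σ _
  rw [hA]
  exact Set.subset_univ _

theorem rb_empty {X : Type} [TopologicalSpace X] {k : ℕ} (z : Chain X k) : RB (∅ : Set X) z :=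
  ⟨0, chainIn_univ' Set.compl_empty _⟩

end MMFD

open MMFD in
theorem MFD (hMV : Stmt_MV) (hCHT : Stmt_CHT) : Stmt_MFD := by
  intro n M _ _ _ _
  have hloc : ∀ x : M, ∃ K : Set M, IsCompact K ∧ x ∈ interior K ∧
      K ⊆ (chartAt (EuclideanSpace ℝ (Fin n)) x).source := by
    intro x
    exact exists_compact_subset (chartAt (EuclideanSpace ℝ (Fin n)) x).open_source
      (mem_chart_source _ x)
  choose K hK hxK hKs using hloc
  obtain ⟨t, ht⟩ := CompactSpace.elim_nhds_subcover (fun x => interior (K x))
    (fun x => isOpen_interior.mem_nhds (hxK x))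
  have key : ∀ s : Finset M, IsCompact (⋃ x ∈ s, K x) ∧ Van n (⋃ x ∈ s, K x) ∧
      Det n (⋃ x ∈ s, K x) := by
    intro s
    classical
    induction s using Finset.induction_on with
    | empty =>
      simp only [Finset.notMem_empty, Set.iUnion_of_empty, Set.iUnion_empty]
      exact ⟨isCompact_empty, fun k _ z _ => rb_empty z, fun z _ _ => rb_empty z⟩
    | insert a s _ ih =>
      have e : (⋃ x ∈ insert a s, K x) = (⋃ x ∈ s, K x) ∪ K a := by
        rw [Finset.set_biUnion_insert, Set.union_comm]
      rw [e]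
      obtain ⟨h1, h2, h3⟩ := ih
      have hc := hCHT n M (chartAt (EuclideanSpace ℝ (Fin n)) a)
      have hint := hc ((⋃ x ∈ s, K x) ∩ K a) (h1.inter (hK a))
        (Set.inter_subset_right.trans (hKs a))
      have hKa := hc (K a) (hK a) (hKs a)
      have hmv := hMV M (⋃ x ∈ s, K x) (K a) h1.isClosed (hK a).isClosed n hint.1
      exact ⟨h1.union (hK a), hmv.1 h2 hKa.1, hmv.2 h3 hKa.2⟩
  have hu : (⋃ x ∈ t, K x) = Set.univ := by
    rw [Set.eq_univ_iff_forall]
    intro y
    have hy : y ∈ ⋃ x ∈ t, interior (K x) := by rw [ht]; exact Set.mem_univ y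
    simp only [Set.mem_iUnion] at hy ⊢
    obtain ⟨x, hx, hyx⟩ := hy
    exact ⟨x, hx, interior_subset hyx⟩
  have := key t
  rw [hu] at this
  exact this.2

end Lit
end TC
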