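import Pool.Agent.TC.Lit.Basic2

/-!
# Block LIT: module MV (Mayer–Vietoris for the homology relative to a complement)
-/

set_option autoImplicit false
set_option linter.unusedSectionVars false

open scoped Topology

noncomputable section

namespace TC
namespace Lit
namespace MMV

theorem rearr {α : Type} (a b c : α →₀ F2) : a + (b + c) = a + b + c := (add_assoc a b c).symm

/-- The common step. -/
theorem step (hSPLIT : Stmt_SPLIT) {X : Type} [TopologicalSpace X] {A B : Set X}
    (hA : IsClosed A) (hB : IsClosed B) {k : ℕ} (z : Chain X k)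
    (hV : ∀ z : Chain X (k + 1), RC (A ∩ B) z → RB (A ∩ B) z)
    (hzA : RB A z) (hzB : RB B z) : RB (A ∪ B) z := by
  obtain ⟨wA, hwA⟩ := hzA
  obtain ⟨wB, hwB⟩ := hzB
  have hbd : bd (wA + wB) = (z + bd wA) + (z + bd wB) := by
    rw [map_add]
    have h : (z + bd wA) + (z + bd wB) = (z + z) + (bd wA + bd wB) := by abel
    rw [h, ch_add_self, zero_add]
  have hA' : Aᶜ ⊆ (A ∩ B)ᶜ := Set.compl_subset_compl.2 Set.inter_subset_left
  have hB' : Bᶜ ⊆ (A ∩ B)ᶜ := Set.compl_subset_compl.2 Set.inter_subset_right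
  have hrc : RC (A ∩ B) (wA + wB) := by
    show ChainIn (A ∩ B)ᶜ (bd (wA + wB))
    rw [hbd]
    exact (hwA.mono hA').add (hwB.mono hB')
  obtain ⟨v, hv⟩ := hV _ hrc
  have hbd' : bd (wA + wB + bd v) = (z + bd wA) + (z + bd wB) := by
    rw [map_add, bd_bd, add_zero, hbd]
  obtain ⟨a, b, v', ha, hb, -, hab⟩ := (hSPLIT X A B hA hB).2 k _ _ _ hv hwA hwB hbd'
  refine ⟨wA + a, ?_⟩
  have h1 : ChainIn Aᶜ (z + bd (wA + a)) := by
    rw [map_add, ← add_assoc]
    exact hwA.add ha.bd
  have h2 : bd (wA + a) = bd (wB + b) := by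
    have h3 : bd (wA + wB + bd v) = bd (a + b + bd v') := by rw [hab]
    rw [map_add, map_add, bd_bd, add_zero, map_add, map_add, bd_bd, add_zero] at h3
    rw [map_add, map_add]
    -- bd wA + bd wB = bd a + bd b
    have h4 : bd wA + bd a = (bd wA + bd wB) + (bd a + bd wB) := by
      have : (bd wA + bd wB) + (bd a + bd wB) = (bd wB + bd wB) + (bd wA + bd a) := by abel
      rw [this, ch_add_self, zero_add]
    rw [h4, h3]
    have : bd a + bd b + (bd a + bd wB) = (bd a + bd a) + (bd wB + bd b) := by abel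
    rw [this, ch_add_self, zero_add]
  have h5 : ChainIn Bᶜ (z + bd (wA + a)) := by
    rw [h2, map_add, ← add_assoc]
    exact hwB.add hb.bd
  have h6 := h1.inter h5
  rwa [← Set.compl_union] at h6

end MMV

theorem MV (hSPLIT : Stmt_SPLIT) : Stmt_MV := by
  intro X _ A B hA hB n hAB
  constructor
  · intro hvA hvB k hk z hz
    exact MMV.step hSPLIT hA hB z (fun w hw => hAB (k + 1) (by omega) w hw)
      (hvA k hk z (RC.mono hz Set.subset_union_left))
      (hvB k hk z (RC.mono hz Set.subset_union_right))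
  · intro hdA hdB z hz hx
    exact MMV.step hSPLIT hA hB z (fun w hw => hAB n le_rfl w hw)
      (hdA z (RC.mono hz Set.subset_union_left) fun x hxA => hx x (Or.inl hxA))
      (hdB z (RC.mono hz Set.subset_union_right) fun x hxB => hx x (Or.inr hxB))

end Lit
end TC
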