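import Pool.Agent.TC.Lit.Basic2

/-!
# OPN: the quotient maps `EG → BG` and `EG × X → EG ×_G X` are open quotient maps
-/

set_option autoImplicit false
set_option linter.unusedSectionVars false

open scoped Manifold ContDiff Topology

noncomputable section

namespace TC
namespace Lit

/-- The quotient maps are open. -/
theorem OPN (hEJA : Stmt_EJA) : Stmt_OPN := by
  intro G _ _ _ X _ _ _
  haveI : ContinuousSMul G (EJ G) := (hEJA G).1
  refine ⟨?_, ?_, ?_, ?_⟩
  · exact (MulAction.isOpenQuotientMap_quotientMk (Γ := G) (T := EJ G))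
  · exact (MulAction.isOpenQuotientMap_quotientMk (Γ := G) (T := EJ G × X))
  · intro p q
    refine Quotient.eq.trans ?_
    rw [MulAction.orbitRel_apply, MulAction.mem_orbit_iff]
    exact ⟨fun ⟨g, h⟩ => ⟨g, h.symm⟩, fun ⟨g, h⟩ => ⟨g, h.symm⟩⟩
  · intro x y
    refine Quotient.eq.trans ?_
    rw [MulAction.orbitRel_apply, MulAction.mem_orbit_iff]
    exact ⟨fun ⟨g, h⟩ => ⟨g, h.symm⟩, fun ⟨g, h⟩ => ⟨g, h.symm⟩⟩

end Lit
end TC
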