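import Pool.Agent.TC.Lit.Basic2

/-!
# Module ORI: diffeomorphisms in the identity component preserve the orientation
-/

set_option autoImplicit false
set_option linter.unusedSectionVars false

open scoped Manifold ContDiff Topology

noncomputable section

namespace TC
namespace Lit

namespace MORI

variable {n : ℕ} {M : Type} [TopologicalSpace M] [ChartedSpace (EuclideanSpace ℝ (Fin n)) M]
  [IsManifold (𝓡 n) ∞ M]

/-- The tangent map of a diffeomorphism at a point, as a linear isomorphism. -/
def eqv (g : DiffM n M) (m : M) :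
    TangentSpace (𝓡 n) m ≃ₗ[ℝ] TangentSpace (𝓡 n) (g.fn m) :=
  (Diffeomorph.mfderivToContinuousLinearEquiv (I := 𝓡 n) (J := 𝓡 n) (n := ∞) g
    (by simp) m).toLinearEquiv

theorem tangentMap_eq (g : DiffM n M) (m : M) (v : TangentSpace (𝓡 n) m) :
    tangentMap (𝓡 n) (𝓡 n) g.fn ⟨m, v⟩ = ⟨g.fn m, eqv g m v⟩ := rfl

/-- The image of a basis. -/
def img (g : DiffM n M) (m : M) (t : Module.Basis (Fin n) ℝ (TangentSpace (𝓡 n) m)) :
    Module.Basis (Fin n) ℝ (TangentSpace (𝓡 n) (g.fn m)) := t.map (eqv g m)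

theorem frame_eq (g : DiffM n M) (m : M)
    (t : Module.Basis (Fin n) ℝ (TangentSpace (𝓡 n) m)) :
    (fun i => tangentMap (𝓡 n) (𝓡 n) g.fn ⟨m, t i⟩) =
      fun i => (⟨g.fn m, img g m t i⟩ : TangentBundle (𝓡 n) M) := by
  funext i
  rw [tangentMap_eq]
  unfold img
  rw [Module.Basis.map_apply]

theorem continuous_frame (h : P_DEV n M) (m : M)
    (t : Module.Basis (Fin n) ℝ (TangentSpace (𝓡 n) m)) :
    Continuous (fun g : DiffM n M => fun i => tangentMap (𝓡 n) (𝓡 n) g.fn ⟨m, t i⟩) := by
  refine continuous_pi fun i => ?_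
  exact h.2.comp (continuous_id.prodMk continuous_const)

end MORI

open MORI

/-- ORI. -/
theorem ORI (hDEV : Stmt_DEV) : Stmt_ORI := by
  intro n M _ _ _ o g hg m t ht
  obtain ⟨U, hU, hUo⟩ := o.isOpen
  have key : ∀ (g : DiffM n M) (t : Module.Basis (Fin n) ℝ (TangentSpace (𝓡 n) m)),
      (fun i => tangentMap (𝓡 n) (𝓡 n) g.fn ⟨m, t i⟩) ∈ U ↔
        (img g m t).orientation = o.or (g.fn m) := by
    intro g t
    rw [frame_eq]
    exact hUo (g.fn m) (img g m t)
  suffices hmem : (fun i => tangentMap (𝓡 n) (𝓡 n) g.fn ⟨m, t i⟩) ∈ U by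
    refine ⟨img g m t, (key g t).1 hmem, fun i => ?_⟩
    exact congrFun (frame_eq g m t) i
  have h1 : (fun i => tangentMap (𝓡 n) (𝓡 n) (1 : DiffM n M).fn ⟨m, t i⟩) ∈ U := by
    have : (fun i => tangentMap (𝓡 n) (𝓡 n) (1 : DiffM n M).fn ⟨m, t i⟩) =
        fun i => (⟨m, t i⟩ : TangentBundle (𝓡 n) M) := by
      funext i
      have h : ((1 : DiffM n M).fn : M → M) = id := rfl
      rw [h, tangentMap_id]
      rfl
    rw [this]
    exact (hUo m t).2 ht
  rcases Nat.eq_zero_or_pos n with hn | hn
  · subst hn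
    have : (fun i => tangentMap (𝓡 0) (𝓡 0) g.fn ⟨m, t i⟩) =
        (fun i => tangentMap (𝓡 0) (𝓡 0) (1 : DiffM 0 M).fn ⟨m, t i⟩) :=
      funext fun i => i.elim0
    rw [this]
    exact h1
  · set F : DiffM n M → (Fin n → TangentBundle (𝓡 n) M) :=
      fun g => fun i => tangentMap (𝓡 n) (𝓡 n) g.fn ⟨m, t i⟩ with hF
    have hFc : Continuous F := continuous_frame (hDEV n M) m t
    let i0 : Fin n := ⟨0, hn⟩
    let t2 : Module.Basis (Fin n) ℝ (TangentSpace (𝓡 n) m) :=
      t.unitsSMul (Function.update 1 i0 (-1))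
    have ht2 : t2.orientation = -t.orientation := t.orientation_neg_single i0
    have himg : ∀ g : DiffM n M, (img g m t2).orientation = -(img g m t).orientation := by
      intro g
      unfold img
      rw [Module.Basis.orientation_map, Module.Basis.orientation_map, ht2]
      exact Orientation.map_neg _ _
    have hFc2 : Continuous (fun g : DiffM n M => fun i =>
        tangentMap (𝓡 n) (𝓡 n) g.fn ⟨m, t2 i⟩) := continuous_frame (hDEV n M) m t2
    have hcl : IsClopen (F ⁻¹' U) := by
      refine ⟨⟨?_⟩, hU.preimage hFc⟩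
      have : (F ⁻¹' U)ᶜ = (fun g : DiffM n M => fun i =>
          tangentMap (𝓡 n) (𝓡 n) g.fn ⟨m, t2 i⟩) ⁻¹' U := by
        ext g
        rw [Set.mem_compl_iff, Set.mem_preimage, Set.mem_preimage, key g t2, himg g]
        have hk : F g ∈ U ↔ (img g m t).orientation = o.or (g.fn m) := key g t
        rw [hk]
        constructor
        · intro h
          rcases Module.Basis.orientation_eq_or_eq_neg (img g m t) (o.or (g.fn m)) with h' | h'
          · exact absurd h'.symm h
          · exact h'.symm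
        · intro h h'
          rw [← h'] at h
          exact Module.Ray.ne_neg_self _ h.symm
      rw [this]
      exact hU.preimage hFc2
    exact hcl.connectedComponent_subset (x := (1 : DiffM n M)) h1 hg

end Lit
end TC
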