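import Pool.Agent.TC.Lit.Basic2

/-!
# Block LIT, module PDT: the data of the pull back of the universal bundle
-/

set_option autoImplicit false
set_option linter.unusedSectionVars false

open scoped Manifold ContDiff Topology

noncomputable section

namespace TC
namespace Lit

namespace MPDT

theorem bg_smul {G : Type} [Group G] (g : G) (x : EJ G) : BG.mk (g • x) = BG.mk x :=
  Quotient.sound ⟨g, rfl⟩

theorem borel_smul {G X : Type} [Group G] [MulAction G X] (g : G) (x : EJ G) (m : X) :
    Borel.mk (g • x, g • m) = Borel.mk (x, m) :=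
  Quotient.sound ⟨g, rfl⟩

theorem continuous_bg {G : Type} [Group G] [TopologicalSpace G] :
    Continuous (BG.mk : EJ G → BG G) := continuous_quotient_mk'

theorem continuous_borel {G X : Type} [Group G] [TopologicalSpace G] [TopologicalSpace X]
    [MulAction G X] : Continuous (Borel.mk : EJ G × X → Borel G X) := continuous_quotient_mk'

end MPDT

open MPDT

theorem PDT (hHALF : Stmt_HALF) (hSPH : Stmt_SPH) : Stmt_PDT := by
  intro n M _ _ _ ρ
  obtain ⟨θ, hθ2, hθ⟩ := hHALF n M ρ
  obtain ⟨j, hj⟩ := hSPH (Diff0 n M) θ hθ2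
  have hs : ∀ x : M, θ • x = ρ.half x := hθ
  refine ⟨{
    θ := θ
    hθ := hθ
    j := j
    hj := hj
    h := ⟨Quotient.lift (fun b : S2 => BG.mk (j b)) ?_, ?_⟩
    h_mk := fun b => rfl
    hh := ⟨Quotient.lift (fun p : M × S2 => Borel.mk (j p.2, p.1)) ?_, ?_⟩
    hh_mk := fun m b => rfl }⟩
  · rintro b c (h | h)
    · rw [h]
    · rw [h, hj, bg_smul]
  · exact Continuous.quotient_lift (continuous_bg.comp j.continuous) _
  · rintro p q (h | ⟨h1, h2⟩)
    · rw [h]
    · rw [h1, h2, hj, ← hs, borel_smul]
  · exact Continuous.quotient_lift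
      (continuous_borel.comp ((j.continuous.comp continuous_snd).prodMk continuous_fst)) _

end Lit
end TC
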