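import Pool.Agent.TC.Lit.Basic2

/-!
# Module LIT_PRISM: prism operators
-/

set_option autoImplicit false
set_option linter.unusedSectionVars false

open scoped Manifold ContDiff Topology

noncomputable section

namespace TC
namespace Lit

namespace MPRISM

section comb

variable {k : ℕ}

theorem sA_val (j : Fin (k + 1)) (l : Fin k) :
    ((j.succAbove l : Fin (k + 1)) : ℕ) = if (l : ℕ) < j then (l : ℕ) else l + 1 := by
  unfold Fin.succAbove
  by_cases h : l.castSucc < j
  · rw [if_pos h, if_pos (by simpa [Fin.lt_def] using h)]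
    rfl
  · rw [if_neg h, if_neg (by simpa [Fin.lt_def] using h)]
    rfl

theorem pA_val (i : Fin k) (l : Fin (k + 1)) :
    ((i.predAbove l : Fin k) : ℕ) = if (i : ℕ) < l then (l : ℕ) - 1 else l := by
  unfold Fin.predAbove
  by_cases h : i.castSucc < l
  · rw [dif_pos h, if_pos (by simpa [Fin.lt_def] using h)]
    rfl
  · rw [dif_neg h, if_neg (by simpa [Fin.lt_def] using h)]
    rfl

variable {V : Type} [AddCommGroup V] (hV : ∀ v : V, v + v = 0)
  (h : (Fin (k + 1) → Fin (k + 1)) → (Fin (k + 1) → Bool) → V)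

include hV in
theorem telescope (a : ℕ → V) (n : ℕ) :
    ∑ i ∈ Finset.range n, (a i + a (i + 1)) = a 0 + a n := by
  induction n with
  | zero => rw [Finset.range_zero, Finset.sum_empty, hV]
  | succ n ih =>
    rw [Finset.sum_range_succ, ih]
    have : a 0 + a n + (a n + a (n + 1)) = (a n + a n) + (a 0 + a (n + 1)) := by abel
    rw [this, hV, zero_add]

/-- The terms of the boundary of the prism. -/
def HH' (i : Fin (k + 1)) (j : Fin (k + 2)) : V :=
  h (i.predAbove ∘ j.succAbove) (fun l => decide (i.castSucc < j.succAbove l))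

/-- The terms of the prism of the boundary. -/
def GG (l : Fin (k + 1)) (i : Fin k) : V :=
  h (l.succAbove ∘ i.predAbove) (fun x => decide (i.castSucc < x))

theorem term_cast (i : Fin (k + 1)) :
    HH' h i i.castSucc = h id (fun l => decide ((i : ℕ) ≤ l)) := by
  unfold HH'
  congr 1
  · funext l
    apply Fin.ext
    simp only [Function.comp_apply, pA_val, sA_val, Fin.val_castSucc, id]
    split_ifs <;> omega
  · funext l
    rw [decide_eq_decide, Fin.lt_def, sA_val]
    simp only [Fin.val_castSucc]
    split_ifs <;> omega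

theorem term_succ (i : Fin (k + 1)) :
    HH' h i i.succ = h id (fun l => decide ((i : ℕ) + 1 ≤ l)) := by
  unfold HH'
  congr 1
  · funext l
    apply Fin.ext
    simp only [Function.comp_apply, pA_val, sA_val, Fin.val_succ, id]
    split_ifs <;> omega
  · funext l
    rw [decide_eq_decide, Fin.lt_def, sA_val]
    simp only [Fin.val_castSucc, Fin.val_succ]
    split_ifs <;> omega

theorem term_other (i : Fin (k + 1)) (j : Fin (k + 2)) (l : Fin (k + 1)) (i' : Fin k)
    (hh : ((j : ℕ) < i ∧ (l : ℕ) = j ∧ (i' : ℕ) + 1 = i) ∨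
      ((i : ℕ) + 1 < j ∧ (l : ℕ) + 1 = j ∧ (i' : ℕ) = i)) :
    HH' h i j = GG h l i' := by
  unfold HH' GG
  congr 1
  · funext x
    apply Fin.ext
    simp only [Function.comp_apply, pA_val, sA_val]
    split_ifs <;> omega
  · funext x
    rw [decide_eq_decide, Fin.lt_def, Fin.lt_def, sA_val]
    simp only [Fin.val_castSucc]
    split_ifs <;> omega

include hV in
theorem main_sum : ∑ i : Fin (k + 1), ∑ j : Fin (k + 2), HH' h i j =
    h id (fun _ => true) + h id (fun _ => false) + ∑ l : Fin (k + 1), ∑ i : Fin k, GG h l i := by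
  have h1 : ∀ i : Fin (k + 1), ∑ j : Fin (k + 2), HH' h i j =
      (h id (fun l => decide ((i : ℕ) ≤ l)) + h id (fun l => decide ((i : ℕ) + 1 ≤ l))) +
      ∑ j ∈ Finset.univ.filter (fun j : Fin (k + 2) => (j : ℕ) < i ∨ (i : ℕ) + 1 < j),
        HH' h i j := by
    intro i
    rw [← term_cast h i, ← term_succ h i,
      ← Finset.sum_filter_add_sum_filter_not Finset.univ
        (fun j : Fin (k + 2) => (j : ℕ) < i ∨ (i : ℕ) + 1 < j), add_comm]
    congr 1
    have e : (Finset.univ.filter fun j : Fin (k + 2) => ¬ ((j : ℕ) < i ∨ (i : ℕ) + 1 < j)) =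
        {i.castSucc, i.succ} := by
      ext j
      simp only [Finset.mem_filter, Finset.mem_univ, true_and, Finset.mem_insert,
        Finset.mem_singleton, Fin.ext_iff, Fin.val_castSucc, Fin.val_succ]
      omega
    rw [e, Finset.sum_pair]
    intro hc
    have := congrArg Fin.val hc
    simp at this
  simp_rw [h1]
  rw [Finset.sum_add_distrib]
  congr 1
  · have e := Fin.sum_univ_eq_sum_range
      (fun i => h id (fun l : Fin (k + 1) => decide (i ≤ (l : ℕ))) +
        h id (fun l : Fin (k + 1) => decide (i + 1 ≤ (l : ℕ)))) (k + 1)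
    have e0 : (fun l : Fin (k + 1) => decide (0 ≤ (l : ℕ))) = fun _ => true := by
      funext l
      simp
    have e1 : (fun l : Fin (k + 1) => decide (k + 1 ≤ (l : ℕ))) = fun _ => false := by
      funext l
      have := l.2
      simp only [decide_eq_false_iff_not]
      omega
    rw [e, telescope hV (fun i => h id (fun l : Fin (k + 1) => decide (i ≤ (l : ℕ)))) (k + 1)]
    simp only [e0, e1]
  · rw [Finset.sum_sigma', ← Finset.sum_product' Finset.univ Finset.univ]
    refine Finset.sum_bij'
      (fun (p : Σ _ : Fin (k + 1), Fin (k + 2)) (hp : p ∈ _) =>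
        if hlt : (p.2 : ℕ) < p.1 then
          ((⟨p.2, by omega⟩ : Fin (k + 1)), (⟨p.1 - 1, by omega⟩ : Fin k))
        else ((⟨p.2 - 1, by
            have := p.2.2; omega⟩ : Fin (k + 1)), (⟨p.1, by
            simp only [Finset.mem_sigma, Finset.mem_filter, Finset.mem_univ, true_and] at hp
            have := p.2.2
            omega⟩ : Fin k)))
      (fun (p : Fin (k + 1) × Fin k) _ =>
        if (p.1 : ℕ) ≤ p.2 then
          (⟨⟨p.2 + 1, by omega⟩, ⟨p.1, by omega⟩⟩ : Σ _ : Fin (k + 1), Fin (k + 2))
        else ⟨⟨p.2, by omega⟩, ⟨p.1 + 1, by omega⟩⟩) ?_ ?_ ?_ ?_ ?_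
    · intro p _
      exact Finset.mem_product.2 ⟨Finset.mem_univ _, Finset.mem_univ _⟩
    · intro p _
      simp only [Finset.mem_sigma, Finset.mem_filter, Finset.mem_univ, true_and]
      split_ifs with hc
      · left
        simp only
        omega
      · right
        simp only
        omega
    · rintro ⟨i, j⟩ hp
      simp only [Finset.mem_sigma, Finset.mem_filter, Finset.mem_univ, true_and] at hp
      by_cases hlt : (j : ℕ) < i
      · simp only [dif_pos hlt]
        rw [if_pos (by omega)]
        simp only [Sigma.mk.injEq, heq_eq_eq, Fin.ext_iff, and_true]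
        omega
      · simp only [dif_neg hlt]
        rw [if_neg (by omega)]
        simp only [Sigma.mk.injEq, heq_eq_eq, Fin.ext_iff, true_and]
        omega
    · rintro ⟨l, i⟩ _
      by_cases hc : (l : ℕ) ≤ i
      · simp only [if_pos hc]
        rw [dif_pos (by omega)]
        simp
      · simp only [if_neg hc]
        rw [dif_neg (by omega)]
        simp
    · rintro ⟨i, j⟩ hp
      simp only [Finset.mem_sigma, Finset.mem_filter, Finset.mem_univ, true_and] at hp
      by_cases hlt : (j : ℕ) < i
      · simp only [dif_pos hlt]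
        exact term_other h i j _ _ (Or.inl ⟨hlt, rfl, by simp only; omega⟩)
      · simp only [dif_neg hlt]
        exact term_other h i j _ _ (Or.inr ⟨by omega, by simp only; omega, rfl⟩)

end comb

section simp

variable {X Y : Type} [TopologicalSpace X] [TopologicalSpace Y] {k m n : ℕ}

theorem smap_smap (θ : Fin (m + 1) → Fin (k + 1)) (η : Fin (n + 1) → Fin (m + 1)) :
    (smap θ).comp (smap η) = smap (θ ∘ η) := by
  refine ContinuousMap.ext fun t => ?_
  show stdSimplex.map _ (stdSimplex.map _ t) = stdSimplex.map _ t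
  rw [stdSimplex.map_comp_apply]

theorem smap_id : smap (id : Fin (k + 1) → Fin (k + 1)) = ContinuousMap.id (Simp k) := by
  refine ContinuousMap.ext fun t => ?_
  show stdSimplex.map id t = t
  exact stdSimplex.map_id_apply t

/-- The height of a point of the prism. -/
def ht (ε : Fin (m + 1) → Bool) (t : Simp m) : ℝ := ∑ l, if ε l then t.1 l else 0

theorem ht_nonneg (ε : Fin (m + 1) → Bool) (t : Simp m) : 0 ≤ ht ε t :=
  Finset.sum_nonneg fun l _ => by
    split_ifs
    · exact t.2.1 l
    · exact le_rfl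

theorem ht_le (ε : Fin (m + 1) → Bool) (t : Simp m) : ht ε t ≤ 1 := by
  rw [← t.2.2]
  refine Finset.sum_le_sum fun l _ => ?_
  split_ifs
  · exact le_rfl
  · exact t.2.1 l

theorem ht_smap (ε : Fin (m + 1) → Bool) (η : Fin (n + 1) → Fin (m + 1)) (t : Simp n) :
    ht ε (smap η t) = ht (ε ∘ η) t := by
  unfold ht
  have h1 : ∀ l, (smap η t).1 l = ∑ j, if η j = l then t.1 j else 0 := by
    intro l
    have : (smap η t).1 l = FunOnFinite.linearMap ℝ ℝ η t.1 l := rfl
    rw [this, FunOnFinite.linearMap_apply_apply, Finset.sum_filter]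
  simp_rw [h1]
  have h2 : ∀ l, (if ε l then ∑ j, (if η j = l then t.1 j else 0) else (0 : ℝ)) =
      ∑ j, if η j = l then (if ε l then t.1 j else 0) else 0 := by
    intro l
    split_ifs with h
    · rfl
    · simp
  simp_rw [h2]
  rw [Finset.sum_comm]
  refine Finset.sum_congr rfl fun j _ => ?_
  rw [Finset.sum_ite_eq Finset.univ (η j) (fun l => if ε l then t.1 j else 0),
    if_pos (Finset.mem_univ _)]
  rfl

/-- The height as a continuous map. -/
def htC (ε : Fin (m + 1) → Bool) : C(Simp m, unitInterval) :=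
  ⟨fun t => ⟨ht ε t, ht_nonneg ε t, ht_le ε t⟩, by
    refine Continuous.subtype_mk ?_ _
    unfold ht
    refine continuous_finsetSum _ fun l _ => ?_
    split_ifs
    · exact (continuous_apply l).comp continuous_subtype_val
    · exact continuous_const⟩

/-- The simplices of the prism. -/
def Pr (F : C(X × unitInterval, Y)) (σ : C(Simp k, X)) (θ : Fin (m + 1) → Fin (k + 1))
    (ε : Fin (m + 1) → Bool) : C(Simp m, Y) := F.comp ((σ.comp (smap θ)).prodMk (htC ε))

theorem Pr_comp (F : C(X × unitInterval, Y)) (σ : C(Simp k, X)) (θ : Fin (m + 1) → Fin (k + 1))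
    (ε : Fin (m + 1) → Bool) (η : Fin (n + 1) → Fin (m + 1)) :
    (Pr F σ θ ε).comp (smap η) = Pr F σ (θ ∘ η) (ε ∘ η) := by
  refine ContinuousMap.ext fun t => ?_
  show F (σ (smap θ (smap η t)), htC ε (smap η t)) = F (σ (smap (θ ∘ η) t), htC (ε ∘ η) t)
  have e1 : smap θ (smap η t) = smap (θ ∘ η) t := DFunLike.congr_fun (smap_smap θ η) t
  have e2 : htC ε (smap η t) = htC (ε ∘ η) t := Subtype.ext (ht_smap ε η t)
  rw [e1, e2]

theorem Pr_face (F : C(X × unitInterval, Y)) (σ : C(Simp (k + 1), X)) (l : Fin (k + 2))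
    (θ : Fin (m + 1) → Fin (k + 1)) (ε : Fin (m + 1) → Bool) :
    Pr F (σ.comp (face l)) θ ε = Pr F σ (l.succAbove ∘ θ) ε := by
  unfold Pr
  rw [ContinuousMap.comp_assoc]
  have : (face l).comp (smap θ) = smap (l.succAbove ∘ θ) := smap_smap _ _
  rw [this]

theorem Pr_true (F : C(X × unitInterval, Y)) (g : C(X, Y)) (hg : ∀ x, F (x, 1) = g x)
    (σ : C(Simp k, X)) : Pr F σ id (fun _ => true) = g.comp σ := by
  refine ContinuousMap.ext fun t => ?_
  show F (σ (smap id t), htC (fun _ => true) t) = g (σ t)
  have e2 : htC (fun _ => true) t = 1 := by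
    apply Subtype.ext
    show ht (fun _ => true) t = 1
    unfold ht
    simp only [if_true]
    exact t.2.2
  rw [e2, smap_id, hg]
  rfl

theorem Pr_false (F : C(X × unitInterval, Y)) (f : C(X, Y)) (hf : ∀ x, F (x, 0) = f x)
    (σ : C(Simp k, X)) : Pr F σ id (fun _ => false) = f.comp σ := by
  refine ContinuousMap.ext fun t => ?_
  show F (σ (smap id t), htC (fun _ => false) t) = f (σ t)
  have e2 : htC (fun _ => false) t = 0 := by
    apply Subtype.ext
    show ht (fun _ => false) t = 0
    unfold ht
    simp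
  rw [e2, smap_id, hf]
  rfl

/-- The prism operator on a simplex. -/
def PS (F : C(X × unitInterval, Y)) (k : ℕ) (σ : C(Simp k, X)) : Chain Y (k + 1) :=
  ∑ i : Fin (k + 1), Finsupp.single (Pr F σ i.predAbove (fun l => decide (i.castSucc < l))) 1

theorem bd_PS (F : C(X × unitInterval, Y)) (f g : C(X, Y)) (hf : ∀ x, F (x, 0) = f x)
    (hg : ∀ x, F (x, 1) = g x) (k : ℕ) (σ : C(Simp k, X)) :
    bd (PS F k σ) = Finsupp.single (f.comp σ) 1 + Finsupp.single (g.comp σ) 1 +
      ∑ l : Fin (k + 1), ∑ i : Fin k,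
        Finsupp.single (Pr F σ (l.succAbove ∘ i.predAbove) (fun x => decide (i.castSucc < x)))
          1 := by
  unfold PS
  rw [map_sum]
  simp_rw [bd_single]
  have h1 := main_sum (k := k) (V := Chain Y k) (fun v => ch_add_self v)
    (fun θ ε => Finsupp.single (Pr F σ θ ε) 1)
  unfold HH' GG at h1
  have e : ∀ (i : Fin (k + 1)) (j : Fin (k + 2)),
      (Pr F σ i.predAbove (fun l => decide (i.castSucc < l))).comp (face j) =
        Pr F σ (i.predAbove ∘ j.succAbove) (fun l => decide (i.castSucc < j.succAbove l)) :=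
    fun i j => Pr_comp F σ _ _ _
  simp_rw [e]
  rw [h1, Pr_true F g hg, Pr_false F f hf, add_comm (Finsupp.single (g.comp σ) 1)]

end simp

end MPRISM

open MPRISM in
theorem PRISM : Stmt_PRISM := by
  intro X Y _ _ F f g hf hg
  refine ⟨fun k => Finsupp.linearCombination F2 (PS F k), ?_, ?_, ?_⟩
  · intro z
    refine lin_ext (L := bd.comp (Finsupp.linearCombination F2 (PS F 0)))
      (L' := cmap f + cmap g) (fun σ => ?_) z
    rw [LinearMap.comp_apply, Finsupp.linearCombination_single, one_smul, bd_PS F f g hf hg,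
      LinearMap.add_apply, cmap_single, cmap_single]
    simp
  · intro k z
    refine lin_ext (L := bd.comp (Finsupp.linearCombination F2 (PS F (k + 1))))
      (L' := cmap f + cmap g + (Finsupp.linearCombination F2 (PS F k)).comp bd) (fun σ => ?_) z
    rw [LinearMap.comp_apply, Finsupp.linearCombination_single, one_smul, bd_PS F f g hf hg,
      LinearMap.add_apply, LinearMap.add_apply, cmap_single, cmap_single, LinearMap.comp_apply,
      bd_single, map_sum]
    congr 1
    refine Finset.sum_congr rfl fun l _ => ?_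
    rw [Finsupp.linearCombination_single, one_smul]
    unfold PS
    refine Finset.sum_congr rfl fun i _ => ?_
    rw [Pr_face]
  · intro k σ
    rw [Finsupp.linearCombination_single, one_smul]
    refine ChainIn.sum _ _ fun i _ => ChainIn.single _ ?_
    rintro _ ⟨t, rfl⟩
    exact ⟨(σ (smap i.predAbove t), htC _ t), ⟨⟨_, rfl⟩, Set.mem_univ _⟩, rfl⟩

end Lit
end TC
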