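import Pool.Agent.TC.Lit.Basic2

/-!
# Module PT of the block LIT: the local homology of `ℝ^n` at a point
-/

set_option autoImplicit false
set_option linter.unusedSectionVars false

noncomputable section

namespace TC
namespace Lit

namespace MPT

section point

variable {X : Type} [TopologicalSpace X] [Subsingleton X]

theorem simplex_eq {k : ℕ} (σ τ : C(Simp k, X)) : σ = τ := by
  ext t
  exact Subsingleton.elim _ _

variable (X) in
/-- The cone operator of a one-point space. -/
def cone (x : X) (k : ℕ) : Chain X k →ₗ[F2] Chain X (k + 1) :=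
  Finsupp.lmapDomain F2 F2 (fun _ => ContinuousMap.const _ x)

theorem cone_single (x : X) {k : ℕ} (σ : C(Simp k, X)) (τ : C(Simp (k + 1), X)) (a : F2) :
    cone X x k (Finsupp.single σ a) = Finsupp.single τ a := by
  rw [cone, Finsupp.lmapDomain_apply, Finsupp.mapDomain_single]
  congr 1
  exact simplex_eq _ _

theorem bd_point {k : ℕ} (σ : C(Simp (k + 1), X)) (τ : C(Simp k, X)) (a : F2) :
    bd (Finsupp.single σ a) = (k + 2) • (Finsupp.single τ a : Chain X k) := by
  rw [bd_single]
  have h : ∀ i : Fin (k + 2), (Finsupp.single (σ.comp (face i)) a : Chain X k) =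
      Finsupp.single τ a := fun i => by rw [simplex_eq (σ.comp (face i)) τ]
  rw [Finset.sum_congr rfl fun i _ => h i, Finset.sum_const, Finset.card_univ, Fintype.card_fin]

theorem bd_cone (x : X) {k : ℕ} (z : Chain X (k + 1)) :
    bd (cone X x (k + 1) z) = z + cone X x k (bd z) := by
  induction z using Finsupp.induction_linear with
  | zero => simp
  | add u v hu hv =>
    rw [map_add, map_add, map_add, map_add, hu, hv]
    abel
  | single σ a =>
    rw [cone_single x σ (ContinuousMap.const _ x), bd_point _ σ,
      bd_point σ (ContinuousMap.const _ x), map_nsmul, cone_single x _ σ, ← succ_nsmul']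

end point

theorem zero_case (x : Fin 0 → ℝ) : Van 0 {x} ∧ Unq 0 {x} := by
  have hc : ({x} : Set (Fin 0 → ℝ))ᶜ = ∅ := by
    rw [Set.compl_empty_iff]
    ext y
    simp [Subsingleton.elim y x]
  constructor
  · intro k _ z hz
    have h1 : bd z = 0 := by
      have h2 := RC_succ.1 hz
      rw [hc] at h2
      exact ChainIn.empty h2
    have h3 := bd_cone x z
    rw [h1, map_zero, add_zero] at h3
    rw [← h3]
    exact RB.bd _
  · intro z z' _ _
    have key : ∀ z : Chain (Fin 0 → ℝ) 0, z = 0 ∨
        z = Finsupp.single (ContinuousMap.const _ x) 1 := by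
      intro z
      have h1 : z = Finsupp.single (ContinuousMap.const _ x)
          (z (ContinuousMap.const _ x)) := by
        ext σ
        rw [simplex_eq σ (ContinuousMap.const _ x), Finsupp.single_eq_same]
      have h2 : ∀ a : F2, a = 0 ∨ a = 1 := by decide
      rcases h2 (z (ContinuousMap.const _ x)) with h | h
      · left
        rw [h1, h, Finsupp.single_zero]
      · right
        rw [h] at h1
        exact h1
    rcases key z with h | h
    · left
      rw [h]
      exact RB.zero
    · rcases key z' with h' | h'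
      · right
        left
        rw [h']
        exact RB.zero
      · right
        right
        rw [h, h', ch_add_self]
        exact RB.zero

section step

variable {n : ℕ} (x : Fin (n + 1) → ℝ)

theorem eq_iff (y : Fin (n + 1) → ℝ) :
    y = x ↔ prN n y = prN n x ∧ y (Fin.last n) = x (Fin.last n) := by
  constructor
  · rintro rfl
    exact ⟨rfl, rfl⟩
  · rintro ⟨h1, h2⟩
    funext i
    refine Fin.lastCases h2 (fun j => ?_) i
    exact congrFun h1 j

theorem inter_eq : rayU x ∩ rayL x = {x} := by
  ext y
  rw [Set.mem_singleton_iff, eq_iff]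
  constructor
  · rintro ⟨⟨h1, h2⟩, -, h3⟩
    exact ⟨h1, le_antisymm h3 h2⟩
  · rintro ⟨h1, h2⟩
    exact ⟨⟨h1, h2.ge⟩, h1, h2.le⟩

theorem union_eq : rayU x ∪ rayL x = lineN x := by
  ext y
  constructor
  · rintro (⟨h, -⟩ | ⟨h, -⟩)
    · exact h
    · exact h
  · intro h
    rcases le_total (x (Fin.last n)) (y (Fin.last n)) with h1 | h1
    · exact Or.inl ⟨h, h1⟩
    · exact Or.inr ⟨h, h1⟩

theorem isClosed_rayU : IsClosed (rayU x) :=
  (isClosed_eq (prN n).continuous continuous_const).inter
    (isClosed_le continuous_const (continuous_apply _))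

theorem isClosed_rayL : IsClosed (rayL x) :=
  (isClosed_eq (prN n).continuous continuous_const).inter
    (isClosed_le (continuous_apply _) continuous_const)

end step

end MPT

open MPT in
/-- PT: the local homology of `ℝ^n` at a point. -/
theorem PT (hSUSP : Stmt_SUSP) (hRAY : Stmt_RAY) (hLINE : Stmt_LINE) : Stmt_PT := by
  intro n
  induction n with
  | zero => exact zero_case
  | succ n ih =>
    intro x
    obtain ⟨hV, hU⟩ := ih (prN n x)
    have hs := fun k => hSUSP (Fin (n + 1) → ℝ) (rayU x) (rayL x) (isClosed_rayU x)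
      (isClosed_rayL x) k (fun z => (hRAY n x k z).1) (fun z => (hRAY n x k z).2)
    rw [inter_eq, union_eq] at hs
    constructor
    · intro k hk z hz
      obtain ⟨j, rfl⟩ : ∃ j, k = j + 1 := ⟨k - 1, by omega⟩
      obtain ⟨a, a', ha, ha', h1, h2, h3⟩ := hs (j + 1) z z hz hz
      obtain ⟨h4, h5⟩ := hLINE n x (j + 1) a ha
      exact h1 (h5 (hV j (by omega) _ h4))
    · intro z z' hz hz'
      obtain ⟨a, a', ha, ha', h1, h2, h3⟩ := hs n z z' hz hz'
      obtain ⟨h4, h5⟩ := hLINE n x n a ha
      obtain ⟨h4', h5'⟩ := hLINE n x n a' ha'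
      obtain ⟨h6, h7⟩ := hLINE n x n (a + a') (RC.add ha ha')
      rw [map_add] at h7
      rcases hU _ _ h4 h4' with h | h | h
      · exact Or.inl (h1 (h5 h))
      · exact Or.inr (Or.inl (h2 (h5' h)))
      · exact Or.inr (Or.inr (h3 (h7 h)))

end Lit
end TC
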