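import Pool.Agent.TC.Lit.Basic2

/-!
# Block LIT: module PUL (the pull back of a classifying map is classifying)
-/

set_option autoImplicit false
set_option linter.unusedSectionVars false

open scoped Manifold ContDiff Topology

noncomputable section

namespace TC
namespace Lit

theorem PUL : Stmt_PUL := by
  intro n M _ _ _ o ρ D f hf
  obtain ⟨Φ, hΦ⟩ := hf
  have hfn : D.θ.1.fn = ρ.half := funext D.hθ
  refine ⟨{
    toFun := fun p => Φ.toFun (D.j p.2, p.1)
    cont := Φ.cont.comp ((D.j.continuous.comp continuous_snd).prodMk continuous_fst)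
    lin := fun m b => Φ.lin (D.j b) m
    inv := ?_ }, ?_⟩
  · intro v b
    show Φ.toFun (D.j (-b), tangentMap (𝓡 n) (𝓡 n) ρ.half v) = Φ.toFun (D.j b, v)
    rw [D.hj, ← hfn]
    exact Φ.inv D.θ (D.j b) v
  · intro m b t ht
    obtain ⟨hli, e⟩ := hΦ (D.j b) m t ht
    refine ⟨hli, ?_⟩
    show f (D.hh (Tot.mk _ _ (m, b))) = _
    rw [D.hh_mk]
    exact e

end Lit
end TC
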