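import Pool.Agent.TC.Lit.Basic2

/-!
# RAY: the homology of `ℝ^(n+1)` relative to the complement of a ray vanishes
-/

set_option autoImplicit false
set_option linter.unusedSectionVars false

open scoped Topology

noncomputable section

namespace TC
namespace Lit

namespace MRAY

variable {n : ℕ}

/-- The translation along the last axis at speed `T`. -/
def shF (n : ℕ) (T : ℝ) : C((Fin (n + 1) → ℝ) × unitInterval, Fin (n + 1) → ℝ) :=
  ⟨fun p i => p.1 i + (if i = Fin.last n then (p.2 : ℝ) * T else 0), by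
    refine continuous_pi fun i => ?_
    by_cases h : i = Fin.last n
    · simp only [h, if_true]
      fun_prop
    · simp only [h, if_false]
      fun_prop⟩

theorem shF_apply (T : ℝ) (y : Fin (n + 1) → ℝ) (t : unitInterval) (i : Fin (n + 1)) :
    shF n T (y, t) i = y i + (if i = Fin.last n then (t : ℝ) * T else 0) := rfl

theorem shF_last (T : ℝ) (y : Fin (n + 1) → ℝ) (t : unitInterval) :
    shF n T (y, t) (Fin.last n) = y (Fin.last n) + (t : ℝ) * T := by
  rw [shF_apply, if_pos rfl]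

theorem shF_prN (T : ℝ) (y : Fin (n + 1) → ℝ) (t : unitInterval) :
    prN n (shF n T (y, t)) = prN n y := by
  funext i
  show shF n T (y, t) i.castSucc = y i.castSucc
  rw [shF_apply, if_neg (Fin.castSucc_lt_last i).ne, add_zero]

/-- The time one map. -/
def shT (n : ℕ) (T : ℝ) : C(Fin (n + 1) → ℝ, Fin (n + 1) → ℝ) :=
  ⟨fun y => shF n T (y, 1), (shF n T).continuous.comp (by fun_prop)⟩

/-- The ray in the direction `ε`. -/
def ray (ε : ℝ) (x : Fin (n + 1) → ℝ) : Set (Fin (n + 1) → ℝ) :=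
  {y | prN n y = prN n x ∧ ε * x (Fin.last n) ≤ ε * y (Fin.last n)}

theorem ray_one (x : Fin (n + 1) → ℝ) : ray 1 x = rayU x := by
  ext y
  simp [ray, rayU]

theorem ray_neg_one (x : Fin (n + 1) → ℝ) : ray (-1) x = rayL x := by
  ext y
  simp [ray, rayL]

theorem main (hPRISM : Stmt_PRISM) (ε : ℝ) (hε : ε ≠ 0) (x : Fin (n + 1) → ℝ) {k : ℕ}
    (z : Chain (Fin (n + 1) → ℝ) (k + 1)) (hz : RC (ray ε x) z) : RB (ray ε x) z := by
  classical
  have hc : IsCompact (⋃ σ ∈ z.support, Set.range σ) :=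
    z.support.isCompact_biUnion fun σ _ => isCompact_range σ.continuous
  obtain ⟨b, hb⟩ := hc.bddAbove_image (f := fun y : Fin (n + 1) → ℝ => ε * y (Fin.last n))
    (by fun_prop)
  obtain ⟨S, hS0, hS⟩ : ∃ S : ℝ, 0 ≤ S ∧ b < ε * x (Fin.last n) + S := by
    refine ⟨|b - ε * x (Fin.last n)| + 1, by positivity, ?_⟩
    have := le_abs_self (b - ε * x (Fin.last n))
    linarith
  have hεT : ε * (-(S / ε)) = -S := by field_simp
  have hout : ChainIn (ray ε x)ᶜ (cmap (shT n (-(S / ε))) z) := by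
    refine ChainIn.cmap (A := ⋃ σ ∈ z.support, Set.range σ) ?_ ?_
    · intro σ hσ
      exact Set.subset_biUnion_of_mem (u := fun σ : C(Simp (k + 1), Fin (n + 1) → ℝ) =>
        Set.range σ) hσ
    · intro y hy hmem
      have h1 : ε * y (Fin.last n) ≤ b := hb ⟨y, hy, rfl⟩
      have h2 : ε * x (Fin.last n) ≤ ε * (shT n (-(S / ε)) y) (Fin.last n) := hmem.2
      have h3 : (shT n (-(S / ε)) y) (Fin.last n) = y (Fin.last n) + (1 : ℝ) * (-(S / ε)) :=
        shF_last _ y 1
      rw [h3, one_mul, mul_add, hεT] at h2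
      linarith
  have hrel : RB (ray ε x) (cmap (ContinuousMap.id _) z + cmap (shT n (-(S / ε))) z) := by
    refine prism_rel hPRISM (A := ray ε x) (shF n (-(S / ε))) (ContinuousMap.id _)
      (shT n (-(S / ε))) ?_ (fun _ => rfl) (ray ε x) ?_ z hz
    · intro y
      funext i
      rw [shF_apply]
      simp
    · intro y hy t hmem
      refine hy ⟨?_, ?_⟩
      · rw [← shF_prN (-(S / ε)) y t]
        exact hmem.1
      · have h2 : ε * x (Fin.last n) ≤ ε * (shF n (-(S / ε)) (y, t)) (Fin.last n) := hmem.2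
        rw [shF_last, mul_add] at h2
        have h3 : ε * ((t : ℝ) * (-(S / ε))) = -((t : ℝ) * S) := by
          calc ε * ((t : ℝ) * (-(S / ε))) = (t : ℝ) * (ε * (-(S / ε))) := by ring
            _ = -((t : ℝ) * S) := by rw [hεT]; ring
        have h4 : 0 ≤ (t : ℝ) * S := mul_nonneg t.2.1 hS0
        linarith
  rw [cmap_id] at hrel
  exact (RB.congr hrel).2 (RB.of_chainIn hout)

end MRAY

theorem RAY (hPRISM : Stmt_PRISM) : Stmt_RAY := by
  intro n x k z
  refine ⟨?_, ?_⟩
  · rw [← MRAY.ray_one]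
    exact MRAY.main hPRISM 1 one_ne_zero x z
  · rw [← MRAY.ray_neg_one]
    exact MRAY.main hPRISM (-1) (by norm_num) x z

end Lit
end TC
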