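import Pool.Agent.TC.Lit.Basic2

/-!
# Block LIT, module SDA: algebra of the affine subdivision
-/

set_option autoImplicit false
set_option linter.unusedSectionVars false

noncomputable section

namespace TC
namespace Lit
namespace MSDA

variable {n m k : ℕ}

theorem abd_single (p : Fin (k + 2) → Simp n) :
    abd (Finsupp.single p (1 : F2)) =
      ∑ i : Fin (k + 2), Finsupp.single (p ∘ i.succAbove) (1 : F2) := by
  unfold abd
  rw [LinearMap.sum_apply]
  refine Finset.sum_congr rfl fun i _ => ?_
  rw [Finsupp.lmapDomain_apply, Finsupp.mapDomain_single]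

theorem acone_single (b : Simp n) (p : Fin (k + 1) → Simp n) :
    acone b (Finsupp.single p (1 : F2)) =
      Finsupp.single (Fin.cons b p : Fin (k + 2) → Simp n) (1 : F2) := by
  unfold acone
  rw [Finsupp.lmapDomain_apply, Finsupp.mapDomain_single]

theorem apush_single (v : Fin (m + 1) → Simp n) (p : Fin (k + 1) → Simp m) :
    apush v (Finsupp.single p (1 : F2)) =
      Finsupp.single (fun i => comb v (p i)) (1 : F2) := by
  unfold apush
  rw [Finsupp.lmapDomain_apply, Finsupp.mapDomain_single]

theorem asd_zero (z : ACh n 0) : asd 0 z = z := rfl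

theorem asd_succ_single (p : Fin (k + 2) → Simp n) :
    asd (k + 1) (Finsupp.single p (1 : F2)) =
      acone (abary p) (asd k (abd (Finsupp.single p 1))) := by
  show Finsupp.linearCombination F2 _ _ = _
  rw [Finsupp.linearCombination_single, one_smul]

theorem aho_zero (z : ACh n 0) : aho 0 z = 0 := rfl

theorem aho_succ_single (p : Fin (k + 2) → Simp n) :
    aho (k + 1) (Finsupp.single p (1 : F2)) =
      acone (abary p) (Finsupp.single p 1 + aho k (abd (Finsupp.single p 1))) := by
  show Finsupp.linearCombination F2 _ _ = _
  rw [Finsupp.linearCombination_single, one_smul]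

theorem abd_abd (z : ACh n (k + 2)) : abd (abd z) = 0 := by
  have key : ∀ p : Fin (k + 3) → Simp n, abd (abd (Finsupp.single p (1 : F2))) = 0 := by
    intro p
    rw [abd_single, map_sum]
    simp only [abd_single]
    rw [← Finset.sum_product']
    apply Finset.sum_involution (fun (q : Fin (k + 3) × Fin (k + 2)) _ =>
      ((q.1.succAbove q.2, q.2.predAbove q.1) : Fin (k + 3) × Fin (k + 2)))
    · rintro ⟨i, l⟩ -
      have : (p ∘ i.succAbove) ∘ l.succAbove =
          (p ∘ (i.succAbove l).succAbove) ∘ (l.predAbove i).succAbove := by
        funext x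
        simp only [Function.comp_apply]
        congr 1
        exact (Fin.succAbove_succAbove_succAbove_predAbove i l x).symm
      simp only [this]
      exact ch_add_self _
    · rintro ⟨i, l⟩ - h heq
      have := congrArg Prod.fst heq
      exact Fin.succAbove_ne i l this
    · intro _ _
      exact Finset.mem_univ _
    · rintro ⟨i, l⟩ -
      simp only [Prod.mk.injEq]
      constructor
      · exact Fin.succAbove_succAbove_predAbove i l
      · exact Fin.predAbove_predAbove_succAbove i l
  exact lin_ext (L := abd.comp abd) (L' := 0) (fun σ => key σ) z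

theorem abd_acone (b : Simp n) (c : ACh n (k + 1)) :
    abd (acone b c) = c + acone b (abd c) := by
  refine lin_ext (L := abd.comp (acone b)) (L' := LinearMap.id + (acone b).comp abd)
    (fun p => ?_) c
  show abd (acone b (Finsupp.single p 1)) =
    Finsupp.single p 1 + acone b (abd (Finsupp.single p 1))
  rw [acone_single, abd_single, abd_single, map_sum, Fin.sum_univ_succ]
  refine congrArg₂ (fun a b => a + b) ?_ ?_
  · congr 1
  · refine Finset.sum_congr rfl fun i _ => ?_
    rw [acone_single]
    congr 1
    funext x
    refine Fin.cases ?_ (fun y => ?_) x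
    · simp
    · simp

theorem abd_acone_zero (b : Simp n) (p : Fin 1 → Simp n) :
    abd (acone b (Finsupp.single p (1 : F2))) =
      Finsupp.single p 1 + Finsupp.single (fun _ => b) 1 := by
  rw [acone_single, abd_single, Fin.sum_univ_two]
  refine congrArg₂ (fun a b => a + b) ?_ ?_
  · congr 1
  · congr 1
    funext x
    have hx : x = 0 := Fin.ext (by omega)
    subst hx
    rfl

theorem asd_abd : ∀ (k : ℕ) (z : ACh n (k + 1)), abd (asd (k + 1) z) = asd k (abd z) := by
  intro k
  induction k with
  | zero =>
      intro z
      refine lin_ext (L := abd.comp (asd 1)) (L' := (asd 0).comp abd) (fun p => ?_) z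
      show abd (asd 1 (Finsupp.single p 1)) = asd 0 (abd (Finsupp.single p 1))
      rw [asd_succ_single]
      simp only [asd_zero]
      rw [abd_single, Fin.sum_univ_two, map_add, map_add,
        abd_acone_zero, abd_acone_zero]
      have : ∀ a b c : ACh n 0, a + c + (b + c) = a + b := by
        intro a b c
        have h : a + c + (b + c) = a + b + (c + c) := by abel
        rw [h, ch_add_self, add_zero]
      exact this _ _ _
  | succ k ih =>
      intro z
      refine lin_ext (L := abd.comp (asd (k + 2))) (L' := (asd (k + 1)).comp abd) (fun p => ?_) z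
      show abd (asd (k + 1 + 1) (Finsupp.single p 1)) = asd (k + 1) (abd (Finsupp.single p 1))
      rw [asd_succ_single, abd_acone, ih, abd_abd, map_zero, map_zero, add_zero]

theorem aho_abd : ∀ (k : ℕ) (z : ACh n (k + 1)),
    abd (aho (k + 1) z) = z + asd (k + 1) z + aho k (abd z) := by
  intro k
  induction k with
  | zero =>
      intro z
      refine lin_ext (L := abd.comp (aho 1)) (L' := LinearMap.id + asd 1 + (aho 0).comp abd)
        (fun p => ?_) z
      show abd (aho 1 (Finsupp.single p 1)) =
        Finsupp.single p 1 + asd 1 (Finsupp.single p 1) + aho 0 (abd (Finsupp.single p 1))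
      rw [aho_succ_single, aho_zero, add_zero, add_zero, abd_acone, asd_succ_single, asd_zero]
  | succ k ih =>
      intro z
      refine lin_ext (L := abd.comp (aho (k + 2)))
        (L' := LinearMap.id + asd (k + 2) + (aho (k + 1)).comp abd) (fun p => ?_) z
      show abd (aho (k + 1 + 1) (Finsupp.single p 1)) =
        Finsupp.single p 1 + asd (k + 1 + 1) (Finsupp.single p 1) +
          aho (k + 1) (abd (Finsupp.single p 1))
      rw [aho_succ_single, abd_acone, map_add, ih, abd_abd, map_zero, add_zero, asd_succ_single,
        ch_add_cancel_left]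
      abel

theorem comb_comb (v : Fin (m + 1) → Simp n) (p : Fin (k + 1) → Simp m) (t : Simp k) :
    comb v (comb p t) = comb (fun i => comb v (p i)) t := by
  apply Subtype.ext
  funext j
  show ∑ i, (∑ l, t.1 l * (p l).1 i) * (v i).1 j = ∑ l, t.1 l * ∑ i, (p l).1 i * (v i).1 j
  simp only [Finset.sum_mul, Finset.mul_sum]
  rw [Finset.sum_comm]
  exact Finset.sum_congr rfl fun l _ => Finset.sum_congr rfl fun i _ => by ring

theorem abary_push (v : Fin (m + 1) → Simp n) (p : Fin (k + 1) → Simp m) :
    abary (fun i => comb v (p i)) = comb v (abary p) := (comb_comb v p _).symm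

theorem apush_abd (v : Fin (m + 1) → Simp n) (z : ACh m (k + 1)) :
    apush v (abd z) = abd (apush v z) := by
  refine lin_ext (L := (apush v).comp abd) (L' := abd.comp (apush v)) (fun p => ?_) z
  show apush v (abd (Finsupp.single p 1)) = abd (apush v (Finsupp.single p 1))
  rw [abd_single, map_sum, apush_single, abd_single]
  refine Finset.sum_congr rfl fun i _ => ?_
  rw [apush_single]
  rfl

theorem apush_acone (v : Fin (m + 1) → Simp n) (b : Simp m) (c : ACh m k) :
    apush v (acone b c) = acone (comb v b) (apush v c) := by
  refine lin_ext (L := (apush v).comp (acone b)) (L' := (acone (comb v b)).comp (apush v))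
    (fun p => ?_) c
  show apush v (acone b (Finsupp.single p 1)) = acone (comb v b) (apush v (Finsupp.single p 1))
  rw [acone_single, apush_single, apush_single, acone_single]
  congr 1
  funext x
  refine Fin.cases ?_ (fun y => ?_) x
  · simp
  · simp

theorem apush_asd (v : Fin (m + 1) → Simp n) : ∀ (k : ℕ) (z : ACh m k),
    apush v (asd k z) = asd k (apush v z) := by
  intro k
  induction k with
  | zero => intro z; rfl
  | succ k ih =>
      intro z
      refine lin_ext (L := (apush v).comp (asd (k + 1))) (L' := (asd (k + 1)).comp (apush v))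
        (fun p => ?_) z
      show apush v (asd (k + 1) (Finsupp.single p 1)) = asd (k + 1) (apush v (Finsupp.single p 1))
      rw [asd_succ_single, apush_acone, ih, apush_abd, apush_single, asd_succ_single, abary_push]

theorem apush_aho (v : Fin (m + 1) → Simp n) : ∀ (k : ℕ) (z : ACh m k),
    apush v (aho k z) = aho k (apush v z) := by
  intro k
  induction k with
  | zero => intro z; rw [aho_zero, aho_zero, map_zero]
  | succ k ih =>
      intro z
      refine lin_ext (L := (apush v).comp (aho (k + 1))) (L' := (aho (k + 1)).comp (apush v))
        (fun p => ?_) z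
      show apush v (aho (k + 1) (Finsupp.single p 1)) = aho (k + 1) (apush v (Finsupp.single p 1))
      rw [aho_succ_single, apush_acone, map_add, ih, apush_abd, apush_single, aho_succ_single,
        abary_push]

end MSDA

open MSDA

theorem SDA : Stmt_SDA :=
  ⟨fun _ k z => asd_abd k z, fun _ k z => aho_abd k z, fun _ _ k v z => apush_asd v k z,
    fun _ _ k v z => apush_aho v k z⟩

end Lit
end TC
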