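import Pool.Agent.TC.Lit.Basic2

/-!
# The mesh of the barycentric subdivision (module SDM of the block LIT)
-/

set_option autoImplicit false
set_option linter.unusedSectionVars false

open scoped Topology

noncomputable section

namespace TC
namespace Lit
namespace MSDM

/-- The barycenter is close to the vertices. -/
theorem dist_bary {n k : ℕ} (p : Fin (k + 2) → Simp n) (r : ℝ)
    (h : ∀ i j, dist (p i) (p j) ≤ r) (i : Fin (k + 2)) :
    dist (p i).1 (abary p).1 ≤ ((k + 1 : ℕ) : ℝ) / ((k + 1 : ℕ) + 1) * r := by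
  have hk : (0 : ℝ) < (k : ℝ) + 2 := by positivity
  have hw : ∀ j : Fin (k + 2), (stdSimplex.barycenter : Simp (k + 1)).1 j = ((k : ℝ) + 2)⁻¹ := by
    intro j
    have := stdSimplex.barycenter_apply (𝕜 := ℝ) (X := Fin (k + 2)) j
    rw [this, Fintype.card_fin]
    push_cast
    ring
  have e : (p i).1 - (abary p).1 = ∑ j, ((k : ℝ) + 2)⁻¹ • ((p i).1 - (p j).1) := by
    funext l
    rw [Finset.sum_apply]
    simp only [Pi.sub_apply, Pi.smul_apply, smul_eq_mul, mul_sub, Finset.sum_sub_distrib,
      Finset.sum_const, Finset.card_univ, Fintype.card_fin, nsmul_eq_mul]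
    have e1 : (abary p).1 l = ∑ j, ((k : ℝ) + 2)⁻¹ * (p j).1 l := by
      have e2 : (abary p).1 l =
          ∑ j, (stdSimplex.barycenter : Simp (k + 1)).1 j * (p j).1 l := rfl
      rw [e2]
      exact Finset.sum_congr rfl fun j _ => by rw [hw]
    rw [e1]
    congr 1
    push_cast
    field_simp
  rw [dist_eq_norm, e]
  have h1 : ∀ j ∈ (Finset.univ : Finset (Fin (k + 2))),
      ‖((k : ℝ) + 2)⁻¹ • ((p i).1 - (p j).1)‖ ≤ if j = i then 0 else ((k : ℝ) + 2)⁻¹ * r := by
    intro j _
    split_ifs with hj
    · rw [hj, sub_self, smul_zero, norm_zero]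
    · rw [norm_smul, Real.norm_of_nonneg (by positivity), ← dist_eq_norm]
      exact mul_le_mul_of_nonneg_left (h i j) (by positivity)
  refine (norm_sum_le _ _).trans ((Finset.sum_le_sum h1).trans (le_of_eq ?_))
  rw [Finset.sum_ite]
  simp only [Finset.sum_const_zero, zero_add, Finset.sum_const, nsmul_eq_mul]
  have hc : (Finset.univ.filter fun j : Fin (k + 2) => ¬ j = i).card = k + 1 := by
    rw [Finset.filter_not, Finset.filter_eq', if_pos (Finset.mem_univ _), Finset.card_sdiff]
    simp
  rw [hc]
  push_cast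
  field_simp
  ring

theorem ratio_le (k : ℕ) (r : ℝ) (hr : 0 ≤ r) :
    (k : ℝ) / (k + 1) * r ≤ ((k + 1 : ℕ) : ℝ) / ((k + 1 : ℕ) + 1) * r := by
  refine mul_le_mul_of_nonneg_right ?_ hr
  rw [div_le_div_iff₀ (by positivity) (by positivity)]
  push_cast
  nlinarith

/-- Simplices of a sum. -/
theorem mem_supp_sum {α ι : Type} (s : Finset ι) (f : ι → α →₀ F2) {a : α}
    (h : a ∈ (∑ i ∈ s, f i).support) : ∃ i ∈ s, a ∈ (f i).support := by
  classical
  by_contra hn
  push Not at hn
  rw [Finsupp.mem_support_iff, Finsupp.finsetSum_apply] at h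
  exact h (Finset.sum_eq_zero fun i hi => Finsupp.notMem_support_iff.1 (hn i hi))

theorem asd_succ_mem {n k : ℕ} {p q : Fin (k + 2) → Simp n}
    (h : q ∈ (asd (k + 1) (Finsupp.single p 1)).support) :
    ∃ (i : Fin (k + 2)) (q' : Fin (k + 1) → Simp n),
      q' ∈ (asd k (Finsupp.single (p ∘ i.succAbove) 1)).support ∧
      q = (Fin.cons (abary p) q' : Fin (k + 2) → Simp n) := by
  classical
  have e1 : asd (k + 1) (Finsupp.single p 1) =
      acone (abary p) (asd k (abd (Finsupp.single p 1))) := by
    show Finsupp.linearCombination F2 _ (Finsupp.single p 1) = _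
    rw [Finsupp.linearCombination_single, one_smul]
  rw [e1] at h
  have h2 : q ∈ (Finsupp.mapDomain (fun p' : Fin (k + 1) → Simp n =>
      (Fin.cons (abary p) p' : Fin (k + 2) → Simp n))
        (asd k (abd (Finsupp.single p 1)))).support := h
  obtain ⟨q', hq', rfl⟩ := Finset.mem_image.1 (Finsupp.mapDomain_support h2)
  have e2 : asd k (abd (Finsupp.single p (1 : F2))) =
      ∑ i : Fin (k + 2), asd k (Finsupp.single (p ∘ i.succAbove) 1) := by
    rw [abd, LinearMap.sum_apply, map_sum]
    refine Finset.sum_congr rfl fun i _ => ?_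
    congr 1
    exact Finsupp.mapDomain_single
  rw [e2] at hq'
  obtain ⟨i, -, hi⟩ := mem_supp_sum _ _ hq'
  exact ⟨i, q', hi, rfl⟩

end MSDM

theorem SDM : Stmt_SDM := by
  intro n k
  induction k with
  | zero =>
    intro p r hr q hq
    have hq1 : q ∈ (Finsupp.single p (1 : F2)).support := hq
    have hq2 := Finsupp.support_single_subset hq1
    rw [Finset.mem_singleton] at hq2
    subst hq2
    constructor
    · intro i j
      have hij : i = j := Fin.ext (by omega)
      rw [hij]
      simp
    · intro i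
      exact subset_convexHull ℝ _ ⟨i, rfl⟩
  | succ k ih =>
    intro p r hr q hq
    have h0 : 0 ≤ r := dist_nonneg.trans (hr 0 0)
    obtain ⟨i, q', hq', rfl⟩ := MSDM.asd_succ_mem hq
    obtain ⟨ih1, ih2⟩ := ih (p ∘ i.succAbove) r (fun a b => hr _ _) q' hq'
    have hull : ∀ a, (q' a).1 ∈ convexHull ℝ (Set.range fun j => (p j).1) := by
      intro a
      refine convexHull_mono ?_ (ih2 a)
      rintro _ ⟨j, rfl⟩
      exact ⟨i.succAbove j, rfl⟩
    have hb : (abary p).1 ∈ convexHull ℝ (Set.range fun j => (p j).1) := by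
      have hc := (convex_convexHull ℝ (Set.range fun j => (p j).1)).sum_mem
        (t := Finset.univ) (w := (stdSimplex.barycenter : Simp (k + 1)).1)
        (z := fun j => (p j).1)
        (fun j _ => (stdSimplex.barycenter : Simp (k + 1)).2.1 j)
        (stdSimplex.barycenter : Simp (k + 1)).2.2
        (fun j _ => subset_convexHull ℝ _ ⟨j, rfl⟩)
      have e : (abary p).1 = ∑ j, (stdSimplex.barycenter : Simp (k + 1)).1 j • (p j).1 := by
        funext l
        rw [Finset.sum_apply]
        rfl
      rw [e]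
      exact hc
    have hd : ∀ x ∈ convexHull ℝ (Set.range fun j => (p j).1),
        dist x (abary p).1 ≤ ((k + 1 : ℕ) : ℝ) / ((k + 1 : ℕ) + 1) * r := by
      intro x hx
      have : convexHull ℝ (Set.range fun j => (p j).1) ⊆
          Metric.closedBall (abary p).1 (((k + 1 : ℕ) : ℝ) / ((k + 1 : ℕ) + 1) * r) := by
        refine convexHull_min ?_ (convex_closedBall _ _)
        rintro _ ⟨j, rfl⟩
        exact MSDM.dist_bary p r hr j
      exact this hx
    have hnn : (0 : ℝ) ≤ ((k + 1 : ℕ) : ℝ) / ((k + 1 : ℕ) + 1) * r := by positivity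
    constructor
    · intro a b
      refine Fin.cases ?_ (fun a' => ?_) a <;> refine Fin.cases ?_ (fun b' => ?_) b
      · rw [dist_self]
        exact hnn
      · rw [Fin.cons_zero, Fin.cons_succ, dist_comm]
        exact hd _ (hull b')
      · rw [Fin.cons_zero, Fin.cons_succ]
        exact hd _ (hull a')
      · rw [Fin.cons_succ, Fin.cons_succ]
        exact (ih1 a' b').trans (MSDM.ratio_le k r h0)
    · intro a
      refine Fin.cases ?_ (fun a' => ?_) a
      · rw [Fin.cons_zero]
        exact hb
      · rw [Fin.cons_succ]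
        exact hull a'

end Lit
end TC
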