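import Pool.Agent.TC.Lit.Basic2

/-!
# SDS: the subdivision operators on singular chains (block LIT)
-/

set_option autoImplicit false
set_option linter.unusedSectionVars false

noncomputable section

namespace TC
namespace Lit
namespace MSDS

variable {X Y : Type} [TopologicalSpace X] [TopologicalSpace Y]

/-! ## Values on simplices -/

theorem affC_single {n k : ℕ} (p : Fin (k + 1) → Simp n) (a : F2) :
    affC (Finsupp.single p a) = Finsupp.single (affS p) a := by
  simp [affC, Finsupp.mapDomain_single]

theorem abd_single {n k : ℕ} (p : Fin (k + 2) → Simp n) (a : F2) :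
    abd (Finsupp.single p a) = ∑ i : Fin (k + 2), Finsupp.single (p ∘ i.succAbove) a := by
  simp [abd, Finsupp.mapDomain_single]

theorem apush_single {m n k : ℕ} (v : Fin (m + 1) → Simp n) (p : Fin (k + 1) → Simp m) (a : F2) :
    apush v (Finsupp.single p a) = Finsupp.single (fun i => comb v (p i)) a := by
  simp [apush, Finsupp.mapDomain_single]

theorem sdC_single {k : ℕ} (σ : C(Simp k, X)) :
    sdC k (Finsupp.single σ 1) = cmap σ (affC (asd k (Finsupp.single (iotaA k) 1))) := by
  simp [sdC, Finsupp.linearCombination_single]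

theorem hoC_single {k : ℕ} (σ : C(Simp k, X)) :
    hoC k (Finsupp.single σ 1) = cmap σ (affC (aho k (Finsupp.single (iotaA k) 1))) := by
  simp [hoC, Finsupp.linearCombination_single]

/-! ## Convex combinations -/

theorem comb_apply {n k : ℕ} (p : Fin (k + 1) → Simp n) (t : Simp k) (j : Fin (n + 1)) :
    (comb p t).1 j = ∑ i, t.1 i * (p i).1 j := rfl

theorem smap_apply {m k : ℕ} (θ : Fin (m + 1) → Fin (k + 1)) (t : Simp m) (a : Fin (k + 1)) :
    (smap θ t).1 a = ∑ b with θ b = a, t.1 b := by
  show (stdSimplex.map θ t : Simp k) a = _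
  rw [stdSimplex.map_coe, FunOnFinite.linearMap_apply_apply]
  rfl

theorem comb_smap {n m k : ℕ} (p : Fin (k + 1) → Simp n) (θ : Fin (m + 1) → Fin (k + 1))
    (t : Simp m) : comb p (smap θ t) = comb (p ∘ θ) t := by
  refine Subtype.ext (funext fun j => ?_)
  rw [comb_apply, comb_apply]
  have h1 : ∀ a : Fin (k + 1), (smap θ t).1 a * (p a).1 j =
      ∑ b with θ b = a, t.1 b * ((p ∘ θ) b).1 j := by
    intro a
    rw [smap_apply, Finset.sum_mul]
    refine Finset.sum_congr rfl fun b hb => ?_
    rw [Finset.mem_filter] at hb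
    show _ = t.1 b * (p (θ b)).1 j
    rw [hb.2]
  rw [Finset.sum_congr rfl fun a _ => h1 a]
  exact Finset.sum_fiberwise Finset.univ θ fun b => t.1 b * ((p ∘ θ) b).1 j

theorem vtx_apply {k : ℕ} (i a : Fin (k + 1)) : (vtx i : Simp k).1 a = if i = a then 1 else 0 := by
  show (stdSimplex.vertex i : Simp k) a = _
  rw [stdSimplex.vertex_coe, Pi.single_apply]
  by_cases h : a = i
  · rw [if_pos h, if_pos h.symm]
  · rw [if_neg h, if_neg fun h' => h h'.symm]

theorem comb_iota {k : ℕ} (t : Simp k) : comb (iotaA k) t = t := by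
  refine Subtype.ext (funext fun j => ?_)
  rw [comb_apply]
  have : ∀ i, t.1 i * (iotaA k i).1 j = if i = j then t.1 i else 0 := by
    intro i
    show t.1 i * (vtx i : Simp k).1 j = _
    rw [vtx_apply]
    split_ifs <;> simp
  rw [Finset.sum_congr rfl fun i _ => this i, Finset.sum_ite_eq' Finset.univ j fun i => t.1 i,
    if_pos (Finset.mem_univ j)]

theorem comb_vtx {n k : ℕ} (p : Fin (k + 1) → Simp n) (a : Fin (k + 1)) :
    comb p (vtx a) = p a := by
  refine Subtype.ext (funext fun j => ?_)
  rw [comb_apply]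
  have : ∀ i, (vtx a : Simp k).1 i * (p i).1 j = if a = i then (p i).1 j else 0 := by
    intro i
    rw [vtx_apply]
    split_ifs <;> simp
  rw [Finset.sum_congr rfl fun i _ => this i, Finset.sum_ite_eq Finset.univ a fun i => (p i).1 j,
    if_pos (Finset.mem_univ a)]

theorem comb_comb {n m k : ℕ} (v : Fin (m + 1) → Simp n) (p : Fin (k + 1) → Simp m)
    (t : Simp k) : comb v (comb p t) = comb (fun i => comb v (p i)) t := by
  refine Subtype.ext (funext fun j => ?_)
  rw [comb_apply, comb_apply]
  simp only [comb_apply, Finset.sum_mul, Finset.mul_sum]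
  rw [Finset.sum_comm]
  exact Finset.sum_congr rfl fun i _ => Finset.sum_congr rfl fun a _ => mul_assoc _ _ _

theorem affS_face {n k : ℕ} (p : Fin (k + 2) → Simp n) (i : Fin (k + 2)) :
    (affS p).comp (face i) = affS (p ∘ i.succAbove) :=
  ContinuousMap.ext fun t => comb_smap p i.succAbove t

theorem face_eq {k : ℕ} (i : Fin (k + 2)) :
    (face i : C(Simp k, Simp (k + 1))) = affS (iotaA (k + 1) ∘ i.succAbove) := by
  refine ContinuousMap.ext fun t => ?_
  show smap i.succAbove t = comb (iotaA (k + 1) ∘ i.succAbove) t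
  rw [← comb_smap, comb_iota]

theorem affS_iota (k : ℕ) : affS (iotaA k) = ContinuousMap.id (Simp k) :=
  ContinuousMap.ext fun t => comb_iota t

theorem affS_comp {n m k : ℕ} (v : Fin (m + 1) → Simp n) (p : Fin (k + 1) → Simp m) :
    (affS v).comp (affS p) = affS (fun i => comb v (p i)) :=
  ContinuousMap.ext fun t => comb_comb v p t

/-! ## Affine chains and singular chains -/

theorem bd_affC {n k : ℕ} (c : ACh n (k + 1)) : bd (affC c) = affC (abd c) :=
  lin_ext (L := bd.comp affC) (L' := affC.comp abd) (fun p => by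
    show bd (affC (Finsupp.single p 1)) = affC (abd (Finsupp.single p 1))
    rw [affC_single, bd_single, abd_single, map_sum]
    exact Finset.sum_congr rfl fun i _ => by rw [affC_single, affS_face]) c

theorem cmap_affC {m n k : ℕ} (v : Fin (m + 1) → Simp n) (c : ACh m k) :
    cmap (affS v) (affC c) = affC (apush v c) :=
  lin_ext (L := (cmap (affS v)).comp affC) (L' := affC.comp (apush v)) (fun p => by
    show cmap (affS v) (affC (Finsupp.single p 1)) = affC (apush v (Finsupp.single p 1))
    rw [affC_single, cmap_single, apush_single, affC_single, affS_comp]) c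

theorem apush_iota {n k : ℕ} (v : Fin (k + 1) → Simp n) :
    apush v (Finsupp.single (iotaA k) 1) = Finsupp.single v 1 := by
  rw [apush_single]
  have : (fun i => comb v (iotaA k i)) = v := funext fun i => comb_vtx v i
  rw [this]

/-- The value of a natural operator on the boundary of the identity simplex. -/
theorem nat_bd {k l : ℕ} (T : ∀ n : ℕ, ACh n k →ₗ[F2] ACh n l)
    (hT : ∀ m n (v : Fin (m + 1) → Simp n) (z : ACh m k), apush v (T m z) = T n (apush v z))
    (σ : C(Simp (k + 1), X)) :
    cmap σ (affC (T (k + 1) (abd (Finsupp.single (iotaA (k + 1)) 1)))) =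
      ∑ i : Fin (k + 2), cmap (σ.comp (face i)) (affC (T k (Finsupp.single (iotaA k) 1))) := by
  rw [abd_single, map_sum, map_sum, map_sum]
  refine Finset.sum_congr rfl fun i _ => ?_
  rw [← apush_iota, ← hT, ← cmap_affC, ← face_eq, cmap_comp]

/-! ## The parts of the statement -/

theorem part1 (hSDA : Stmt_SDA) (k : ℕ) (z : Chain X (k + 1)) :
    bd (sdC (k + 1) z) = sdC k (bd z) :=
  lin_ext (L := bd.comp (sdC (k + 1))) (L' := (sdC k).comp bd) (fun σ => by
    show bd (sdC (k + 1) (Finsupp.single σ 1)) = sdC k (bd (Finsupp.single σ 1))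
    rw [sdC_single, bd_cmap, bd_affC, hSDA.1,
      nat_bd (fun n => asd k) (fun m n v z => hSDA.2.2.1 m n k v z), bd_single, map_sum]
    exact Finset.sum_congr rfl fun i _ => by rw [sdC_single]) z

theorem sdC_zero (z : Chain X 0) : sdC 0 z = z :=
  lin_ext (L := sdC 0) (L' := LinearMap.id) (fun σ => by
    show sdC 0 (Finsupp.single σ 1) = Finsupp.single σ 1
    rw [sdC_single]
    show cmap σ (affC (Finsupp.single (iotaA 0) 1)) = Finsupp.single σ 1
    rw [affC_single, affS_iota, cmap_single]
    rfl) z

theorem hoC_zero (z : Chain X 0) : hoC 0 z = 0 :=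
  lin_ext (L := hoC 0) (L' := 0) (fun σ => by
    rw [hoC_single]
    show cmap σ (affC 0) = 0
    rw [map_zero, map_zero]) z

theorem part3 (hSDA : Stmt_SDA) (k : ℕ) (z : Chain X (k + 1)) :
    bd (hoC (k + 1) z) = z + sdC (k + 1) z + hoC k (bd z) :=
  lin_ext (L := bd.comp (hoC (k + 1))) (L' := LinearMap.id + sdC (k + 1) + (hoC k).comp bd)
    (fun σ => by
      show bd (hoC (k + 1) (Finsupp.single σ 1)) =
        Finsupp.single σ 1 + sdC (k + 1) (Finsupp.single σ 1) + hoC k (bd (Finsupp.single σ 1))
      rw [hoC_single, bd_cmap, bd_affC, hSDA.2.1, map_add, map_add, map_add, map_add,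
        nat_bd (fun n => aho k) (fun m n v z => hSDA.2.2.2 m n k v z), bd_single, map_sum,
        sdC_single, affC_single, affS_iota, cmap_single]
      congr 1
      exact Finset.sum_congr rfl fun i _ => by rw [hoC_single]) z

theorem part4 (A : Set X) (k : ℕ) (z : Chain X k) (hz : ChainIn A z) :
    ChainIn A (sdC k z) ∧ ChainIn A (hoC k z) := by
  constructor
  · refine ChainIn.map (L := sdC k) (fun σ hσ => ?_) hz
    rw [sdC_single]
    exact ChainIn.cmap (ChainIn.univ _) fun t _ => hσ ⟨t, rfl⟩
  · refine ChainIn.map (L := hoC k) (fun σ hσ => ?_) hz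
    rw [hoC_single]
    exact ChainIn.cmap (ChainIn.univ _) fun t _ => hσ ⟨t, rfl⟩

theorem part5 (f : C(X, Y)) (k : ℕ) (z : Chain X k) :
    cmap f (sdC k z) = sdC k (cmap f z) ∧ cmap f (hoC k z) = hoC k (cmap f z) := by
  constructor
  · exact lin_ext (L := (cmap f).comp (sdC k)) (L' := (sdC k).comp (cmap f)) (fun σ => by
      show cmap f (sdC k (Finsupp.single σ 1)) = sdC k (cmap f (Finsupp.single σ 1))
      rw [sdC_single, cmap_single, sdC_single, cmap_comp]) z
  · exact lin_ext (L := (cmap f).comp (hoC k)) (L' := (hoC k).comp (cmap f)) (fun σ => by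
      show cmap f (hoC k (Finsupp.single σ 1)) = hoC k (cmap f (Finsupp.single σ 1))
      rw [hoC_single, cmap_single, hoC_single, cmap_comp]) z

end MSDS

/-- The subdivision operators on singular chains. -/
theorem SDS (hSDA : Stmt_SDA) : Stmt_SDS := by
  intro X _
  refine ⟨MSDS.part1 hSDA, fun z => ?_, MSDS.part3 hSDA, MSDS.part4, fun Y _ => MSDS.part5⟩
  rw [MSDS.hoC_zero, MSDS.sdC_zero, map_zero, ch_add_self]

end Lit
end TC
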