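import Pool.Agent.TC.Lit.Basic2

/-!
# Block LIT, module SMALL: iterated subdivision makes chains small
-/

set_option autoImplicit false

open scoped Topology

noncomputable section

namespace TC
namespace Lit

namespace MSMALL

/-- Supports of the values of a linear map. -/
theorem supp_lin {α β : Type} (L : (α →₀ F2) →ₗ[F2] (β →₀ F2)) (z : α →₀ F2) {τ : β}
    (hτ : τ ∈ (L z).support) : ∃ σ ∈ z.support, τ ∈ (L (Finsupp.single σ 1)).support := by
  classical
  have e : z = ∑ σ ∈ z.support, (z σ) • Finsupp.single σ (1 : F2) := by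
    conv_lhs => rw [← Finsupp.sum_single z]
    rw [Finsupp.sum]
    exact Finset.sum_congr rfl fun σ _ => by simp
  have h1 : L z = ∑ σ ∈ z.support, (z σ) • L (Finsupp.single σ (1 : F2)) := by
    conv_lhs => rw [e]
    rw [map_sum]
    exact Finset.sum_congr rfl fun σ _ => by rw [map_smul]
  rw [h1] at hτ
  by_contra hcon
  push Not at hcon
  rw [Finsupp.mem_support_iff, Finsupp.finsetSum_apply] at hτ
  apply hτ
  apply Finset.sum_eq_zero
  intro σ hσ
  rw [Finsupp.smul_apply, Finsupp.notMem_support_iff.mp (hcon σ hσ), smul_zero]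

theorem comb_vtx {n k : ℕ} (p : Fin (k + 1) → Simp n) (i : Fin (k + 1)) :
    comb p (vtx i) = p i := by
  apply Subtype.ext
  funext j
  show ∑ l, (stdSimplex.vertex (S := ℝ) i).1 l * (p l).1 j = (p i).1 j
  rw [Finset.sum_eq_single i]
  · simp
  · intro b _ hb
    have : (stdSimplex.vertex (S := ℝ) i).1 b = 0 := Pi.single_eq_of_ne hb _
    rw [this, zero_mul]
  · simp

theorem comb_id {k : ℕ} (t : Simp k) : comb (iotaA k) t = t := by
  apply Subtype.ext
  funext j
  show ∑ l, t.1 l * (stdSimplex.vertex (S := ℝ) l).1 j = t.1 j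
  rw [Finset.sum_eq_single j]
  · simp
  · intro b _ hb
    have : (stdSimplex.vertex (S := ℝ) b).1 j = 0 := Pi.single_eq_of_ne (Ne.symm hb) _
    rw [this, mul_zero]
  · simp

theorem comb_comb {l m n : ℕ} (v : Fin (m + 1) → Simp n) (q : Fin (l + 1) → Simp m)
    (t : Simp l) : comb v (comb q t) = comb (fun i => comb v (q i)) t := by
  apply Subtype.ext
  funext j
  show ∑ i, (∑ a, t.1 a * (q a).1 i) * (v i).1 j = ∑ a, t.1 a * ∑ i, (q a).1 i * (v i).1 j
  simp only [Finset.sum_mul, Finset.mul_sum]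
  rw [Finset.sum_comm]
  refine Finset.sum_congr rfl fun a _ => Finset.sum_congr rfl fun i _ => ?_
  ring

theorem cmap_affC {m n k : ℕ} (v : Fin (m + 1) → Simp n) (c : ACh m k) :
    cmap (affS v) (affC c) = affC (apush v c) := by
  refine lin_ext (L := (cmap (affS v)).comp affC) (L' := affC.comp (apush v)) ?_ c
  intro p
  show cmap (affS v) (affC (Finsupp.single p 1)) = affC (apush v (Finsupp.single p 1))
  have h1 : ∀ (n' : ℕ) (q : Fin (k + 1) → Simp n'),
      affC (Finsupp.single q (1 : F2)) = Finsupp.single (affS q) 1 := by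
    intro n' q
    unfold affC
    rw [Finsupp.lmapDomain_apply, Finsupp.mapDomain_single]
  have h2 : apush v (Finsupp.single p (1 : F2)) = Finsupp.single (fun i => comb v (p i)) 1 := by
    unfold apush
    rw [Finsupp.lmapDomain_apply, Finsupp.mapDomain_single]
  rw [h2, h1, h1, cmap_single]
  congr 1
  ext1 t
  exact comb_comb v p t

theorem sdC_affC (hSDA : Stmt_SDA) {n k : ℕ} (c : ACh n k) :
    sdC k (affC c) = affC (asd k c) := by
  refine lin_ext (L := (sdC k).comp affC) (L' := affC.comp (asd k)) ?_ c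
  intro p
  show sdC k (affC (Finsupp.single p 1)) = affC (asd k (Finsupp.single p 1))
  have h1 : affC (Finsupp.single p (1 : F2)) = Finsupp.single (affS p) 1 := by
    unfold affC
    rw [Finsupp.lmapDomain_apply, Finsupp.mapDomain_single]
  have h2 : sdC k (Finsupp.single (affS p) (1 : F2)) =
      cmap (affS p) (affC (asd k (Finsupp.single (iotaA k) 1))) := by
    unfold sdC
    rw [Finsupp.linearCombination_single, one_smul]
  have h3 : apush p (Finsupp.single (iotaA k) (1 : F2)) = Finsupp.single p 1 := by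
    unfold apush
    rw [Finsupp.lmapDomain_apply, Finsupp.mapDomain_single]
    congr 1
    funext i
    exact comb_vtx p i
  rw [h1, h2, cmap_affC, hSDA.2.2.1, h3]

theorem sdN_affC (hSDA : Stmt_SDA) {n k : ℕ} (N : ℕ) (c : ACh n k) :
    (sdC k)^[N] (affC c) = affC ((asd k)^[N] c) := by
  induction N with
  | zero => rfl
  | succ N ih =>
    rw [Function.iterate_succ_apply', Function.iterate_succ_apply', ih, sdC_affC hSDA]

theorem sdN_single (hSDA : Stmt_SDA) (hSDS : Stmt_SDS) {X : Type} [TopologicalSpace X] {k : ℕ}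
    (N : ℕ) (σ : C(Simp k, X)) : (sdC k)^[N] (Finsupp.single σ (1 : F2)) =
      cmap σ (affC ((asd k)^[N] (Finsupp.single (iotaA k) 1))) := by
  rw [← sdN_affC hSDA, cmap_sdN hSDS]
  congr 1
  unfold affC
  rw [Finsupp.lmapDomain_apply, Finsupp.mapDomain_single, cmap_single]
  congr 1
  ext1 t
  show σ t = σ (comb (iotaA k) t)
  rw [comb_id]

/-- The mesh of the iterated subdivision. -/
theorem mesh (hSDM : Stmt_SDM) {n k : ℕ} (p : Fin (k + 1) → Simp n) (r : ℝ)
    (hr : ∀ i j, dist (p i) (p j) ≤ r) (N : ℕ) :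
    ∀ q ∈ ((asd k)^[N] (Finsupp.single p (1 : F2))).support, ∀ i j,
      dist (q i) (q j) ≤ ((k : ℝ) / (k + 1)) ^ N * r := by
  induction N with
  | zero =>
    intro q hq i j
    have hq' : q ∈ (Finsupp.single p (1 : F2)).support := hq
    have := Finsupp.support_single_subset hq'
    rw [Finset.mem_singleton] at this
    rw [this, pow_zero, one_mul]
    exact hr i j
  | succ N ih =>
    intro q hq i j
    rw [Function.iterate_succ_apply'] at hq
    obtain ⟨q', hq', hqq'⟩ := supp_lin (asd k) _ hq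
    have h1 := (hSDM n k q' (((k : ℝ) / (k + 1)) ^ N * r) (ih q' hq') q hqq').1 i j
    calc dist (q i) (q j) ≤ (k : ℝ) / (k + 1) * (((k : ℝ) / (k + 1)) ^ N * r) := h1
      _ = ((k : ℝ) / (k + 1)) ^ (N + 1) * r := by ring

theorem dist_comb {n k : ℕ} (q : Fin (k + 1) → Simp n) {ε : ℝ}
    (hq : ∀ i j, dist (q i) (q j) ≤ ε) (t : Simp k) : dist (comb q t) (q 0) ≤ ε := by
  have hε : 0 ≤ ε := dist_nonneg.trans (hq 0 0)
  rw [Subtype.dist_eq, dist_pi_le_iff hε]
  intro j
  rw [Real.dist_eq]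
  show |(∑ i, t.1 i * (q i).1 j) - (q 0).1 j| ≤ ε
  have h1 : (∑ i, t.1 i * (q i).1 j) - (q 0).1 j = ∑ i, t.1 i * ((q i).1 j - (q 0).1 j) := by
    simp only [mul_sub, Finset.sum_sub_distrib]
    rw [← Finset.sum_mul, t.2.2, one_mul]
  rw [h1]
  calc |∑ i, t.1 i * ((q i).1 j - (q 0).1 j)| ≤ ∑ i, |t.1 i * ((q i).1 j - (q 0).1 j)| :=
        Finset.abs_sum_le_sum_abs _ _
    _ ≤ ∑ i, t.1 i * ε := by
        refine Finset.sum_le_sum fun i _ => ?_
        rw [abs_mul, abs_of_nonneg (t.2.1 i)]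
        refine mul_le_mul_of_nonneg_left ?_ (t.2.1 i)
        have h2 := hq i 0
        rw [Subtype.dist_eq, dist_pi_le_iff hε] at h2
        have h3 := h2 j
        rwa [Real.dist_eq] at h3
    _ = ε := by rw [← Finset.sum_mul, t.2.2, one_mul]

/-- `z` is decomposed by the `N`-fold subdivision. -/
def Sm {X : Type} [TopologicalSpace X] (U V : Set X) {k : ℕ} (N : ℕ) (z : Chain X k) : Prop :=
  ∃ a b : Chain X k, ChainIn U a ∧ ChainIn V b ∧ (sdC k)^[N] z = a + b

section

variable {X : Type} [TopologicalSpace X] {U V : Set X} {k : ℕ}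

theorem Sm.mono (hSDS : Stmt_SDS) {N M : ℕ} (hNM : N ≤ M) {z : Chain X k} (h : Sm U V N z) :
    Sm U V M z := by
  obtain ⟨a, b, ha, hb, hab⟩ := h
  obtain ⟨d, rfl⟩ := Nat.exists_eq_add_of_le hNM
  refine ⟨(sdC k)^[d] a, (sdC k)^[d] b, ChainIn.sdN hSDS d ha, ChainIn.sdN hSDS d hb, ?_⟩
  rw [add_comm N d, Function.iterate_add_apply, hab, ← Module.End.pow_apply,
    ← Module.End.pow_apply, ← Module.End.pow_apply, map_add]

theorem Sm.add {N : ℕ} {z w : Chain X k} (hz : Sm U V N z) (hw : Sm U V N w) :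
    Sm U V N (z + w) := by
  obtain ⟨a, b, ha, hb, hab⟩ := hz
  obtain ⟨a', b', ha', hb', hab'⟩ := hw
  refine ⟨a + a', b + b', ha.add ha', hb.add hb', ?_⟩
  rw [← Module.End.pow_apply, map_add, Module.End.pow_apply, Module.End.pow_apply, hab, hab']
  abel

theorem Sm.zero (N : ℕ) : Sm U V N (0 : Chain X k) := by
  refine ⟨0, 0, ChainIn.zero, ChainIn.zero, ?_⟩
  rw [← Module.End.pow_apply, map_zero, add_zero]

theorem split_supp (y : Chain X k)
    (h : ∀ τ ∈ y.support, Set.range τ ⊆ U ∨ Set.range τ ⊆ V) :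
    ∃ a b : Chain X k, ChainIn U a ∧ ChainIn V b ∧ y = a + b := by
  classical
  refine ⟨y.filter fun τ => Set.range τ ⊆ U, y.filter fun τ => ¬ Set.range τ ⊆ U, ?_, ?_,
    (Finsupp.filter_add_filter_not y _).symm⟩
  · intro τ hτ
    rw [Finsupp.support_filter, Finset.mem_filter] at hτ
    exact hτ.2
  · intro τ hτ
    rw [Finsupp.support_filter, Finset.mem_filter] at hτ
    exact (h τ hτ.1).resolve_left hτ.2

theorem one (hSDA : Stmt_SDA) (hSDM : Stmt_SDM) (hSDS : Stmt_SDS) (hU : IsOpen U)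
    (hV : IsOpen V) (σ : C(Simp k, X)) (hσ : Set.range σ ⊆ U ∪ V) :
    ∃ N : ℕ, Sm U V N (Finsupp.single σ (1 : F2)) := by
  -- the Lebesgue number
  obtain ⟨δ, hδ, hball⟩ := lebesgue_number_lemma_of_metric (s := (Set.univ : Set (Simp k)))
    (c := fun b : Bool => if b then σ ⁻¹' U else σ ⁻¹' V) isCompact_univ
    (by
      intro b
      cases b
      · exact hV.preimage σ.continuous
      · exact hU.preimage σ.continuous)
    (by
      intro t _
      rw [Set.mem_iUnion]
      rcases hσ ⟨t, rfl⟩ with h | h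
      · exact ⟨true, h⟩
      · exact ⟨false, h⟩)
  obtain ⟨r, hr⟩ := (Metric.isBounded_iff (s := (Set.univ : Set (Simp k)))).mp
    isCompact_univ.isBounded
  have hr0 : 0 ≤ r := dist_nonneg.trans (hr (Set.mem_univ (vtx 0)) (Set.mem_univ (vtx 0)))
  have hlt : (k : ℝ) / (k + 1) < 1 := by
    rw [div_lt_one (by positivity)]
    linarith
  have hnn : 0 ≤ (k : ℝ) / (k + 1) := by positivity
  obtain ⟨N, hN⟩ : ∃ N : ℕ, ((k : ℝ) / (k + 1)) ^ N * r < δ := by
    obtain ⟨N, hN⟩ := exists_pow_lt_of_lt_one (show 0 < δ / (r + 1) by positivity) hlt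
    refine ⟨N, ?_⟩
    rw [lt_div_iff₀ (by positivity)] at hN
    have : ((k : ℝ) / (k + 1)) ^ N * r ≤ ((k : ℝ) / (k + 1)) ^ N * (r + 1) :=
      mul_le_mul_of_nonneg_left (by linarith) (pow_nonneg hnn N)
    linarith
  refine ⟨N, ?_⟩
  have hmesh := mesh hSDM (iotaA k) r (fun i j => hr (Set.mem_univ _) (Set.mem_univ _)) N
  apply split_supp
  intro τ hτ
  rw [sdN_single hSDA hSDS] at hτ
  obtain ⟨ρ, hρ, hρτ⟩ := supp_lin (cmap σ) _ hτ
  obtain ⟨q, hq, hqρ⟩ := supp_lin affC _ hρ
  have h1 : ρ = affS q := by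
    unfold affC at hqρ
    rw [Finsupp.lmapDomain_apply, Finsupp.mapDomain_single] at hqρ
    have := Finsupp.support_single_subset hqρ
    rwa [Finset.mem_singleton] at this
  have h2 : τ = σ.comp ρ := by
    rw [cmap_single] at hρτ
    have := Finsupp.support_single_subset hρτ
    rwa [Finset.mem_singleton] at this
  obtain ⟨b, hb⟩ := hball (q 0) (Set.mem_univ _)
  have h3 : ∀ t, affS q t ∈ Metric.ball (q 0) δ := by
    intro t
    have h4 : dist (comb q t) (q 0) ≤ ((k : ℝ) / (k + 1)) ^ N * r := dist_comb q (hmesh q hq) t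
    exact lt_of_le_of_lt h4 hN
  rw [h2, h1]
  cases b with
  | true =>
    left
    rintro _ ⟨t, rfl⟩
    exact hb (h3 t)
  | false =>
    right
    rintro _ ⟨t, rfl⟩
    exact hb (h3 t)

end

end MSMALL

theorem SMALL (hSDA : Stmt_SDA) (hSDM : Stmt_SDM) (hSDS : Stmt_SDS) : Stmt_SMALL := by
  classical
  intro X _ U V hU hV k z hz
  have key : ∀ s : Finset C(Simp k, X), (∀ σ ∈ s, Set.range σ ⊆ U ∪ V) →
      ∃ N : ℕ, MSMALL.Sm U V N (∑ σ ∈ s, (z σ) • Finsupp.single σ (1 : F2)) := by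
    intro s
    induction s using Finset.induction_on with
    | empty =>
      intro _
      exact ⟨0, by rw [Finset.sum_empty]; exact MSMALL.Sm.zero 0⟩
    | insert σ s hσ ih =>
      intro h
      obtain ⟨N, hN⟩ := ih fun τ hτ => h τ (Finset.mem_insert_of_mem hτ)
      obtain ⟨M, hM⟩ := MSMALL.one hSDA hSDM hSDS hU hV σ (h σ (Finset.mem_insert_self σ s))
      refine ⟨max N M, ?_⟩
      rw [Finset.sum_insert hσ]
      refine MSMALL.Sm.add ?_ (hN.mono hSDS (le_max_left _ _))
      have h2 : ∀ c : F2, c = 0 ∨ c = 1 := by decide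
      rcases h2 (z σ) with h0 | h1
      · rw [h0, zero_smul]
        exact MSMALL.Sm.zero _
      · rw [h1, one_smul]
        exact hM.mono hSDS (le_max_right _ _)
  obtain ⟨N, a, b, ha, hb, hab⟩ := key z.support hz
  have e : z = ∑ σ ∈ z.support, (z σ) • Finsupp.single σ (1 : F2) := by
    conv_lhs => rw [← Finsupp.sum_single z]
    rw [Finsupp.sum]
    exact Finset.sum_congr rfl fun σ _ => by simp
  rw [← e] at hab
  exact ⟨N, a, b, ha, hb, hab⟩

end Lit
end TC
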