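import Pool.Agent.TC.Lit.Basic2

/-!
# The equivariant map from the sphere to Milnor's space given by an involution (block LIT)
-/

set_option autoImplicit false
set_option linter.unusedSectionVars false

open scoped Manifold ContDiff Topology

noncomputable section

namespace TC
namespace Lit
namespace MSPH

/-- The coordinates of a point of the sphere, continued by zero. -/
def co (b : S2) (i : ℕ) : ℝ := if h : i < 3 then b.1 ⟨i, h⟩ else 0

theorem co_neg (b : S2) (i : ℕ) : co (-b) i = -co b i := by
  unfold co
  split_ifs with h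
  · rfl
  · simp

theorem co_cont (i : ℕ) : Continuous fun b : S2 => co b i := by
  unfold co
  split_ifs with h
  · exact (EuclideanSpace.proj (⟨i, h⟩ : Fin 3) : EuclideanSpace ℝ (Fin 3) →L[ℝ] ℝ).continuous.comp
      continuous_subtype_val
  · exact continuous_const

theorem co_big (b : S2) (i : ℕ) (h : ¬ i < 3) : co b i = 0 := dif_neg h

theorem co_sum (b : S2) : ∑ i ∈ Finset.range 3, co b i ^ 2 = 1 := by
  have h := b.2
  rw [mem_sphere_zero_iff_norm, EuclideanSpace.norm_eq] at h
  have h3 : (0 : ℝ) ≤ ∑ i, ‖(b : EuclideanSpace ℝ (Fin 3)) i‖ ^ 2 :=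
    Finset.sum_nonneg fun i _ => by positivity
  have h2 : ∑ i, ‖(b : EuclideanSpace ℝ (Fin 3)) i‖ ^ 2 = 1 := by
    have := Real.sq_sqrt h3
    rw [h] at this
    linarith
  rw [Finset.sum_range, ← h2]
  refine Finset.sum_congr rfl fun i _ => ?_
  rw [Real.norm_eq_abs, sq_abs]
  unfold co
  rw [dif_pos i.2]

/-- The join coordinates. -/
def tt (b : S2) : ℕ →₀ ℝ :=
  Finsupp.onFinset (Finset.range 3) (fun i => co b i ^ 2) (fun i hi => by
    by_contra hc
    rw [Finset.mem_range] at hc
    exact hi (by rw [co_big b i hc]; simp))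

theorem tt_apply (b : S2) (i : ℕ) : tt b i = co b i ^ 2 := rfl

variable {G : Type} [Group G]

open Classical in
/-- The map to Milnor's space. -/
def jj (θ : G) (b : S2) : EJ G where
  t := tt b
  g := fun i => if co b i < 0 then θ else 1
  nonneg := fun i => by rw [tt_apply]; positivity
  sum := by
    unfold tt
    rw [Finsupp.onFinset_sum _ (fun _ => rfl)]
    exact co_sum b
  norm := fun i hi => by
    rw [tt_apply] at hi
    have : co b i = 0 := by simpa using hi
    rw [if_neg (by rw [this]; exact lt_irrefl _)]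

theorem jj_neg (θ : G) (h : θ * θ = 1) (b : S2) : jj θ (-b) = θ • jj θ b := by
  classical
  have e1 : tt (-b) = tt b := by
    ext i
    rw [tt_apply, tt_apply, co_neg]
    ring
  have e2 : (jj θ (-b)).g = (θ • jj θ b).g := by
    funext i
    show (if co (-b) i < 0 then θ else 1) = if (tt b) i = 0 then 1 else θ * (if co b i < 0 then θ else 1)
    rw [co_neg, tt_apply]
    rcases lt_trichotomy (co b i) 0 with hc | hc | hc
    · rw [if_neg (by linarith), if_neg (pow_ne_zero 2 hc.ne), if_pos hc, h]
    · rw [hc]
      simp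
    · rw [if_pos (by linarith), if_neg (pow_ne_zero 2 hc.ne'), if_neg (by linarith), mul_one]
  have e0 : ∀ x y : EJ G, x.t = y.t → x.g = y.g → x = y := by
    intro x y hx hy
    cases x
    cases y
    congr
  exact e0 _ _ e1 e2

end MSPH

theorem SPH (hEJC : Stmt_EJC) : Stmt_SPH := by
  classical
  intro G _ _ _ θ h
  have hc : Continuous (MSPH.jj θ) := by
    refine (hEJC G S2 (MSPH.jj θ)).2 ⟨fun i => ?_, fun i => ?_⟩
    · show Continuous fun b : S2 => MSPH.co b i ^ 2
      exact (MSPH.co_cont i).pow 2
    · intro b hb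
      have hb0 : 0 < MSPH.co b i ^ 2 := hb
      have hne : MSPH.co b i ≠ 0 := by
        intro h0
        rw [h0] at hb0
        simp at hb0
      refine ContinuousAt.continuousWithinAt ?_
      show ContinuousAt (fun b : S2 => if MSPH.co b i < 0 then θ else 1) b
      rcases lt_or_gt_of_ne hne with hlt | hgt
      · have hev : (fun b : S2 => if MSPH.co b i < 0 then θ else 1) =ᶠ[𝓝 b] fun _ => θ := by
          filter_upwards [(MSPH.co_cont i).continuousAt.eventually (gt_mem_nhds hlt)] with c hc
          rw [if_pos hc]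
        exact continuousAt_const.congr hev.symm
      · have hev : (fun b : S2 => if MSPH.co b i < 0 then θ else 1) =ᶠ[𝓝 b] fun _ => 1 := by
          filter_upwards [(MSPH.co_cont i).continuousAt.eventually (lt_mem_nhds hgt)] with c hc
          rw [if_neg (not_lt.2 (le_of_lt hc))]
        exact continuousAt_const.congr hev.symm
  exact ⟨⟨MSPH.jj θ, hc⟩, fun b => MSPH.jj_neg θ h b⟩

end Lit
end TC
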