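import Pool.Agent.TC.Lit.Basic2

/-!
# Block LIT: module SPLIT
-/

set_option autoImplicit false
set_option linter.unusedSectionVars false

open scoped Topology

noncomputable section

namespace TC
namespace Lit

theorem SPLIT (hSDS : Stmt_SDS) (hSMALL : Stmt_SMALL) : Stmt_SPLIT := by
  intro X _ A B hA hB
  have hU : IsOpen Aᶜ := hA.isOpen_compl
  have hV : IsOpen Bᶜ := hB.isOpen_compl
  constructor
  · intro y hy
    rw [Set.compl_inter] at hy
    obtain ⟨N, a, b, ha, hb, e⟩ := hSMALL X Aᶜ Bᶜ hU hV 0 y hy
    refine ⟨a, b, ha, hb, ?_⟩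
    have h0 : ∀ z : Chain X 0, sdC 0 z = z := by
      intro z
      refine lin_ext (L := sdC 0) (L' := LinearMap.id) (fun σ => ?_) z
      show sdC 0 (Finsupp.single σ 1) = Finsupp.single σ 1
      rw [sdC, Finsupp.linearCombination_single, one_smul]
      show cmap σ (affC (Finsupp.single (iotaA 0) 1)) = _
      rw [affC, Finsupp.lmapDomain_apply, Finsupp.mapDomain_single, cmap_single]
      congr 1
      ext t
      have hs : ∀ s : Simp 0, s = vtx 0 := by
        intro s
        apply Subtype.ext
        funext i
        have hi : i = 0 := by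
          apply Fin.ext
          have := i.2
          simp at this ⊢
        subst hi
        have h1 : s.1 0 = 1 := by
          have := s.2.2
          rw [Fin.sum_univ_succ] at this
          simpa using this
        have h2 : (vtx (k := 0) 0).1 0 = 1 := by
          have := (vtx (k := 0) 0).2.2
          rw [Fin.sum_univ_succ] at this
          simpa using this
        exact h1.trans h2.symm
      show σ _ = σ t
      rw [hs (affS (iotaA 0) t), hs t]
    have h1 : ∀ N : ℕ, (sdC 0)^[N] y = y := by
      intro N
      induction N with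
      | zero => rfl
      | succ N ih => rw [Function.iterate_succ_apply', ih, h0]
    rw [← h1 N, e]
  · intro k y c d hy hc hd hbd
    rw [Set.compl_inter] at hy
    obtain ⟨N, a, b, ha, hb, e⟩ := hSMALL X Aᶜ Bᶜ hU hV (k + 1) y hy
    refine ⟨a + hoN N k c, b + hoN N k d, hoN N (k + 1) y, ha.add (ChainIn.hoN hSDS N hc),
      hb.add (ChainIn.hoN hSDS N hd), ?_, ?_⟩
    · rw [Set.compl_inter]
      exact ChainIn.hoN hSDS N hy
    · rw [bd_hoN hSDS, hbd, map_add, e]
      have : a + hoN N k c + (b + hoN N k d) + (y + (a + b) + (hoN N k c + hoN N k d)) =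
          (a + a) + ((b + b) + ((hoN N k c + hoN N k c) + ((hoN N k d + hoN N k d) + y))) := by
        abel
      rw [this, ch_add_self, ch_add_self, ch_add_self, ch_add_self]
      simp

end Lit
end TC
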