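import Pool.Agent.TC.Lit.Basic2

/-!
# Block LIT: module SUSP (suspension, the connecting homomorphism of Mayer–Vietoris)
-/

set_option autoImplicit false
set_option linter.unusedSectionVars false

open scoped Topology

noncomputable section

namespace TC
namespace Lit
namespace MSUSP

variable {X : Type} [TopologicalSpace X]

/-- The relation `a = δ z`. -/
def Conn (A B : Set X) {k : ℕ} (z : Chain X (k + 1)) (a : Chain X k) : Prop :=
  ∃ (v : Chain X (k + 1)) (b : Chain X k), ChainIn (A ∩ B)ᶜ v ∧ ChainIn Aᶜ a ∧ ChainIn Bᶜ b ∧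
    bd (z + v) = a + b

theorem Conn.add {A B : Set X} {k : ℕ} {z z' : Chain X (k + 1)} {a a' : Chain X k}
    (h : Conn A B z a) (h' : Conn A B z' a') : Conn A B (z + z') (a + a') := by
  obtain ⟨v, b, hv, ha, hb, e⟩ := h
  obtain ⟨v', b', hv', ha', hb', e'⟩ := h'
  refine ⟨v + v', b + b', hv.add hv', ha.add ha', hb.add hb', ?_⟩
  rw [add_add_add_comm, map_add, e, e', add_add_add_comm]

theorem Conn.ex (hSPLIT : Stmt_SPLIT) {A B : Set X} (hA : IsClosed A) (hB : IsClosed B) {k : ℕ}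
    (z : Chain X (k + 1)) (hz : RC (A ∩ B) z) : ∃ a, Conn A B z a := by
  have hz' : ChainIn (A ∩ B)ᶜ (bd z) := hz
  cases k with
  | zero =>
    obtain ⟨a, b, ha, hb, e⟩ := (hSPLIT X A B hA hB).1 _ hz'
    exact ⟨a, 0, b, ChainIn.zero, ha, hb, by rw [add_zero, e]⟩
  | succ k =>
    obtain ⟨a, b, v, ha, hb, hv, e⟩ := (hSPLIT X A B hA hB).2 k _ 0 0 hz' ChainIn.zero
      ChainIn.zero (by rw [bd_bd, add_zero])
    exact ⟨a, v, b, hv, ha, hb, by rw [map_add, e, ch_add_cancel]⟩

theorem Conn.rc {A B : Set X} {k : ℕ} {z : Chain X (k + 1)} {a : Chain X k}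
    (h : Conn A B z a) : RC (A ∪ B) a := by
  cases k with
  | zero => trivial
  | succ k =>
    obtain ⟨v, b, -, ha, hb, e⟩ := h
    have h0 : bd a = bd b := by
      have : bd (bd (z + v)) = bd (a + b) := by rw [e]
      rw [bd_bd, map_add] at this
      exact ch_add_eq_zero.1 this.symm
    show ChainIn (A ∪ B)ᶜ (bd a)
    rw [Set.compl_union]
    refine ha.bd.inter ?_
    rw [h0]
    exact hb.bd

theorem Conn.rb {A B : Set X} {k : ℕ} (hvA : ∀ z : Chain X (k + 1), RC A z → RB A z)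
    (hvB : ∀ z : Chain X (k + 1), RC B z → RB B z) {z : Chain X (k + 1)} {a : Chain X k}
    (h : Conn A B z a) (hr : RB (A ∪ B) a) : RB (A ∩ B) z := by
  obtain ⟨v, b, hv, ha, hb, e⟩ := h
  obtain ⟨w, hw⟩ := hr
  have hwA : ChainIn Aᶜ (a + bd w) := hw.mono (Set.compl_subset_compl.2 Set.subset_union_left)
  have hwB : ChainIn Bᶜ (a + bd w) := hw.mono (Set.compl_subset_compl.2 Set.subset_union_right)
  have h1 : RB B (z + v + w) := by
    refine hvB _ ?_
    show ChainIn Bᶜ (bd (z + v + w))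
    rw [map_add, e]
    have : a + b + bd w = b + (a + bd w) := by abel
    rw [this]
    exact hb.add hwB
  have h2 : RB A w := by
    refine hvA _ ?_
    show ChainIn Aᶜ (bd w)
    have : bd w = a + (a + bd w) := by rw [ch_add_cancel_left]
    rw [this]
    exact ha.add hwA
  have h3 : RB (A ∩ B) v := RB.of_chainIn hv
  have h4 : z = (z + v + w) + (w + v) := by
    have : (z + v + w) + (w + v) = (w + w) + ((v + v) + z) := by abel
    rw [this, ch_add_self, ch_add_self, zero_add, zero_add]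
  rw [h4]
  exact (h1.mono Set.inter_subset_right).add ((h2.mono Set.inter_subset_left).add h3)

end MSUSP

open MSUSP in
theorem SUSP (hSPLIT : Stmt_SPLIT) : Stmt_SUSP := by
  intro X _ A B hA hB k hvA hvB z z' hz hz'
  obtain ⟨a, ha⟩ := Conn.ex hSPLIT hA hB z hz
  obtain ⟨a', ha'⟩ := Conn.ex hSPLIT hA hB z' hz'
  exact ⟨a, a', ha.rc, ha'.rc, ha.rb hvA hvB, ha'.rb hvA hvB, (ha.add ha').rb hvA hvB⟩

end Lit
end TC
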