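import Pool.Agent.TC.Lit.Basic2

/-!
# Block LIT, module TFB: the fibre of `E → ℝP²` is `M`
-/

set_option autoImplicit false

open scoped Manifold ContDiff Topology

noncomputable section

namespace TC
namespace Lit

namespace MTFB

theorem ne_neg (b : S2) : b ≠ -b := by
  intro h
  have h1 : (b : EuclideanSpace ℝ (Fin 3)) = -(b : EuclideanSpace ℝ (Fin 3)) :=
    congrArg Subtype.val h
  have h2 : (b : EuclideanSpace ℝ (Fin 3)) = 0 := by
    have h4 : (2 : ℝ) • (b : EuclideanSpace ℝ (Fin 3)) = 0 := by
      rw [two_smul]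
      nth_rewrite 2 [h1]
      rw [add_neg_cancel]
    exact (smul_eq_zero.mp h4).resolve_left two_ne_zero
  have h3 := mem_sphere_zero_iff_norm.mp b.2
  rw [h2, norm_zero] at h3
  exact zero_ne_one h3

theorem simp0 (t : Simp 0) : t = vtx 0 := by
  apply Subtype.ext
  funext i
  have h1 : ∑ x : Fin 1, t.1 x = 1 := t.2.2
  have h2 : ∑ x : Fin 1, (vtx (k := 0) 0).1 x = 1 := (vtx (k := 0) 0).2.2
  rw [Fin.sum_univ_one] at h1 h2
  have : i = 0 := Fin.eq_zero i
  rw [this]
  exact h1.trans h2.symm

section

variable {M : Type} [TopologicalSpace M]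

omit [TopologicalSpace M] in
theorem mk_eq_iff (g : M → M) (hg : Function.Involutive g) (p q : M × S2) :
    Tot.mk g hg p = Tot.mk g hg q ↔ q = p ∨ q = (g p.1, -p.2) := by
  constructor
  · intro h
    rcases (Quotient.exact h : totRel g p q) with h | ⟨h1, h2⟩
    · exact Or.inl h
    · exact Or.inr (Prod.ext h1 h2)
  · rintro (h | h)
    · rw [h]
    · exact Quotient.sound (Or.inr ⟨by rw [h], by rw [h]⟩)

theorem tot_t2 [T2Space M] (g : M → M) (hg : Function.Involutive g) (hc : Continuous g) :
    T2Space (Tot g hg) := by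
  set τ : M × S2 → M × S2 := fun p => (g p.1, -p.2) with hτ
  have hτc : Continuous τ := (hc.comp continuous_fst).prodMk continuous_snd.neg
  have hττ : ∀ p, τ (τ p) = p := by
    intro p
    show (g (g p.1), - -p.2) = p
    rw [hg, neg_neg]
  have hq : IsOpenQuotientMap (Tot.mk g hg) := by
    refine ⟨Quotient.mk_surjective, continuous_quotient_mk', ?_⟩
    intro U hU
    have : IsOpen (Tot.mk g hg ⁻¹' (Tot.mk g hg '' U)) := by
      have he : Tot.mk g hg ⁻¹' (Tot.mk g hg '' U) = U ∪ τ ⁻¹' U := by
        ext p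
        constructor
        · rintro ⟨q, hq, hqp⟩
          rcases (mk_eq_iff g hg q p).mp hqp with h | h
          · left
            rw [h]
            exact hq
          · right
            show τ p ∈ U
            have : p = τ q := h
            rw [this, hττ]
            exact hq
        · rintro (h | h)
          · exact ⟨p, h, rfl⟩
          · exact ⟨τ p, h, (mk_eq_iff g hg (τ p) p).mpr (Or.inr (hττ p).symm)⟩
      rw [he]
      exact hU.union (hU.preimage hτc)
    exact this
  rw [t2Space_iff_of_isOpenQuotientMap hq]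
  have he : {q : (M × S2) × (M × S2) | Tot.mk g hg q.1 = Tot.mk g hg q.2} =
      {q | q.2 = q.1} ∪ {q | q.2 = τ q.1} := by
    ext q
    exact mk_eq_iff g hg q.1 q.2
  rw [he]
  exact (isClosed_eq continuous_snd continuous_fst).union
    (isClosed_eq continuous_snd (hτc.comp continuous_fst))

end

end MTFB

theorem TFB : Stmt_TFB := by
  intro n M _ _ _ _ _ ρ σ b hσ
  have hc : Continuous ρ.half := by
    have h1 : Continuous fun p : ℝ × M => ρ.act p.1 p.2 := ρ.smooth.continuous
    exact h1.comp (Continuous.prodMk_right (1 : ℝ))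
  have := MTFB.tot_t2 ρ.half ρ.half_invol hc
  have : T2Space (PB (Tot.proj ρ.half ρ.half_invol) σ) :=
    inferInstanceAs (T2Space {p : Simp 0 × Tot ρ.half ρ.half_invol //
      σ p.1 = Tot.proj ρ.half ρ.half_invol p.2})
  set f : M → PB (Tot.proj ρ.half ρ.half_invol) σ := fun m =>
    ⟨(vtx 0, Tot.mk _ _ (m, b)), hσ _⟩ with hf
  have hfc : Continuous f := by
    refine Continuous.subtype_mk ?_ _
    refine continuous_const.prodMk ?_
    exact continuous_quotient_mk'.comp (Continuous.prodMk_left b)
  have hinj : Function.Injective f := by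
    intro m m' h
    have h1 : Tot.mk ρ.half ρ.half_invol (m, b) = Tot.mk ρ.half ρ.half_invol (m', b) :=
      congrArg (fun p => p.1.2) h
    rcases (MTFB.mk_eq_iff _ _ _ _).mp h1 with h2 | h2
    · exact (congrArg Prod.fst h2).symm
    · exact absurd (congrArg Prod.snd h2) (MTFB.ne_neg b)
  have hsurj : Function.Surjective f := by
    rintro ⟨⟨t, e⟩, h⟩
    obtain ⟨⟨m, b'⟩, rfl⟩ := Quotient.mk_surjective e
    have h1 : RP2.mk b = RP2.mk b' := (hσ t).symm.trans h
    have ht := MTFB.simp0 t
    subst ht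
    rcases (Quotient.exact h1 : antiRel b b') with h2 | h2
    · subst h2
      exact ⟨m, rfl⟩
    · subst h2
      refine ⟨ρ.half m, ?_⟩
      apply Subtype.ext
      refine Prod.ext rfl ?_
      show Tot.mk ρ.half ρ.half_invol (ρ.half m, b) = Tot.mk ρ.half ρ.half_invol (m, -b)
      rw [MTFB.mk_eq_iff]
      right
      show (m, -b) = (ρ.half (ρ.half m), -b)
      rw [ρ.half_invol m]
  refine ⟨Continuous.homeoOfEquivCompactToT2 (f := Equiv.ofBijective f ⟨hinj, hsurj⟩) hfc, ?_⟩
  intro m
  rfl

end Lit
end TC
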