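import Pool.Agent.TC.Lit.Basic2

/-!
# Block LIT: module TFI (the fibres over points of the projective plane)
-/

set_option autoImplicit false
set_option linter.unusedSectionVars false

open scoped Manifold ContDiff Topology

noncomputable section

namespace TC
namespace Lit
namespace MTFI

variable {X Y : Type} [TopologicalSpace X] [TopologicalSpace Y]

/-- A map with a left inverse is injective in homology. -/
theorem retract (f : C(X, Y)) (g : C(Y, X)) (h : ∀ x, g (f x) = x) {k : ℕ}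
    (z : Chain X (k + 1))
    (hz : cmap f z ∈ LinearMap.range (bd : Chain Y (k + 2) →ₗ[F2] Chain Y (k + 1))) :
    z ∈ LinearMap.range (bd : Chain X (k + 2) →ₗ[F2] Chain X (k + 1)) := by
  obtain ⟨w, hw⟩ := hz
  refine ⟨cmap g w, ?_⟩
  rw [bd_cmap, hw, cmap_comp]
  have h1 : g.comp f = ContinuousMap.id X := ContinuousMap.ext h
  rw [h1, cmap_id]

end MTFI

open MTFI in
/-- TFI: the fibres over points of `ℝP²` and their images in the universal bundle. -/
theorem TFI (hTFB : Stmt_TFB) (hTRIV : Stmt_TRIV) (hDEV : Stmt_DEV) : Stmt_TFI := by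
  intro n M _ _ _ _ _ ρ D
  have hcs : ContinuousSMul (Diff0 n M) M := by
    refine ⟨?_⟩
    have h1 := (hDEV n M).1
    exact h1.comp ((continuous_subtype_val.comp continuous_fst).prodMk continuous_snd)
  have sq : ∀ e, (Borel.proj : C(Borel (Diff0 n M) M, BG (Diff0 n M))) (D.hh e) =
      D.h (Tot.proj ρ.half ρ.half_invol e) := by
    intro e
    obtain ⟨p, rfl⟩ := Quotient.exists_rep e
    obtain ⟨m, b⟩ := p
    have h1 := D.hh_mk m b
    have h2 := D.h_mk b
    show Borel.proj (D.hh (Tot.mk _ _ (m, b))) = D.h (RP2.mk b)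
    rw [h1, h2]
    rfl
  refine ⟨sq, ?_⟩
  · intro σ k z _ hz
    obtain ⟨b, hb⟩ := Quotient.exists_rep (σ (vtx 0))
    have hσ : ∀ t, σ t = RP2.mk b := by
      intro t
      have ht : t = vtx 0 := Subsingleton.elim _ _
      rw [ht]
      exact hb.symm
    obtain ⟨φ₀, hφ₀⟩ := hTFB n M ρ σ b hσ
    obtain ⟨φ, hφ⟩ := hTRIV (Diff0 n M) M 0 (D.h.comp σ) (ContinuousMap.const _ (D.j b))
      (fun t => by
        show BG.mk (D.j b) = D.h (σ t)
        rw [hσ t, D.h_mk])
    refine retract _ ⟨fun q => φ₀ (φ.symm q).2,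
      φ₀.continuous.comp (continuous_snd.comp φ.symm.continuous)⟩ ?_ z hz
    intro x
    obtain ⟨m, rfl⟩ := φ₀.surjective x
    show φ₀ (φ.symm (pbMap _ _ D.h D.hh sq σ (φ₀ m))).2 = φ₀ m
    have h1 : pbMap _ _ D.h D.hh sq σ (φ₀ m) = φ (vtx 0, m) := by
      apply Subtype.ext
      rw [hφ]
      show ((φ₀ m).1.1, D.hh (φ₀ m).1.2) = _
      rw [hφ₀, D.hh_mk]
      rfl
    rw [h1, Homeomorph.symm_apply_apply]

end Lit
end TC
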