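import Pool.Agent.TC.Lit.Basic2

/-!
# TOPH: the top homology of a closed connected manifold
-/

set_option autoImplicit false

open scoped Manifold ContDiff Topology

noncomputable section

namespace TC
namespace Lit

namespace MTOPH

variable {m : ℕ} {M : Type} [TopologicalSpace M] [T2Space M] [CompactSpace M]
  [ConnectedSpace M] [ChartedSpace (EuclideanSpace ℝ (Fin (m + 1))) M]

/-- A cycle which bounds at one point bounds. -/
theorem bounds (hMFD : Stmt_MFD) (hBALL : Stmt_BALL) (z : Chain M (m + 1)) (hz : bd z = 0)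
    (x : M) (hx : RB {x} z) :
    z ∈ LinearMap.range (bd : Chain M (m + 2) →ₗ[F2] Chain M (m + 1)) := by
  have hball : ∀ y : M, ∃ B ∈ 𝓝 y, ∀ y' ∈ B, RB {y'} z → RB B z := by
    intro y
    obtain ⟨-, B, hB, h⟩ := hBALL (m + 1) M (chartAt (EuclideanSpace ℝ (Fin (m + 1))) y) y
      (mem_chart_source _ y)
    exact ⟨B, hB, fun y' hy' h' => h y' hy' z (RC.of_bd_eq_zero hz) h'⟩
  have hopen : IsOpen {y : M | RB {y} z} := by
    rw [isOpen_iff_mem_nhds]
    intro y hy
    obtain ⟨B, hB, h⟩ := hball y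
    refine Filter.mem_of_superset hB fun y' hy' => ?_
    exact (h y (mem_of_mem_nhds hB) hy).mono (Set.singleton_subset_iff.mpr hy')
  have hclosed : IsClosed {y : M | RB {y} z} := by
    rw [← isOpen_compl_iff, isOpen_iff_mem_nhds]
    intro y hy
    obtain ⟨B, hB, h⟩ := hball y
    refine Filter.mem_of_superset hB fun y' hy' h' => hy ?_
    exact (h y' hy' h').mono (Set.singleton_subset_iff.mpr (mem_of_mem_nhds hB))
  have hall : {y : M | RB {y} z} = Set.univ := by
    rcases isClopen_iff.mp ⟨hclosed, hopen⟩ with h | h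
    · exact absurd (show x ∈ {y : M | RB {y} z} from hx) (by rw [h]; exact Set.notMem_empty x)
    · exact h
  rw [← RB_univ]
  refine (hMFD (m + 1) M).2 z (RC.of_bd_eq_zero hz) fun y _ => ?_
  have : y ∈ {y : M | RB {y} z} := by
    rw [hall]
    exact Set.mem_univ y
  exact this

end MTOPH

open MTOPH in
/-- TOPH. -/
theorem TOPH (hMFD : Stmt_MFD) (hBALL : Stmt_BALL) : Stmt_TOPH := by
  intro m M _ _ _ _ _
  refine ⟨?_, ?_⟩
  · intro k hk z hz
    rw [← RB_univ]
    exact (hMFD (m + 1) M).1 k hk z (RC.of_bd_eq_zero hz)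
  · intro z z' hz hz' hn hn'
    obtain ⟨x⟩ := (inferInstance : Nonempty M)
    have h1 : ¬ RB {x} z := fun h => hn (bounds hMFD hBALL z hz x h)
    have h2 : ¬ RB {x} z' := fun h => hn' (bounds hMFD hBALL z' hz' x h)
    have hU := (hBALL (m + 1) M (chartAt (EuclideanSpace ℝ (Fin (m + 1))) x) x
      (mem_chart_source _ x)).1
    have h3 : RB {x} (z + z') := by
      rcases hU z z' (RC.of_bd_eq_zero hz) (RC.of_bd_eq_zero hz') with h | h | h
      · exact absurd h h1
      · exact absurd h h2
      · exact h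
    exact bounds hMFD hBALL (z + z') (by rw [map_add, hz, hz', add_zero]) x h3

end Lit
end TC
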