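import Pool.Agent.TC.Lit.Basic2

/-!
# Comparison of fibre transfers along a map of bundles (block LIT)
-/

set_option autoImplicit false
set_option linter.unusedSectionVars false

noncomputable section

namespace TC
namespace Lit
namespace MTRCMP

variable {E₀ B₀ E B : Type} [TopologicalSpace E₀] [TopologicalSpace B₀]
  [TopologicalSpace E] [TopologicalSpace B]

theorem aba {α : Type} (a b : α →₀ F2) : a + b + a = b := by
  rw [add_right_comm, ch_add_self, zero_add]

/-- The map of pull backs given by a map of simplices. -/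
def pbc (π : C(E, B)) {j k : ℕ} (σ : C(Simp k, B)) (ψ : C(Simp j, Simp k)) :
    C(PB π (σ.comp ψ), PB π σ) :=
  ⟨fun p => ⟨(ψ p.1.1, p.1.2), p.2⟩, by
    refine Continuous.subtype_mk ?_ _
    exact (ψ.continuous.comp (continuous_fst.comp continuous_subtype_val)).prodMk
      (continuous_snd.comp continuous_subtype_val)⟩

/-- The double faces cancel. -/
theorem double_face (π : C(E, B)) (h : C(B₀, B)) {j d : ℕ}
    (D : ∀ σ : C(Simp j, B₀), Chain (PB π (h.comp σ)) d) (σ : C(Simp (j + 2), B₀)) :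
    ∑ i : Fin (j + 3), cmap (PB.face π (h.comp σ) i)
      (∑ l : Fin (j + 2), cmap (PB.face π (h.comp (σ.comp (face i))) l)
        (D ((σ.comp (face i)).comp (face l)))) = 0 := by
  let t : C(Simp j, Simp (j + 2)) → Chain (PB π (h.comp σ)) d := fun ψ =>
    cmap (pbc π (h.comp σ) ψ) (D (σ.comp ψ))
  have e : ∀ (i : Fin (j + 3)) (l : Fin (j + 2)),
      cmap (PB.face π (h.comp σ) i) (cmap (PB.face π (h.comp (σ.comp (face i))) l)
        (D ((σ.comp (face i)).comp (face l)))) = t ((face i).comp (face l)) := by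
    intro i l
    show cmap (PB.face π (h.comp σ) i) (cmap (PB.face π (h.comp (σ.comp (face i))) l)
        (D ((σ.comp (face i)).comp (face l)))) =
      cmap (pbc π (h.comp σ) ((face i).comp (face l))) (D (σ.comp ((face i).comp (face l))))
    exact cmap_comp _ _ _
  simp only [map_sum]
  simp only [e]
  rw [← Finset.sum_product']
  apply Finset.sum_involution (fun (p : Fin (j + 3) × Fin (j + 2)) _ =>
    ((p.1.succAbove p.2, p.2.predAbove p.1) : Fin (j + 3) × Fin (j + 2)))
  · rintro ⟨i, l⟩ -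
    have : (face (k := j + 1) i).comp (face (k := j) l) =
        (face (k := j + 1) (i.succAbove l)).comp (face (k := j) (l.predAbove i)) := by
      rw [face_face, face_face]
      congr 1
      funext x
      exact (Fin.succAbove_succAbove_succAbove_predAbove i l x).symm
    simp only [this]
    exact ch_add_self _
  · rintro ⟨i, l⟩ - hh heq
    have := congrArg Prod.fst heq
    exact Fin.succAbove_ne i l this
  · intro _ _
    exact Finset.mem_univ _
  · rintro ⟨i, l⟩ -
    simp only [Prod.mk.injEq]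
    constructor
    · exact Fin.succAbove_succAbove_predAbove i l
    · exact Fin.predAbove_predAbove_succAbove i l

section

variable {m : ℕ} {π₀ : C(E₀, B₀)} {π : C(E, B)} (h : C(B₀, B)) (hh : C(E₀, E))
  (sq : ∀ e, π (hh e) = h (π₀ e)) (T₀ : FibreTransfer m π₀) (T : FibreTransfer m π)

/-- The sum of the two transfers. -/
def S {j : ℕ} (σ : C(Simp j, B₀)) : Chain (PB π (h.comp σ)) (m + 1 + j) :=
  T.chain (h.comp σ) + cmap (pbMap π₀ π h hh sq σ) (T₀.chain σ)

theorem bd_S {j : ℕ} (σ : C(Simp (j + 1), B₀)) :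
    bd (k := m + 1 + j) (S h hh sq T₀ T σ) =
      ∑ i, cmap (PB.face π (h.comp σ) i) (S h hh sq T₀ T (σ.comp (face i))) := by
  show bd (k := m + 1 + j) (T.chain (h.comp σ) +
    cmap (pbMap π₀ π h hh sq σ) (T₀.chain σ)) = _
  rw [map_add, bd_cmap (k := m + 1 + j), T.bd_chain, T₀.bd_chain, map_sum,
    ← Finset.sum_add_distrib]
  refine Finset.sum_congr rfl fun i _ => ?_
  show _ = cmap (PB.face π (h.comp σ) i) (T.chain (h.comp (σ.comp (face i))) +
    cmap (pbMap π₀ π h hh sq (σ.comp (face i))) (T₀.chain (σ.comp (face i))))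
  rw [map_add, cmap_comp, cmap_comp]
  rfl

/-- The chains of the homotopy in dimension `j`. -/
abbrev DD (j : ℕ) := ∀ σ : C(Simp j, B₀), Chain (PB π (h.comp σ)) (m + 1 + j + 1)

/-- The property which permits to go on. -/
def Inv {j : ℕ} (D : DD (m := m) (π := π) h j) : Prop :=
  ∀ σ : C(Simp (j + 1), B₀), ∑ i, cmap (PB.face π (h.comp σ) i)
    (bd (k := m + 1 + j) (D (σ.comp (face i))) + S h hh sq T₀ T (σ.comp (face i))) = 0

/-- The chain which has to be bounded. -/
def O {j : ℕ} (D : DD (m := m) (π := π) h j) (σ : C(Simp (j + 1), B₀)) :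
    Chain (PB π (h.comp σ)) (m + 1 + (j + 1)) :=
  S h hh sq T₀ T σ + ∑ i, cmap (PB.face π (h.comp σ) i) (D (σ.comp (face i)))

theorem bd_O {j : ℕ} (D : DD (m := m) (π := π) h j) (hD : Inv h hh sq T₀ T D)
    (σ : C(Simp (j + 1), B₀)) : bd (k := m + 1 + j) (O h hh sq T₀ T D σ) = 0 := by
  show bd (k := m + 1 + j) (S h hh sq T₀ T σ +
    ∑ i, cmap (PB.face π (h.comp σ) i) (D (σ.comp (face i)))) = 0
  rw [map_add, bd_S, map_sum, ← Finset.sum_add_distrib, ← hD σ]
  refine Finset.sum_congr rfl fun i _ => ?_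
  rw [bd_cmap (k := m + 1 + j), map_add]
  exact add_comm (cmap (PB.face π (h.comp σ) i) (S h hh sq T₀ T (σ.comp (face i)))) _

theorem step (hF : TopFib m π) {j : ℕ} (D : DD (m := m) (π := π) h j)
    (hD : Inv h hh sq T₀ T D) : ∃ D' : DD (m := m) (π := π) h (j + 1),
      Inv h hh sq T₀ T D' ∧ ∀ σ, bd (k := m + 1 + (j + 1)) (D' σ) = O h hh sq T₀ T D σ := by
  have key : ∀ σ : C(Simp (j + 1), B₀), ∃ w : Chain (PB π (h.comp σ)) (m + 1 + (j + 1) + 1),
      bd (k := m + 1 + (j + 1)) w = O h hh sq T₀ T D σ := fun σ =>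
    (hF.top (h.comp σ)).1 (m + 1 + j) (Nat.le_add_right _ _) _ (bd_O h hh sq T₀ T D hD σ)
  choose D' hD' using key
  refine ⟨D', ?_, hD'⟩
  intro σ
  have e : ∀ i : Fin (j + 3), bd (k := m + 1 + (j + 1)) (D' (σ.comp (face i))) +
      S h hh sq T₀ T (σ.comp (face i)) =
      ∑ l, cmap (PB.face π (h.comp (σ.comp (face i))) l)
        (D ((σ.comp (face i)).comp (face l))) := by
    intro i
    rw [hD']
    exact aba (S h hh sq T₀ T (σ.comp (face i))) _
  have e2 := double_face π h D σ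
  simp only [← e] at e2
  exact e2

theorem base (hF : TopFib m π) (hyp : ∀ (σ : C(Simp 0, B₀)) (z : Chain (PB π₀ σ) (m + 1)),
    bd z = 0 → cmap (pbMap π₀ π h hh sq σ) z ∈
      LinearMap.range (bd : Chain (PB π (h.comp σ)) (m + 2) →ₗ[F2] Chain _ (m + 1)) →
    z ∈ LinearMap.range (bd : Chain (PB π₀ σ) (m + 2) →ₗ[F2] Chain _ (m + 1))) :
    ∃ D : DD (m := m) (π := π) h 0, Inv h hh sq T₀ T D ∧
      ∀ σ, bd (k := m + 1 + 0) (D σ) = S h hh sq T₀ T σ := by
  have key : ∀ σ : C(Simp 0, B₀), ∃ w : Chain (PB π (h.comp σ)) (m + 1 + 0 + 1),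
      bd (k := m + 1 + 0) w = S h hh sq T₀ T σ := by
    intro σ
    refine (hF.top (h.comp σ)).2 _ _ (T.bd_zero _) ?_ (T.fund _) ?_
    · have h1 : bd (k := m) (cmap (pbMap π₀ π h hh sq σ) (T₀.chain σ)) = 0 := by
        rw [bd_cmap (k := m), T₀.bd_zero, map_zero]
      exact h1
    · intro hc
      exact T₀.fund σ (hyp σ _ (T₀.bd_zero σ) hc)
  choose D hD using key
  refine ⟨D, ?_, hD⟩
  intro σ
  refine Finset.sum_eq_zero fun i _ => ?_
  rw [hD, ch_add_self, map_zero]

/-- The sequence of homotopies. -/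
theorem exists_seq (hF : TopFib m π)
    (hyp : ∀ (σ : C(Simp 0, B₀)) (z : Chain (PB π₀ σ) (m + 1)),
    bd z = 0 → cmap (pbMap π₀ π h hh sq σ) z ∈
      LinearMap.range (bd : Chain (PB π (h.comp σ)) (m + 2) →ₗ[F2] Chain _ (m + 1)) →
    z ∈ LinearMap.range (bd : Chain (PB π₀ σ) (m + 2) →ₗ[F2] Chain _ (m + 1))) :
    ∃ D : ∀ j, DD (m := m) (π := π) h j,
      (∀ σ, bd (k := m + 1 + 0) (D 0 σ) = S h hh sq T₀ T σ) ∧
      ∀ j σ, bd (k := m + 1 + (j + 1)) (D (j + 1) σ) = O h hh sq T₀ T (D j) σ := by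
  classical
  obtain ⟨D0, hD0, hD0'⟩ := base h hh sq T₀ T hF hyp
  let nx : ∀ j, {D : DD (m := m) (π := π) h j // Inv h hh sq T₀ T D} →
      {D : DD (m := m) (π := π) h (j + 1) // Inv h hh sq T₀ T D} := fun j D =>
    ⟨(step h hh sq T₀ T hF D.1 D.2).choose, (step h hh sq T₀ T hF D.1 D.2).choose_spec.1⟩
  let sq' : ∀ j, {D : DD (m := m) (π := π) h j // Inv h hh sq T₀ T D} := fun j =>
    Nat.rec (motive := fun j => {D : DD (m := m) (π := π) h j // Inv h hh sq T₀ T D})
      ⟨D0, hD0⟩ nx j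
  refine ⟨fun j => (sq' j).1, hD0', fun j σ => ?_⟩
  exact (step h hh sq T₀ T hF (sq' j).1 (sq' j).2).choose_spec.2 σ

theorem main (hF : TopFib m π)
    (hyp : ∀ (σ : C(Simp 0, B₀)) (z : Chain (PB π₀ σ) (m + 1)),
    bd z = 0 → cmap (pbMap π₀ π h hh sq σ) z ∈
      LinearMap.range (bd : Chain (PB π (h.comp σ)) (m + 2) →ₗ[F2] Chain _ (m + 1)) →
    z ∈ LinearMap.range (bd : Chain (PB π₀ σ) (m + 2) →ₗ[F2] Chain _ (m + 1)))
    (j : ℕ) (u : Coch E (m + 1 + j)) (hu : cobd u = 0) :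
    pull h (T.coch u) - T₀.coch (pull hh u) ∈ Bk B₀ j := by
  obtain ⟨D, hD0, hD⟩ := exists_seq h hh sq T₀ T hF hyp
  have hS : ∀ σ : C(Simp j, B₀), (pull h (T.coch u) - T₀.coch (pull hh u)) σ =
      pair u (cmap (PB.toE π (h.comp σ)) (S h hh sq T₀ T σ)) := by
    intro σ
    show pair u (cmap (PB.toE π (h.comp σ)) (T.chain (h.comp σ))) -
      pair (pull hh u) (cmap (PB.toE π₀ σ) (T₀.chain σ)) =
      pair u (cmap (PB.toE π (h.comp σ)) (T.chain (h.comp σ) +
        cmap (pbMap π₀ π h hh sq σ) (T₀.chain σ)))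
    rw [map_add, map_add, pair_pull, cmap_comp, cmap_comp, CharTwo.sub_eq_add]
    rfl
  have hz : ∀ (k : ℕ) (X : Type) [TopologicalSpace X] (f : C(X, E)) (v : Coch E k)
      (_ : cobd v = 0) (w : Chain X (k + 1)), pair v (cmap f (bd w)) = 0 := by
    intro k X _ f v hv w
    rw [← bd_cmap, ← pair_cobd, hv]
    have : pair (0 : Coch E (k + 1)) = 0 := by
      refine LinearMap.ext fun z => ?_
      exact lin_ext (L := pair (0 : Coch E (k + 1))) (L' := 0) (fun σ => by
        rw [pair_single]; simp) z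
    rw [this]
    rfl
  cases j with
  | zero =>
    have : pull h (T.coch u) - T₀.coch (pull hh u) = 0 := by
      funext σ
      rw [hS, ← hD0 σ]
      exact hz _ _ _ u hu _
    rw [this]
    exact Submodule.zero_mem _
  | succ j =>
    refine ⟨fun σ => pair u (cmap (PB.toE π (h.comp σ)) (D j σ)), ?_⟩
    funext σ
    rw [hS]
    show ∑ i, pair u (cmap (PB.toE π (h.comp (σ.comp (face i)))) (D j (σ.comp (face i)))) = _
    have h1 : pair u (cmap (PB.toE π (h.comp σ)) (O h hh sq T₀ T (D j) σ)) = 0 := by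
      rw [← hD j σ]
      exact hz _ _ _ u hu _
    have h2 : pair u (cmap (PB.toE π (h.comp σ)) (O h hh sq T₀ T (D j) σ)) =
        pair u (cmap (PB.toE π (h.comp σ)) (S h hh sq T₀ T σ)) +
          ∑ i, pair u (cmap (PB.toE π (h.comp (σ.comp (face i))))
            (D j (σ.comp (face i)))) := by
      show pair u (cmap (PB.toE π (h.comp σ)) (S h hh sq T₀ T σ +
        ∑ i, cmap (PB.face π (h.comp σ) i) (D j (σ.comp (face i))))) = _
      rw [map_add, map_add, map_sum, map_sum]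
      congr 1
      refine Finset.sum_congr rfl fun i _ => ?_
      rw [cmap_comp]
      rfl
    rw [h2] at h1
    have h3 := CharTwo.add_eq_zero.1 h1
    exact h3.symm

end

end MTRCMP

open MTRCMP in
/-- TRCMP: comparison of fibre transfers along a map of bundles. -/
theorem TRCMP : Stmt_TRCMP := by
  intro E₀ B₀ E B _ _ _ _ m π₀ π h hh sq T₀ T hF hyp j x
  obtain ⟨⟨u, hu⟩, rfl⟩ := Submodule.Quotient.mk_surjective _ x
  have hu' : cobd u = 0 := hu
  have key := MTRCMP.main h hh sq T₀ T hF hyp j u hu'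
  exact (Submodule.Quotient.eq _).2 key

end Lit
end TC
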