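import Pool.Agent.TC.Lit.Basic2

/-!
# Existence of fibre transfers (block LIT, module TREX)
-/

set_option autoImplicit false
set_option linter.unusedSectionVars false

open scoped Topology

noncomputable section

namespace TC
namespace Lit
namespace MTREX

variable {E B : Type} [TopologicalSpace E] [TopologicalSpace B] {m : ℕ} {π : C(E, B)}

/-- A system of chains over the `j`-simplices. -/
abbrev Sys (m : ℕ) (π : C(E, B)) (j : ℕ) : Type :=
  ∀ σ : C(Simp j, B), Chain (PB π σ) (m + 1 + j)

/-- The sum of the chains over the faces. -/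
def sumF {j : ℕ} (f : Sys m π j) (σ : C(Simp (j + 1), B)) : Chain (PB π σ) (m + 1 + j) :=
  ∑ i, cmap (PB.face π σ i) (f (σ.comp (face i)))

/-- The system can be continued. -/
def Good {j : ℕ} (f : Sys m π j) : Prop := ∀ σ : C(Simp (j + 1), B),
  ∃ w : Chain (PB π σ) (m + 1 + j + 1), bd (k := m + 1 + j) w = sumF f σ

/-- The map of pull backs for a map of simplices. -/
def PBm {j k : ℕ} (σ : C(Simp k, B)) (θ : C(Simp j, Simp k)) :
    C(PB π (σ.comp θ), PB π σ) :=
  ⟨fun p => ⟨(θ p.1.1, p.1.2), p.2⟩, by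
    refine Continuous.subtype_mk ?_ _
    exact (θ.continuous.comp (continuous_fst.comp continuous_subtype_val)).prodMk
      (continuous_snd.comp continuous_subtype_val)⟩

/-- The terms of the double sum. -/
def G {j : ℕ} (f : Sys m π j) (σ : C(Simp (j + 2), B)) (θ : C(Simp j, Simp (j + 2))) :
    Chain (PB π σ) (m + 1 + j) := cmap (PBm σ θ) (f (σ.comp θ))

theorem bd_sumF {j : ℕ} (f : Sys m π j) (g : Sys m π (j + 1))
    (hg : ∀ σ, bd (k := m + 1 + j) (g σ) = sumF f σ) (σ : C(Simp (j + 2), B)) :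
    bd (k := m + 1 + j) (sumF g σ) = 0 := by
  have e1 : bd (k := m + 1 + j) (sumF g σ) =
      ∑ i : Fin (j + 3), ∑ l : Fin (j + 2), G f σ ((face i).comp (face l)) := by
    unfold sumF
    refine (map_sum (bd (k := m + 1 + j)) _ _).trans ?_
    refine Finset.sum_congr rfl fun i _ => ?_
    refine (bd_cmap (k := m + 1 + j) (PB.face π σ i) (g (σ.comp (face i)))).trans ?_
    rw [hg]
    unfold sumF
    rw [map_sum]
    refine Finset.sum_congr rfl fun l _ => ?_
    rw [cmap_comp]
    rfl
  rw [e1, ← Finset.sum_product']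
  apply Finset.sum_involution (fun (p : Fin (j + 3) × Fin (j + 2)) _ =>
    ((p.1.succAbove p.2, p.2.predAbove p.1) : Fin (j + 3) × Fin (j + 2)))
  · rintro ⟨i, l⟩ -
    have : (face (k := j + 1) i).comp (face (k := j) l) =
        (face (k := j + 1) (i.succAbove l)).comp (face (k := j) (l.predAbove i)) := by
      rw [face_face, face_face]
      congr 1
      funext x
      exact (Fin.succAbove_succAbove_succAbove_predAbove i l x).symm
    simp only [this]
    exact ch_add_self _
  · rintro ⟨i, l⟩ - h heq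
    have := congrArg Prod.fst heq
    exact Fin.succAbove_ne i l this
  · intro _ _
    exact Finset.mem_univ _
  · rintro ⟨i, l⟩ -
    simp only [Prod.mk.injEq]
    constructor
    · exact Fin.succAbove_succAbove_predAbove i l
    · exact Fin.predAbove_predAbove_succAbove i l

theorem good_succ (hT : TopFib m π) {j : ℕ} (f : Sys m π j) (g : Sys m π (j + 1))
    (hg : ∀ σ, bd (k := m + 1 + j) (g σ) = sumF f σ) : Good g := by
  intro σ
  obtain ⟨w, hw⟩ := (hT.top σ).1 (m + 1 + j) (by omega) (sumF g σ) (bd_sumF f g hg σ)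
  exact ⟨w, hw⟩

theorem good_zero (hT : TopFib m π) (f : Sys m π 0) (h0 : ∀ σ, bd (k := m) (f σ) = 0)
    (h1 : ∀ σ, f σ ∉ LinearMap.range (bd (k := m + 1) : Chain (PB π σ) (m + 1 + 1) →ₗ[F2] _)) :
    Good f := by
  intro σ
  have c : ∀ i : Fin 2, bd (k := m) (cmap (PB.face π σ i) (f (σ.comp (face i)))) = 0 := by
    intro i
    refine (bd_cmap (k := m) (PB.face π σ i) (f (σ.comp (face i)))).trans ?_
    rw [h0, map_zero]
  have n : ∀ i : Fin 2, cmap (PB.face π σ i) (f (σ.comp (face i))) ∉
      LinearMap.range (bd : Chain (PB π σ) (m + 2) →ₗ[F2] Chain (PB π σ) (m + 1)) :=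
    fun i hi => h1 _ (hT.inj σ i (f (σ.comp (face i))) (h0 _) hi)
  obtain ⟨w, hw⟩ := (hT.top σ).2 _ _ (c 0) (c 1) (n 0) (n 1)
  refine ⟨w, hw.trans ?_⟩
  unfold sumF
  rw [Fin.sum_univ_two]

/-- The systems. -/
def st (hT : TopFib m π) (f : Sys m π 0) (hf : Good f) : ∀ j : ℕ, {g : Sys m π j // Good g}
  | 0 => ⟨f, hf⟩
  | j + 1 => ⟨fun σ => Classical.choose ((st hT f hf j).2 σ),
      good_succ hT (st hT f hf j).1 _ fun σ => Classical.choose_spec ((st hT f hf j).2 σ)⟩

theorem st_succ (hT : TopFib m π) (f : Sys m π 0) (hf : Good f) (j : ℕ)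
    (σ : C(Simp (j + 1), B)) : bd (k := m + 1 + j) ((st hT f hf (j + 1)).1 σ) =
      sumF (st hT f hf j).1 σ := Classical.choose_spec ((st hT f hf j).2 σ)

end MTREX

open MTREX in
/-- TREX: existence of fibre transfers. -/
theorem TREX : Stmt_TREX := by
  intro E B _ _ m π hT
  choose f h0 h1 using hT.ex
  have hf : Good (m := m) (j := 0) f := good_zero hT f h0 h1
  exact ⟨{
    chain := fun {j} σ => (st hT f hf j).1 σ
    bd_chain := fun {j} σ => st_succ hT f hf j σ
    bd_zero := h0
    fund := h1 }⟩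

end Lit
end TC
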