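import Pool.Agent.TC.Lit.Basic2

/-!
# Trivialisation of pull backs along simplices (block LIT, module TRIV)
-/

set_option autoImplicit false
set_option linter.unusedSectionVars false

open scoped Topology

noncomputable section

namespace TC
namespace Lit
namespace MTRIV

variable {G : Type} [Group G] [TopologicalSpace G] {X : Type} [TopologicalSpace X]
  [MulAction G X] {j : ℕ}

theorem continuous_Borel_mk : Continuous (Borel.mk : EJ G × X → Borel G X) :=
  continuous_quotient_mk'

theorem proj_mk (p : EJ G × X) : (Borel.proj : C(Borel G X, BG G)) (Borel.mk p) = BG.mk p.1 := rfl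

/-- The trivialisation. -/
def tr (σ : C(Simp j, BG G)) (τ : C(Simp j, EJ G)) (h : ∀ t, BG.mk (τ t) = σ t)
    (p : Simp j × X) : PB (Borel.proj : C(Borel G X, BG G)) σ :=
  ⟨(p.1, Borel.mk (τ p.1, p.2)), (h p.1).symm⟩

theorem continuous_tr (σ : C(Simp j, BG G)) (τ : C(Simp j, EJ G)) (h : ∀ t, BG.mk (τ t) = σ t) :
    Continuous (tr (X := X) σ τ h) := by
  refine Continuous.subtype_mk ?_ _
  refine continuous_fst.prodMk (continuous_Borel_mk.comp ?_)
  exact (τ.continuous.comp continuous_fst).prodMk continuous_snd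

/-- The open quotient map onto the pull back. -/
def W (σ : C(Simp j, BG G)) : Set (Simp j × (EJ G × X)) :=
  (Prod.map id Borel.mk : Simp j × (EJ G × X) → Simp j × Borel G X) ⁻¹'
    {p | σ p.1 = (Borel.proj : C(Borel G X, BG G)) p.2}

/-- The open quotient map onto the pull back. -/
def qW (σ : C(Simp j, BG G)) (w : W (X := X) σ) : PB (Borel.proj : C(Borel G X, BG G)) σ :=
  ⟨(w.1.1, Borel.mk w.1.2), w.2⟩

theorem isOpenQuotientMap_qW [IsTopologicalGroup G] [ContinuousSMul G X] (hOPN : Stmt_OPN)
    (σ : C(Simp j, BG G)) : IsOpenQuotientMap (qW (X := X) σ) := by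
  have h1 : IsOpenQuotientMap
      (Prod.map id Borel.mk : Simp j × (EJ G × X) → Simp j × Borel G X) :=
    IsOpenQuotientMap.id.prodMap (hOPN G X).2.1
  exact h1.restrictPreimage {p | σ p.1 = (Borel.proj : C(Borel G X, BG G)) p.2}

end MTRIV

open MTRIV in
/-- TRIV: the pull back of `EG ×_G X → BG` along a singular simplex is trivial. -/
theorem TRIV (hTRS : Stmt_TRS) (hOPN : Stmt_OPN) (hEJA : Stmt_EJA) : Stmt_TRIV := by
  intro G _ _ _ X _ _ _ j σ τ h
  obtain ⟨-, -, o3, -⟩ := hOPN G X
  have hfree := (hEJA G).2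
  -- the retraction of the quotient space
  obtain ⟨g, hg, hg'⟩ := hTRS G (W (X := X) σ) (fun w => τ w.1.1) (fun w => w.1.2.1)
    (τ.continuous.comp (continuous_fst.comp continuous_subtype_val))
    (continuous_fst.comp (continuous_snd.comp continuous_subtype_val))
    (fun w => (h w.1.1).trans w.2)
  set r : W (X := X) σ → Simp j × X := fun w => (w.1.1, (g w)⁻¹ • w.1.2.2) with hr
  have hrc : Continuous r :=
    (continuous_fst.comp continuous_subtype_val).prodMk
      (hg.inv.smul (continuous_snd.comp (continuous_snd.comp continuous_subtype_val)))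
  have hrq : ∀ w, tr σ τ h (r w) = qW σ w := by
    intro w
    refine Subtype.ext (Prod.ext rfl ?_)
    show Borel.mk (τ w.1.1, (g w)⁻¹ • w.1.2.2) = Borel.mk w.1.2
    rw [o3]
    refine ⟨(g w)⁻¹, ?_⟩
    refine Prod.ext ?_ rfl
    show τ w.1.1 = (g w)⁻¹ • w.1.2.1
    rw [hg' w, smul_smul, inv_mul_cancel, one_smul]
  have hq := isOpenQuotientMap_qW (X := X) hOPN σ
  have hbij : Function.Bijective (tr (X := X) σ τ h) := by
    constructor
    · rintro ⟨t, x⟩ ⟨t', x'⟩ he
      have e1 : (t, Borel.mk (τ t, x)) = (t', Borel.mk (τ t', x')) := congrArg Subtype.val he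
      have e2 : t = t' := congrArg Prod.fst e1
      subst e2
      have e3 : Borel.mk (τ t, x) = Borel.mk (τ t, x') := congrArg Prod.snd e1
      obtain ⟨a, ha⟩ := (o3 _ _).1 e3
      have e4 : a • τ t = τ t := (congrArg Prod.fst ha).symm
      have e5 : x = a • x' := congrArg Prod.snd ha
      rw [hfree a _ e4, one_smul] at e5
      rw [e5]
    · intro p
      obtain ⟨w, rfl⟩ := hq.surjective p
      exact ⟨r w, hrq w⟩
  refine ⟨{
    toEquiv := Equiv.ofBijective _ hbij
    continuous_toFun := continuous_tr σ τ h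
    continuous_invFun := ?_ }, fun p => rfl⟩
  rw [hq.isQuotientMap.continuous_iff]
  have : (Equiv.ofBijective _ hbij).invFun ∘ qW σ = r := by
    funext w
    show (Equiv.ofBijective _ hbij).symm (qW σ w) = r w
    rw [Equiv.symm_apply_eq]
    exact (hrq w).symm
  rw [this]
  exact hrc

end Lit
end TC
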