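import Pool.Agent.TC.Lit.Basic2

/-!
# TRS: continuity of the translation function of `EG → BG`
-/

set_option autoImplicit false

open scoped Manifold ContDiff Topology

noncomputable section

namespace TC
namespace Lit
namespace MTRS

variable {G : Type} [Group G]

theorem smul_t (g : G) (x : EJ G) : (g • x).t = x.t := rfl

theorem smul_g (g : G) (x : EJ G) (i : ℕ) (h : x.t i ≠ 0) : (g • x).g i = g * x.g i := if_neg h

theorem exists_pos (x : EJ G) : ∃ i, 0 < x.t i := by
  by_contra hcon
  push Not at hcon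
  have h0 : ∀ i, x.t i = 0 := fun i => le_antisymm (hcon i) (x.nonneg i)
  have h1 := x.sum
  have h2 : (x.t.sum fun _ a => a) = 0 := by
    rw [Finsupp.sum]
    exact Finset.sum_eq_zero fun i _ => h0 i
  rw [h2] at h1
  exact zero_ne_one h1

theorem exists_smul {x y : EJ G} (h : BG.mk x = BG.mk y) : ∃ g : G, y = g • x := by
  have h1 : MulAction.orbitRel G (EJ G) y x := Quotient.exact h.symm
  obtain ⟨g, hg⟩ := h1
  exact ⟨g, hg.symm⟩

end MTRS

open MTRS in
/-- TRS: continuity of the translation function of `EG → BG`. -/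
theorem TRS (hEJC : Stmt_EJC) : Stmt_TRS := by
  intro G _ _ _ Y _ a b ha hb hab
  obtain ⟨hat, hag⟩ := (hEJC G Y a).1 ha
  obtain ⟨-, hbg⟩ := (hEJC G Y b).1 hb
  choose γ hγ using fun y => exists_smul (hab y)
  refine ⟨γ, ?_, hγ⟩
  have ht : ∀ y i, (b y).t i = (a y).t i := by
    intro y i
    rw [hγ y, smul_t]
  rw [continuous_iff_continuousAt]
  intro y₀
  obtain ⟨i, hi⟩ := exists_pos (a y₀)
  have hopen : IsOpen {y | 0 < (a y).t i} := isOpen_lt continuous_const (hat i)
  have hset : {y | 0 < (b y).t i} = {y | 0 < (a y).t i} := by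
    ext y
    simp only [Set.mem_ofPred_eq, ht]
  have hbg' := hbg i
  rw [hset] at hbg'
  have hc : ContinuousOn (fun y => (b y).g i * ((a y).g i)⁻¹) {y | 0 < (a y).t i} :=
    hbg'.mul (hag i).inv
  have heq : Set.EqOn γ (fun y => (b y).g i * ((a y).g i)⁻¹) {y | 0 < (a y).t i} := by
    intro y hy
    have h1 : (b y).g i = γ y * (a y).g i := by
      rw [hγ y, smul_g _ _ _ (ne_of_gt hy)]
    show γ y = (b y).g i * ((a y).g i)⁻¹
    rw [h1, mul_inv_cancel_right]
  exact (hc.congr heq).continuousAt (hopen.mem_nhds hi)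

end Lit
end TC
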