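import Pool.Agent.TC.Lit.UUQ

/-!
# Block LIT, module UCL: every Gauss map of the universal bundle has a classifying map
-/

set_option autoImplicit false
set_option linter.unusedSectionVars false

open scoped Manifold ContDiff Topology

noncomputable section

namespace TC
namespace Lit

open MUUQ in
theorem UCL (hGBSO : Stmt_GBSO) (hORI : Stmt_ORI) (hOPN : Stmt_OPN) (hDEV : Stmt_DEV) :
    Stmt_UCL := by
  intro n M _ _ _ o Φ
  have hc : Continuous fun p : (EJ (Diff0 n M) × Unit) × TangentBundle (𝓡 n) M =>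
      Φ.toFun (p.1.1, p.2) :=
    Φ.cont.comp ((continuous_fst.comp continuous_fst).prodMk continuous_snd)
  obtain ⟨Fb, hFb⟩ := descend hGBSO hORI hOPN hDEV o Unit
    (fun p => Φ.toFun (p.1.1, p.2)) ⟨hc, fun y m => Φ.lin y.1 m⟩
    (fun g x _ v => Φ.inv g x v)
  refine ⟨⟨fun e => Fb (e, ()), Fb.continuous.comp (continuous_id.prodMk continuous_const)⟩, ?_⟩
  intro x m t ht
  exact hFb (x, ()) m t ht

end Lit
end TC
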