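import Pool.Agent.TC.Lit.Basic2

/-!
# Existence of a Gauss map of the universal bundle (block LIT, module UGE)
-/

set_option autoImplicit false
set_option linter.unusedSectionVars false

open scoped Manifold ContDiff Topology

noncomputable section

namespace TC
namespace Lit
namespace MUGE

/-- Unit vectors of `ℓ²`. -/
def e (k : ℕ) : L2 := lp.single 2 k (1 : ℝ)

theorem e_apply (k l : ℕ) : (e k : ℕ → ℝ) l = if l = k then 1 else 0 := by
  unfold e
  rw [lp.single_apply, Pi.single_apply]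

section

variable {n : ℕ} {M : Type} [TopologicalSpace M] [ChartedSpace (EuclideanSpace ℝ (Fin n)) M]
  [IsManifold (𝓡 n) ∞ M]

/-! ## Tangent maps of diffeomorphisms -/

theorem tm_mul (f g : DiffM n M) (v : TangentBundle (𝓡 n) M) :
    tangentMap (𝓡 n) (𝓡 n) (f * g).fn v =
      tangentMap (𝓡 n) (𝓡 n) f.fn (tangentMap (𝓡 n) (𝓡 n) g.fn v) := by
  have h : tangentMap (𝓡 n) (𝓡 n) (f.fn ∘ g.fn) =
      tangentMap (𝓡 n) (𝓡 n) f.fn ∘ tangentMap (𝓡 n) (𝓡 n) g.fn :=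
    tangentMap_comp (f.contMDiff.mdifferentiable (by simp)) (g.contMDiff.mdifferentiable (by simp))
  exact congrFun h v

theorem tm_one (v : TangentBundle (𝓡 n) M) :
    tangentMap (𝓡 n) (𝓡 n) (1 : DiffM n M).fn v = v := by
  have h : tangentMap (𝓡 n) (𝓡 n) (id : M → M) = id := tangentMap_id
  exact congrFun h v

theorem tm_inj (f : DiffM n M) : Function.Injective (tangentMap (𝓡 n) (𝓡 n) f.fn) := by
  intro v w h
  have h1 : ∀ v, tangentMap (𝓡 n) (𝓡 n) f⁻¹.fn (tangentMap (𝓡 n) (𝓡 n) f.fn v) = v := by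
    intro v
    rw [← tm_mul, inv_mul_cancel, tm_one]
  rw [← h1 v, ← h1 w, h]

theorem mfd_inj (f : DiffM n M) (m : M) :
    Function.Injective (mfderiv (𝓡 n) (𝓡 n) f.fn m) := by
  intro v w h
  have h1 : tangentMap (𝓡 n) (𝓡 n) f.fn (⟨m, v⟩ : TangentBundle (𝓡 n) M) =
      tangentMap (𝓡 n) (𝓡 n) f.fn (⟨m, w⟩ : TangentBundle (𝓡 n) M) := by
    show (⟨f.fn m, mfderiv (𝓡 n) (𝓡 n) f.fn m v⟩ : TangentBundle (𝓡 n) M) =
      ⟨f.fn m, mfderiv (𝓡 n) (𝓡 n) f.fn m w⟩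
    rw [h]
  have h2 := tm_inj f h1
  injection h2

/-! ## The Gauss map -/

/-- `T (g_i x)⁻¹ v`. -/
def pul (i : ℕ) (x : EJ (Diff0 n M)) (v : TangentBundle (𝓡 n) M) : TangentBundle (𝓡 n) M :=
  tangentMap (𝓡 n) (𝓡 n) (DiffM.fn ((x.g i)⁻¹ : Diff0 n M).1) v

variable {N : ℕ} (Φ : TangentBundle (𝓡 n) M → EuclideanSpace ℝ (Fin N))
  (s : ℕ → EJ (Diff0 n M) → ℝ)

/-- The coordinates of the Gauss map. -/
def co (i : ℕ) (a : Fin N) (p : EJ (Diff0 n M) × TangentBundle (𝓡 n) M) : ℝ :=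
  s i p.1 * (Φ (pul i p.1 p.2)) a

/-- The terms of the Gauss map. -/
def term (i : ℕ) (p : EJ (Diff0 n M) × TangentBundle (𝓡 n) M) : L2 :=
  ∑ a : Fin N, co Φ s i a p • e (Nat.pair i a)

/-- The Gauss map. -/
def tot (p : EJ (Diff0 n M) × TangentBundle (𝓡 n) M) : L2 := ∑ᶠ i, term Φ s i p

variable {Φ s}

theorem term_zero {i : ℕ} {p : EJ (Diff0 n M) × TangentBundle (𝓡 n) M} (h : s i p.1 = 0) :
    term Φ s i p = 0 := by
  unfold term
  refine Finset.sum_eq_zero fun a _ => ?_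
  unfold co
  rw [h, zero_mul, zero_smul]

theorem co_cont (hD : P_DEV n M) (hJ : Stmt_EJC) (hΦ : Continuous Φ) {i : ℕ}
    (hs : Continuous (s i)) (hs0 : ∀ x, x.t i = 0 → ∀ᶠ y in 𝓝 x, s i y = 0) (a : Fin N) :
    Continuous (co Φ s i a) := by
  rw [continuous_iff_continuousAt]
  rintro ⟨x, v⟩
  by_cases h : x.t i = 0
  · have h1 : ∀ᶠ p : EJ (Diff0 n M) × TangentBundle (𝓡 n) M in 𝓝 (x, v), co Φ s i a p = 0 := by
      have h2 := (continuous_fst.tendsto (x, v)).eventually (hs0 x h)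
      filter_upwards [h2] with p hp
      unfold co
      rw [hp, zero_mul]
    have h3 : ContinuousAt (fun _ : EJ (Diff0 n M) × TangentBundle (𝓡 n) M => (0 : ℝ)) (x, v) :=
      continuousAt_const
    exact h3.congr (h1.mono fun p hp => hp.symm)
  · have hpos : 0 < x.t i := lt_of_le_of_ne (x.nonneg i) (Ne.symm h)
    obtain ⟨ht, hg⟩ := (hJ (Diff0 n M) (EJ (Diff0 n M)) id).1 continuous_id
    have hopen : IsOpen {y : EJ (Diff0 n M) | 0 < y.t i} := isOpen_lt continuous_const (ht i)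
    have hgx : ContinuousAt (fun y : EJ (Diff0 n M) => y.g i) x :=
      (hg i).continuousAt (hopen.mem_nhds hpos)
    have h5 : ContinuousAt (fun y : EJ (Diff0 n M) => ((y.g i)⁻¹ : Diff0 n M).1) x :=
      continuous_subtype_val.continuousAt.comp (hgx.inv)
    have h6 : ContinuousAt (fun p : EJ (Diff0 n M) × TangentBundle (𝓡 n) M =>
        ((p.1.g i)⁻¹ : Diff0 n M).1) (x, v) :=
      ContinuousAt.comp (g := fun y : EJ (Diff0 n M) => ((y.g i)⁻¹ : Diff0 n M).1)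
        (f := Prod.fst) h5 continuousAt_fst
    have h4 : ContinuousAt (fun p : EJ (Diff0 n M) × TangentBundle (𝓡 n) M =>
        (((p.1.g i)⁻¹ : Diff0 n M).1, p.2)) (x, v) := h6.prodMk continuousAt_snd
    have h3 : ContinuousAt (fun p : EJ (Diff0 n M) × TangentBundle (𝓡 n) M => pul i p.1 p.2)
        (x, v) :=
      ContinuousAt.comp (g := fun p : DiffM n M × TangentBundle (𝓡 n) M =>
        tangentMap (𝓡 n) (𝓡 n) p.1.fn p.2) hD.2.continuousAt h4
    have h7 : ContinuousAt (fun p : EJ (Diff0 n M) × TangentBundle (𝓡 n) M =>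
        (Φ (pul i p.1 p.2)) a) (x, v) :=
      ContinuousAt.comp (g := fun y : EuclideanSpace ℝ (Fin N) => y a)
        (EuclideanSpace.proj a : EuclideanSpace ℝ (Fin N) →L[ℝ] ℝ).continuous.continuousAt
        (ContinuousAt.comp (g := Φ) hΦ.continuousAt h3)
    have h8 : ContinuousAt (fun p : EJ (Diff0 n M) × TangentBundle (𝓡 n) M => s i p.1) (x, v) :=
      (hs.comp continuous_fst).continuousAt
    exact h8.mul h7

theorem term_cont (hD : P_DEV n M) (hJ : Stmt_EJC) (hΦ : Continuous Φ) {i : ℕ}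
    (hs : Continuous (s i)) (hs0 : ∀ x, x.t i = 0 → ∀ᶠ y in 𝓝 x, s i y = 0) :
    Continuous (term Φ s i) :=
  continuous_finsetSum _ fun a _ => (co_cont hD hJ hΦ hs hs0 a).smul continuous_const

theorem tot_cont (hD : P_DEV n M) (hJ : Stmt_EJC) (hΦ : Continuous Φ)
    (hs : ∀ i, Continuous (s i)) (hs0 : ∀ i x, x.t i = 0 → ∀ᶠ y in 𝓝 x, s i y = 0)
    (hs1 : ∀ x, ∃ K : ℕ, ∀ᶠ y in 𝓝 x, ∀ i, K ≤ i → s i y = 0) : Continuous (tot Φ s) := by
  refine continuous_finsum (fun i => term_cont hD hJ hΦ (hs i) (hs0 i)) ?_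
  rintro ⟨x, v⟩
  obtain ⟨K, hK⟩ := hs1 x
  refine ⟨{p | ∀ i, K ≤ i → s i p.1 = 0}, (continuous_fst.tendsto (x, v)).eventually hK, ?_⟩
  refine (Set.finite_lt_nat K).subset ?_
  rintro i ⟨p, hp1, hp2⟩
  by_contra hi
  replace hi : K ≤ i := not_lt.1 hi
  exact hp1 (term_zero (hp2 i hi))

theorem tot_eq {x : EJ (Diff0 n M)} {K : ℕ} (hK : ∀ i, K ≤ i → s i x = 0)
    (v : TangentBundle (𝓡 n) M) : tot Φ s (x, v) = ∑ i ∈ Finset.range K, term Φ s i (x, v) := by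
  refine finsum_eq_sum_of_support_subset _ ?_
  intro i hi
  rw [Finset.coe_range, Set.mem_Iio]
  by_contra h
  exact hi (term_zero (hK i (not_lt.1 h)))

/-- Linearity and injectivity. -/
theorem tot_lin (hlin : ∀ m : M, ∃ L : TangentSpace (𝓡 n) m →ₗ[ℝ] EuclideanSpace ℝ (Fin N),
      Function.Injective L ∧ ∀ v : TangentSpace (𝓡 n) m, Φ ⟨m, v⟩ = L v)
    {x : EJ (Diff0 n M)} {K : ℕ} (hK : ∀ i, K ≤ i → s i x = 0) {i₀ : ℕ} (hi₀ : s i₀ x ≠ 0)
    (m : M) : ∃ L : TangentSpace (𝓡 n) m →ₗ[ℝ] L2,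
    Function.Injective L ∧ ∀ v : TangentSpace (𝓡 n) m, tot Φ s (x, ⟨m, v⟩) = L v := by
  have h1 : ∀ i : ℕ, ∃ Ψ : TangentSpace (𝓡 n) m →ₗ[ℝ] EuclideanSpace ℝ (Fin N),
      Function.Injective Ψ ∧ ∀ v : TangentSpace (𝓡 n) m, Φ (pul i x ⟨m, v⟩) = Ψ v := by
    intro i
    obtain ⟨L, hL, hL'⟩ := hlin (DiffM.fn ((x.g i)⁻¹ : Diff0 n M).1 m)
    refine ⟨L.comp (mfderiv (𝓡 n) (𝓡 n) (DiffM.fn ((x.g i)⁻¹ : Diff0 n M).1) m).toLinearMap,
      ?_, fun v => ?_⟩
    · exact hL.comp (mfd_inj ((x.g i)⁻¹ : Diff0 n M).1 m)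
    · exact hL' _
  choose Ψ hΨ hΨ' using h1
  refine ⟨∑ i ∈ Finset.range K, ∑ a : Fin N, LinearMap.smulRight
    (s i x • ((EuclideanSpace.proj a : EuclideanSpace ℝ (Fin N) →L[ℝ] ℝ).toLinearMap.comp (Ψ i)))
    (e (Nat.pair i a)), ?_, fun v => ?_⟩
  · rw [injective_iff_map_eq_zero]
    intro v hv
    have hlt : i₀ < K := by
      by_contra h
      exact hi₀ (hK i₀ (not_lt.1 h))
    apply hΨ i₀
    rw [map_zero]
    ext b
    have h2 := congrArg (fun y : L2 => (y : ℕ → ℝ) (Nat.pair i₀ b)) hv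
    simp only [LinearMap.sum_apply, LinearMap.smulRight_apply, LinearMap.smul_apply,
      LinearMap.comp_apply, lp.coeFn_zero, Pi.zero_apply] at h2
    rw [lp.coeFn_sum, Finset.sum_apply] at h2
    have h3 : ∀ i ∈ Finset.range K, i ≠ i₀ →
        (((∑ a : Fin N, (s i x • (EuclideanSpace.proj a : EuclideanSpace ℝ (Fin N) →L[ℝ]
          ℝ).toLinearMap (Ψ i v)) • e (Nat.pair i a) : L2)) : ℕ → ℝ) (Nat.pair i₀ b) = 0 := by
      intro i _ hi
      rw [lp.coeFn_sum, Finset.sum_apply]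
      refine Finset.sum_eq_zero fun a _ => ?_
      rw [lp.coeFn_smul, Pi.smul_apply, e_apply, if_neg, smul_zero]
      intro h4
      exact hi (Nat.pair_eq_pair.1 h4).1.symm
    rw [Finset.sum_eq_single_of_mem i₀ (Finset.mem_range.2 hlt) h3, lp.coeFn_sum,
      Finset.sum_apply, Finset.sum_eq_single_of_mem b (Finset.mem_univ b)] at h2
    · rw [lp.coeFn_smul, Pi.smul_apply, e_apply, if_pos rfl, smul_eq_mul, mul_one,
        smul_eq_mul] at h2
      rcases mul_eq_zero.1 h2 with h3 | h3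
      · exact absurd h3 hi₀
      · exact h3
    · intro a _ hab
      rw [lp.coeFn_smul, Pi.smul_apply, e_apply, if_neg, smul_zero]
      intro h4
      exact hab (Fin.ext (Nat.pair_eq_pair.1 h4).2.symm)
  · rw [tot_eq hK]
    simp only [LinearMap.sum_apply, LinearMap.smulRight_apply, LinearMap.smul_apply,
      LinearMap.comp_apply]
    refine Finset.sum_congr rfl fun i _ => Finset.sum_congr rfl fun a _ => ?_
    unfold co
    rw [hΨ']
    rfl

theorem pul_inv {i : ℕ} (g : Diff0 n M) {x : EJ (Diff0 n M)} (h : x.t i ≠ 0)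
    (v : TangentBundle (𝓡 n) M) :
    pul i (g • x) (tangentMap (𝓡 n) (𝓡 n) (DiffM.fn g.1) v) = pul i x v := by
  have h1 : (g • x).g i = g * x.g i := if_neg h
  unfold pul
  rw [h1]
  have h2 : ((g * x.g i)⁻¹ : Diff0 n M).1 = ((x.g i)⁻¹ : Diff0 n M).1 * (g⁻¹ : Diff0 n M).1 := by
    rw [mul_inv_rev]
    rfl
  have h3 : (g⁻¹ : Diff0 n M).1 * g.1 = 1 := by
    have h4 : (g⁻¹ * g : Diff0 n M) = 1 := inv_mul_cancel g
    exact congrArg Subtype.val h4
  rw [h2, ← tm_mul, mul_assoc, h3, mul_one]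

/-- Invariance. -/
theorem tot_inv (hs : ∀ i (g : Diff0 n M) x, s i (g • x) = s i x)
    (hs0 : ∀ i x, x.t i = 0 → s i x = 0)
    (g : Diff0 n M) (x : EJ (Diff0 n M)) (v : TangentBundle (𝓡 n) M) :
    tot Φ s (g • x, tangentMap (𝓡 n) (𝓡 n) (DiffM.fn g.1) v) = tot Φ s (x, v) := by
  unfold tot
  refine finsum_congr fun i => ?_
  by_cases h : x.t i = 0
  · have h1 : s i (g • x) = 0 := by rw [hs]; exact hs0 i x h
    rw [term_zero (p := (g • x, _)) h1, term_zero (p := (x, v)) (hs0 i x h)]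
  · unfold term
    refine Finset.sum_congr rfl fun a _ => ?_
    have h1 : co Φ s i a (g • x, tangentMap (𝓡 n) (𝓡 n) (DiffM.fn g.1) v) =
        co Φ s i a (x, v) := by
      show s i (g • x) * (Φ (pul i (g • x) (tangentMap (𝓡 n) (𝓡 n) (DiffM.fn g.1) v))) a =
        s i x * (Φ (pul i x v)) a
      rw [hs, pul_inv g h]
    rw [h1]

end

end MUGE

/-- There is a Gauss map of the universal bundle. -/
theorem UGE (hWHI : Stmt_WHI) (hCUT : Stmt_CUT) (hDEV : Stmt_DEV) (hEJC : Stmt_EJC) :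
    Stmt_UGE := by
  intro n M _ _ _ _ _
  obtain ⟨N, Φ, hΦ, hlin⟩ := hWHI n M
  obtain ⟨s, s1, s2, s3, s4, s5, s6⟩ := hCUT (Diff0 n M)
  refine ⟨⟨MUGE.tot Φ s, MUGE.tot_cont (hDEV n M) hEJC hΦ s1 s5 s6, fun x m => ?_,
    MUGE.tot_inv s3 fun i x h => (s5 i x h).self_of_nhds⟩⟩
  obtain ⟨K, hK⟩ := s6 x
  obtain ⟨i₀, hi₀⟩ := s4 x
  exact MUGE.tot_lin hlin hK.self_of_nhds hi₀.ne' m

end Lit
end TC
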