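import Pool.Agent.TC.Lit.Basic2

/-!
# Block LIT: module UNI (finite unions of compact convex sets)
-/

set_option autoImplicit false
set_option linter.unusedSectionVars false

open scoped Topology

noncomputable section

namespace TC
namespace Lit
namespace MUNI

theorem single (hCONV : Stmt_CONV) (hPT : Stmt_PT) {n : ℕ} {A : Set (Fin n → ℝ)}
    (hA : IsCompact A) (hc : Convex ℝ A) : Van n A ∧ Det n A := by
  rcases A.eq_empty_or_nonempty with rfl | ⟨x, hx⟩
  · exact ⟨fun k _ z _ => RB_empty z, fun z _ _ => RB_empty z⟩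
  · constructor
    · intro k hk z hz
      exact hCONV n A hA hc x hx (k + 1) z hz
        ((hPT n x).1 k hk z (RC.mono hz (Set.singleton_subset_iff.2 hx)))
    · intro z hz h
      exact hCONV n A hA hc x hx n z hz (h x hx)

theorem closed {n : ℕ} (L : List (Set (Fin n → ℝ)))
    (h : ∀ A ∈ L, IsCompact A ∧ Convex ℝ A) : IsClosed (⋃ A ∈ L, A) := by
  induction L with
  | nil => simp
  | cons B L ih =>
    have e : (⋃ A ∈ B :: L, A) = B ∪ ⋃ A ∈ L, A := by
      ext x; simp
    rw [e]
    exact (h B (by simp)).1.isClosed.union (ih fun A hA => h A (by simp [hA]))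

end MUNI

open MUNI in
theorem UNI (hMV : Stmt_MV) (hCONV : Stmt_CONV) (hPT : Stmt_PT) : Stmt_UNI := by
  intro n L
  induction hl : L.length generalizing L with
  | zero =>
    intro _
    have : L = [] := List.length_eq_zero_iff.1 hl
    subst this
    have e : (⋃ A ∈ ([] : List (Set (Fin n → ℝ))), A) = ∅ := by simp
    rw [e]
    exact ⟨fun k _ z _ => RB_empty z, fun z _ _ => RB_empty z⟩
  | succ l ih =>
    intro hL
    match L, hl, hL with
    | B :: L, hl, hL =>
      have hl' : L.length = l := by simpa using hl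
      have e : (⋃ A ∈ B :: L, A) = B ∪ ⋃ A ∈ L, A := by
        ext x; simp
      have hB := hL B (by simp)
      have hL' : ∀ A ∈ L, IsCompact A ∧ Convex ℝ A := fun A hA => hL A (by simp [hA])
      have e2 : (B ∩ ⋃ A ∈ L, A) = ⋃ A ∈ L.map (fun A => B ∩ A), A := by
        ext x
        simp only [Set.mem_inter_iff, Set.mem_iUnion, List.mem_map, exists_prop]
        constructor
        · rintro ⟨hx, A, hA, hxA⟩
          exact ⟨B ∩ A, ⟨A, hA, rfl⟩, hx, hxA⟩
        · rintro ⟨_, ⟨A, hA, rfl⟩, hx, hxA⟩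
          exact ⟨hx, A, hA, hxA⟩
      have h1 := single hCONV hPT hB.1 hB.2
      have h2 := ih L hl' hL'
      have h3 := ih (L.map (fun A => B ∩ A)) (by simpa using hl') (by
        intro A hA
        obtain ⟨A', hA', rfl⟩ := List.mem_map.1 hA
        exact ⟨hB.1.inter_right (hL' A' hA').1.isClosed, hB.2.inter (hL' A' hA').2⟩)
      have h4 := hMV (Fin n → ℝ) B (⋃ A ∈ L, A) hB.1.isClosed (closed L hL') n (by
        rw [e2]
        exact h3.1)
      rw [e]
      exact ⟨h4.1 h1.1 h2.1, h4.2 h1.2 h2.2⟩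

end Lit
end TC
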