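import Pool.Agent.TC.Lit.Basic2

/-!
# Block LIT, module UUQ: all classifying maps of the universal vertical tangent bundle induce the
same map in cohomology
-/

set_option autoImplicit false
set_option linter.unusedSectionVars false

open scoped Manifold ContDiff Topology

noncomputable section

namespace TC
namespace Lit
namespace MUUQ

variable {n : ℕ} {M : Type} [TopologicalSpace M] [ChartedSpace (EuclideanSpace ℝ (Fin n)) M]
  [IsManifold (𝓡 n) ∞ M]

theorem csmul (hDEV : Stmt_DEV) : ContinuousSMul (Diff0 n M) M := ⟨by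
  have h := (hDEV n M).1
  exact h.comp ((continuous_subtype_val.comp continuous_fst).prodMk continuous_snd)⟩

/-- The space `BSO 0` is a point. -/
theorem bso_zero : Subsingleton (BSO 0) := by
  refine ⟨fun a b => ?_⟩
  induction a using Quotient.inductionOn with
  | h v =>
    induction b using Quotient.inductionOn with
    | h w =>
      congr 1
      exact Subtype.ext (funext fun i => i.elim0)

/-- There is a positive basis, or `BSO n` is a point. -/
theorem pos_or (o : Orient M n) (m : M) :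
    (∃ t : Module.Basis (Fin n) ℝ (TangentSpace (𝓡 n) m), t.orientation = o.or m) ∨
      Subsingleton (BSO n) := by
  rcases n with _ | n
  · exact Or.inr bso_zero
  · left
    let b : Module.Basis (Fin (n + 1)) ℝ (TangentSpace (𝓡 (n + 1)) m) :=
      (EuclideanSpace.basisFun (Fin (n + 1)) ℝ).toBasis
    exact ⟨b.adjustToOrientation (o.or m), b.orientation_adjustToOrientation (o.or m)⟩

/-- Uniqueness of the classifying map of a Gauss family. -/
theorem uniq (o : Orient M n) {Y : Type} (Φ : Y × TangentBundle (𝓡 n) M → L2)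
    (F F' : Y × M → BSO n) (h : IsGaussCl o Φ F) (h' : IsGaussCl o Φ F') (y : Y) (m : M) :
    F (y, m) = F' (y, m) := by
  rcases pos_or o m with ⟨t, ht⟩ | hs
  · obtain ⟨hli, e⟩ := h y m t ht
    obtain ⟨hli', e'⟩ := h' y m t ht
    rw [e, e']
  · exact Subsingleton.elim _ _

/-- Invariance of a Gauss family over `EG × Y`. -/
def Inv {Y : Type} (H : (EJ (Diff0 n M) × Y) × TangentBundle (𝓡 n) M → L2) : Prop :=
  ∀ (g : Diff0 n M) (x : EJ (Diff0 n M)) (y : Y) (v : TangentBundle (𝓡 n) M),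
    H ((g • x, y), tangentMap (𝓡 n) (𝓡 n) (DiffM.fn g.1) v) = H ((x, y), v)

/-- The classifying map of an invariant family is invariant. -/
theorem inv_cl (hORI : Stmt_ORI) (o : Orient M n) {Y : Type}
    (H : (EJ (Diff0 n M) × Y) × TangentBundle (𝓡 n) M → L2) (hH : Inv H)
    (F : (EJ (Diff0 n M) × Y) × M → BSO n) (hF : IsGaussCl o H F) (g : Diff0 n M)
    (x : EJ (Diff0 n M)) (y : Y) (m : M) :
    F ((g • x, y), DiffM.fn g.1 m) = F ((x, y), m) := by
  rcases pos_or o m with ⟨t, ht⟩ | hs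
  · obtain ⟨t', ht', htt⟩ := hORI n M o g.1 g.2 m t ht
    obtain ⟨hli, e⟩ := hF (x, y) m t ht
    obtain ⟨hli', e'⟩ := hF (g • x, y) (DiffM.fn g.1 m) t' ht'
    rw [e, e']
    congr 1
    refine Subtype.ext (funext fun i => ?_)
    show H ((g • x, y), ⟨DiffM.fn g.1 m, t' i⟩) = H ((x, y), ⟨m, t i⟩)
    rw [← htt i, hH]
  · exact Subsingleton.elim _ _

/-- The classifying map of an invariant Gauss family descends to the Borel construction. -/
theorem descend (hGBSO : Stmt_GBSO) (hORI : Stmt_ORI) (hOPN : Stmt_OPN) (hDEV : Stmt_DEV)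
    (o : Orient M n) (Y : Type) [TopologicalSpace Y]
    (H : (EJ (Diff0 n M) × Y) × TangentBundle (𝓡 n) M → L2)
    (hG : IsGauss n M (EJ (Diff0 n M) × Y) H) (hH : Inv H) :
    ∃ Fb : C(Borel (Diff0 n M) M × Y, BSO n),
      IsGaussCl o H (fun p => Fb (Borel.mk (p.1.1, p.2), p.1.2)) := by
  obtain ⟨F, hF⟩ := hGBSO n M o (EJ (Diff0 n M) × Y) H hG
  have := csmul (n := n) (M := M) hDEV
  obtain ⟨-, hq, hrel, -⟩ := hOPN (Diff0 n M) M
  have hqY : IsOpenQuotientMap (Prod.map (Borel.mk : EJ (Diff0 n M) × M → Borel (Diff0 n M) M)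
      (id : Y → Y)) := hq.prodMap IsOpenQuotientMap.id
  have hFc : ∀ p q : EJ (Diff0 n M) × M, Borel.mk p = Borel.mk q → ∀ y : Y,
      F ((p.1, y), p.2) = F ((q.1, y), q.2) := by
    intro p q hpq y
    obtain ⟨g, rfl⟩ := (hrel p q).1 hpq
    exact inv_cl hORI o H hH F hF g q.1 y q.2
  let sec : Borel (Diff0 n M) M → EJ (Diff0 n M) × M := Function.surjInv hq.surjective
  have hsec : ∀ e, Borel.mk (sec e) = e := Function.surjInv_eq hq.surjective
  let fb : Borel (Diff0 n M) M × Y → BSO n := fun e => F (((sec e.1).1, e.2), (sec e.1).2)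
  have hfb : ∀ (p : EJ (Diff0 n M) × M) (y : Y), fb (Borel.mk p, y) = F ((p.1, y), p.2) :=
    fun p y => hFc _ _ (hsec _) y
  have hcont : Continuous fb := by
    rw [← hqY.continuous_comp_iff]
    have : (fb ∘ Prod.map (Borel.mk : EJ (Diff0 n M) × M → Borel (Diff0 n M) M) (id : Y → Y)) =
        fun p => F ((p.1.1, p.2), p.1.2) := by
      funext p
      exact hfb p.1 p.2
    rw [this]
    exact F.continuous.comp (((continuous_fst.comp continuous_fst).prodMk continuous_snd).prodMk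
      (continuous_snd.comp continuous_fst))
  refine ⟨⟨fb, hcont⟩, ?_⟩
  intro p m t ht
  obtain ⟨hli, e⟩ := hF p m t ht
  refine ⟨hli, ?_⟩
  show fb (Borel.mk (p.1, m), p.2) = _
  rw [hfb, ← e]

/-- The linear homotopy between two maps into `L2`. -/
def lh (Φ Ψ : EJ (Diff0 n M) × TangentBundle (𝓡 n) M → L2) :
    (EJ (Diff0 n M) × unitInterval) × TangentBundle (𝓡 n) M → L2 :=
  fun p => (1 - (p.1.2 : ℝ)) • Φ (p.1.1, p.2) + (p.1.2 : ℝ) • Ψ (p.1.1, p.2)

/-- A homotopy of Gauss maps gives a homotopy of classifying maps. -/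
theorem step (hGBSO : Stmt_GBSO) (hORI : Stmt_ORI) (hOPN : Stmt_OPN) (hDEV : Stmt_DEV)
    (hHMT : Stmt_HMT) (o : Orient M n) (Φ Ψ : EJ (Diff0 n M) × TangentBundle (𝓡 n) M → L2)
    (hΦ : Continuous Φ) (hΨ : Continuous Ψ)
    (hΦi : ∀ (g : Diff0 n M) (x : EJ (Diff0 n M)) (v : TangentBundle (𝓡 n) M),
      Φ (g • x, tangentMap (𝓡 n) (𝓡 n) (DiffM.fn g.1) v) = Φ (x, v))
    (hΨi : ∀ (g : Diff0 n M) (x : EJ (Diff0 n M)) (v : TangentBundle (𝓡 n) M),
      Ψ (g • x, tangentMap (𝓡 n) (𝓡 n) (DiffM.fn g.1) v) = Ψ (x, v))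
    (hlin : ∀ (x : EJ (Diff0 n M)) (m : M), ∃ L L' : TangentSpace (𝓡 n) m →ₗ[ℝ] L2,
      (∀ s ∈ Set.Icc (0 : ℝ) 1, Function.Injective (fun v => (1 - s) • L v + s • L' v)) ∧
      (∀ v : TangentSpace (𝓡 n) m, Φ (x, ⟨m, v⟩) = L v) ∧
      (∀ v : TangentSpace (𝓡 n) m, Ψ (x, ⟨m, v⟩) = L' v)) :
    ∃ f g : C(Borel (Diff0 n M) M, BSO n), IsGaussCl o Φ (fun p => f (Borel.mk p)) ∧
      IsGaussCl o Ψ (fun p => g (Borel.mk p)) ∧
      ∀ (k : ℕ) (c : HH (BSO n) k), HH.map f c = HH.map g c := by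
  have hG : IsGauss n M (EJ (Diff0 n M) × unitInterval) (lh Φ Ψ) := by
    constructor
    · unfold lh
      have h1 : Continuous fun p : (EJ (Diff0 n M) × unitInterval) × TangentBundle (𝓡 n) M =>
          (p.1.1, p.2) := (continuous_fst.comp continuous_fst).prodMk continuous_snd
      have h2 : Continuous fun p : (EJ (Diff0 n M) × unitInterval) × TangentBundle (𝓡 n) M =>
          (p.1.2 : ℝ) := continuous_subtype_val.comp (continuous_snd.comp continuous_fst)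
      exact ((continuous_const.sub h2).smul (hΦ.comp h1)).add (h2.smul (hΨ.comp h1))
    · rintro ⟨x, s⟩ m
      obtain ⟨L, L', hinj, h1, h2⟩ := hlin x m
      refine ⟨(1 - (s : ℝ)) • L + (s : ℝ) • L', hinj s s.2, fun v => ?_⟩
      show (1 - (s : ℝ)) • Φ (x, ⟨m, v⟩) + (s : ℝ) • Ψ (x, ⟨m, v⟩) = _
      rw [h1, h2]
      rfl
  have hI : Inv (lh Φ Ψ) := by
    intro g x s v
    show (1 - (s : ℝ)) • Φ (g • x, tangentMap (𝓡 n) (𝓡 n) (DiffM.fn g.1) v) +
      (s : ℝ) • Ψ (g • x, tangentMap (𝓡 n) (𝓡 n) (DiffM.fn g.1) v) = _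
    rw [hΦi, hΨi]
    rfl
  obtain ⟨Fb, hFb⟩ := descend hGBSO hORI hOPN hDEV o unitInterval (lh Φ Ψ) hG hI
  let i (s : unitInterval) : C(Borel (Diff0 n M) M, BSO n) :=
    ⟨fun e => Fb (e, s), Fb.continuous.comp (continuous_id.prodMk continuous_const)⟩
  refine ⟨i 0, i 1, ?_, ?_, fun k c => ?_⟩
  · intro x m t ht
    have key := hFb (x, 0) m t ht
    have e : (fun j => lh Φ Ψ ((x, 0), ⟨m, t j⟩)) = fun j => Φ (x, ⟨m, t j⟩) := by
      funext j
      show (1 - ((0 : unitInterval) : ℝ)) • Φ (x, ⟨m, t j⟩) +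
        ((0 : unitInterval) : ℝ) • Ψ (x, ⟨m, t j⟩) = _
      simp
    obtain ⟨hli, hk⟩ := key
    have hli' : LinearIndependent ℝ (fun j => Φ (x, ⟨m, t j⟩)) := e ▸ hli
    refine ⟨hli', ?_⟩
    show Fb (Borel.mk (x, m), 0) = _
    refine hk.trans ?_
    congr 1
    exact Subtype.ext e
  · intro x m t ht
    have key := hFb (x, 1) m t ht
    have e : (fun j => lh Φ Ψ ((x, 1), ⟨m, t j⟩)) = fun j => Ψ (x, ⟨m, t j⟩) := by
      funext j
      show (1 - ((1 : unitInterval) : ℝ)) • Φ (x, ⟨m, t j⟩) +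
        ((1 : unitInterval) : ℝ) • Ψ (x, ⟨m, t j⟩) = _
      simp
    obtain ⟨hli, hk⟩ := key
    have hli' : LinearIndependent ℝ (fun j => Ψ (x, ⟨m, t j⟩)) := e ▸ hli
    refine ⟨hli', ?_⟩
    show Fb (Borel.mk (x, m), 1) = _
    refine hk.trans ?_
    congr 1
    exact Subtype.ext e
  · exact hHMT _ _ Fb (i 0) (i 1) (fun _ => rfl) (fun _ => rfl) k c

/-- Two classifying maps of the same Gauss map are equal. -/
theorem uniq_map (hOPN : Stmt_OPN) (hDEV : Stmt_DEV) (o : Orient M n)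
    (Φ : EJ (Diff0 n M) × TangentBundle (𝓡 n) M → L2) (f g : C(Borel (Diff0 n M) M, BSO n))
    (hf : IsGaussCl o Φ (fun p => f (Borel.mk p))) (hg : IsGaussCl o Φ (fun p => g (Borel.mk p))) :
    f = g := by
  have := csmul (n := n) (M := M) hDEV
  obtain ⟨-, hq, -, -⟩ := hOPN (Diff0 n M) M
  ext1 e
  obtain ⟨⟨x, m⟩, rfl⟩ := hq.surjective e
  exact uniq o Φ _ _ hf hg x m

end MUUQ

open MUUQ in
theorem UUQ (hGBSO : Stmt_GBSO) (hORI : Stmt_ORI) (hOPN : Stmt_OPN) (hHMT : Stmt_HMT)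
    (hLHT : Stmt_LHT) (hDEV : Stmt_DEV) : Stmt_UUQ := by
  intro n M _ _ _ o f f' ⟨Φ, hf⟩ ⟨Φ', hf'⟩ k c
  obtain ⟨a, b, hab⟩ := hLHT
  have hf1 : IsGaussCl o Φ.toFun (fun p => f (Borel.mk p)) := hf
  have hf2 : IsGaussCl o Φ'.toFun (fun p => f' (Borel.mk p)) := hf'
  obtain ⟨f1, g1, hf1', hg1, h1⟩ := step hGBSO hORI hOPN hDEV hHMT o Φ.toFun
    (fun p => a (Φ.toFun p)) Φ.cont (a.continuous.comp Φ.cont) Φ.inv
    (fun g x v => by rw [Φ.inv]) (fun x m => by
      obtain ⟨L, hL, hLv⟩ := Φ.lin x m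
      obtain ⟨L', hL', hLv'⟩ := Φ'.lin x m
      refine ⟨L, a.toLinearMap.comp L, fun s hs => (hab _ L L' hL hL' s hs).1, hLv, fun v => ?_⟩
      rw [hLv]
      rfl)
  obtain ⟨f2, g2, hf2', hg2, h2⟩ := step hGBSO hORI hOPN hDEV hHMT o
    (fun p => a (Φ.toFun p)) (fun p => b (Φ'.toFun p)) (a.continuous.comp Φ.cont)
    (b.continuous.comp Φ'.cont) (fun g x v => by rw [Φ.inv]) (fun g x v => by rw [Φ'.inv])
    (fun x m => by
      obtain ⟨L, hL, hLv⟩ := Φ.lin x m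
      obtain ⟨L', hL', hLv'⟩ := Φ'.lin x m
      refine ⟨a.toLinearMap.comp L, b.toLinearMap.comp L',
        fun s hs => (hab _ L L' hL hL' s hs).2.2, fun v => ?_, fun v => ?_⟩
      · rw [hLv]
        rfl
      · rw [hLv']
        rfl)
  obtain ⟨f3, g3, hf3', hg3, h3⟩ := step hGBSO hORI hOPN hDEV hHMT o Φ'.toFun
    (fun p => b (Φ'.toFun p)) Φ'.cont (b.continuous.comp Φ'.cont) Φ'.inv
    (fun g x v => by rw [Φ'.inv]) (fun x m => by
      obtain ⟨L, hL, hLv⟩ := Φ.lin x m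
      obtain ⟨L', hL', hLv'⟩ := Φ'.lin x m
      refine ⟨L', b.toLinearMap.comp L', fun s hs => (hab _ L L' hL hL' s hs).2.1, hLv',
        fun v => ?_⟩
      rw [hLv']
      rfl)
  have e1 : f = f1 := uniq_map hOPN hDEV o Φ.toFun f f1 hf1 hf1'
  have e2 : g1 = f2 := uniq_map hOPN hDEV o _ g1 f2 hg1 hf2'
  have e3 : g2 = g3 := uniq_map hOPN hDEV o _ g2 g3 hg2 hg3
  have e4 : f' = f3 := uniq_map hOPN hDEV o Φ'.toFun f' f3 hf2 hf3'
  rw [e1, h1, e2, h2, e3, ← h3, ← e4]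

end Lit
end TC
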