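import Pool.Agent.TC.Lit.BALL
import Pool.Agent.TC.Lit.CHT
import Pool.Agent.TC.Lit.CIR
import Pool.Agent.TC.Lit.CONV
import Pool.Agent.TC.Lit.CPT
import Pool.Agent.TC.Lit.CUT
import Pool.Agent.TC.Lit.DEV
import Pool.Agent.TC.Lit.EJA
import Pool.Agent.TC.Lit.EJC
import Pool.Agent.TC.Lit.EXC
import Pool.Agent.TC.Lit.FIB
import Pool.Agent.TC.Lit.GBSO
import Pool.Agent.TC.Lit.HALF
import Pool.Agent.TC.Lit.HEQ
import Pool.Agent.TC.Lit.HMT
import Pool.Agent.TC.Lit.LHT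
import Pool.Agent.TC.Lit.LIFT
import Pool.Agent.TC.Lit.LINE
import Pool.Agent.TC.Lit.LIT
import Pool.Agent.TC.Lit.MFD
import Pool.Agent.TC.Lit.MV
import Pool.Agent.TC.Lit.OPN
import Pool.Agent.TC.Lit.ORI
import Pool.Agent.TC.Lit.PDT
import Pool.Agent.TC.Lit.PRISM
import Pool.Agent.TC.Lit.PT
import Pool.Agent.TC.Lit.PUL
import Pool.Agent.TC.Lit.RAY
import Pool.Agent.TC.Lit.SDA
import Pool.Agent.TC.Lit.SDM
import Pool.Agent.TC.Lit.SDS
import Pool.Agent.TC.Lit.SEC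
import Pool.Agent.TC.Lit.SMALL
import Pool.Agent.TC.Lit.SPH
import Pool.Agent.TC.Lit.SPLIT
import Pool.Agent.TC.Lit.SUSP
import Pool.Agent.TC.Lit.TFB
import Pool.Agent.TC.Lit.TFI
import Pool.Agent.TC.Lit.TOPH
import Pool.Agent.TC.Lit.TRCMP
import Pool.Agent.TC.Lit.TREX
import Pool.Agent.TC.Lit.TRIV
import Pool.Agent.TC.Lit.TRS
import Pool.Agent.TC.Lit.UCL
import Pool.Agent.TC.Lit.UGE
import Pool.Agent.TC.Lit.UNI
import Pool.Agent.TC.Lit.UUQ
import Pool.Agent.TC.Lit.WHI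

/-!
# Block LIT complete: `TC.Goal → TC.Goal2`
-/

set_option autoImplicit false

noncomputable section

namespace TC
namespace Lit

theorem all_LIT : TC.Goal → TC.Goal2 := by
  have hPRISM := PRISM
  have hSDA := SDA
  have hSDM := SDM
  have hSDS := SDS hSDA
  have hSMALL := SMALL hSDA hSDM hSDS
  have hSPLIT := SPLIT hSDS hSMALL
  have hEXC := EXC hSDS hSMALL
  have hMV := MV hSPLIT
  have hSUSP := SUSP hSPLIT
  have hRAY := RAY hPRISM
  have hLINE := LINE hPRISM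
  have hPT := PT hSUSP hRAY hLINE
  have hCONV := CONV hPRISM
  have hUNI := UNI hMV hCONV hPT
  have hCPT := CPT hUNI hCONV
  have hCHT := CHT hEXC hCPT
  have hBALL := BALL hEXC hCONV hPT
  have hMFD := MFD hMV hCHT
  have hTOPH := TOPH hMFD hBALL
  have hHEQ := HEQ hPRISM
  have hHMT := HMT hPRISM
  have hEJC := EJC
  have hEJA := EJA hEJC
  have hTRS := TRS hEJC
  have hSEC := SEC hEJC hEJA
  have hOPN := OPN hEJA
  have hLIFT := LIFT hEJA hTRS hSEC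
  have hTRIV := TRIV hTRS hOPN hEJA
  have hFIB := FIB hTRIV hLIFT hHEQ hPRISM
  have hDEV := DEV
  have hCIR := CIR
  have hHALF := HALF hCIR
  have hORI := ORI hDEV
  have hGBSO := GBSO
  have hWHI := WHI
  have hCUT := CUT
  have hUGE := UGE hWHI hCUT hDEV hEJC
  have hUCL := UCL hGBSO hORI hOPN hDEV
  have hLHT := LHT
  have hUUQ := UUQ hGBSO hORI hOPN hHMT hLHT hDEV
  have hTREX := TREX
  have hTRCMP := TRCMP
  have hSPH := SPH hEJC
  have hPDT := PDT hHALF hSPH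
  have hPUL := PUL
  have hTFB := TFB
  have hTFI := TFI hTFB hTRIV hDEV
  exact LIT hTOPH hTREX hTRCMP hFIB hUGE hUCL hUUQ hPDT hPUL hTFB hTFI hDEV

end Lit
end TC
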