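import Pool.Agent.TC.Lit.Basic2

/-!
# Small balls in a manifold (block LIT, module BALL)
-/

set_option autoImplicit false

open scoped Topology

noncomputable section

namespace TC
namespace Lit

namespace MBALL

theorem transfer (hEXC : Stmt_EXC) {U X X' : Type} [TopologicalSpace U] [TopologicalSpace X]
    [TopologicalSpace X'] (φ : C(U, X)) (ψ : C(U, X')) (hφ : Topology.IsOpenEmbedding φ)
    {K : Set X} {K' : Set X'} (hK : IsClosed K) (hr : K ⊆ Set.range φ)
    (h : φ ⁻¹' K = ψ ⁻¹' K') {k : ℕ} {y : Chain U k} (hy : RC (φ ⁻¹' K) y)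
    (hb : RB K (cmap φ y)) : RB K' (cmap ψ y) := by
  have h1 : RB (φ ⁻¹' K) y := (hEXC U X φ hφ K hK hr).2 k y hy hb
  rw [h] at h1
  exact h1.cmap fun u hu => hu

end MBALL

open MBALL in
theorem BALL (hEXC : Stmt_EXC) (hCONV : Stmt_CONV) (hPT : Stmt_PT) : Stmt_BALL := by
  intro n M _ _ e x hx
  let ι : C(e.source, M) := ⟨Subtype.val, continuous_subtype_val⟩
  have hι : Topology.IsOpenEmbedding ι := e.open_source.isOpenEmbedding_subtypeVal
  let H := (EuclideanSpace.equiv (Fin n) ℝ).toHomeomorph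
  have hκ0 : Topology.IsOpenEmbedding (H ∘ (e.source.domRestrict e)) :=
    H.isOpenEmbedding.comp e.isOpenEmbedding_restrict
  let κ : C(e.source, Fin n → ℝ) := ⟨H ∘ (e.source.domRestrict e), hκ0.continuous⟩
  have hκ : Topology.IsOpenEmbedding κ := hκ0
  -- points
  have hpt : ∀ u : e.source, ι ⁻¹' {ι u} = κ ⁻¹' {κ u} := by
    intro u
    ext v
    simp only [Set.mem_preimage, Set.mem_singleton_iff]
    exact ⟨fun h => by rw [hι.injective h], fun h => by rw [hκ.injective h]⟩
  have hptr : ∀ u : e.source, ({ι u} : Set M) ⊆ Set.range ι := fun u =>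
    Set.singleton_subset_iff.2 ⟨u, rfl⟩
  have hptr' : ∀ u : e.source, ({κ u} : Set (Fin n → ℝ)) ⊆ Set.range κ := fun u =>
    Set.singleton_subset_iff.2 ⟨u, rfl⟩
  have to1 : ∀ (u : e.source) (y : Chain e.source n), RC (ι ⁻¹' {ι u}) y →
      RB {κ u} (cmap κ y) → RB {ι u} (cmap ι y) := by
    intro u y hy hb
    refine transfer hEXC κ ι hκ isClosed_singleton (hptr' u) (hpt u).symm ?_ hb
    rw [← hpt u]
    exact hy
  have to2 : ∀ (u : e.source) (y : Chain e.source n), RC (ι ⁻¹' {ι u}) y →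
      RB {ι u} (cmap ι y) → RB {κ u} (cmap κ y) := fun u y hy hb =>
    transfer hEXC ι κ hι isClosed_singleton (hptr u) (hpt u) hy hb
  set u0 : e.source := ⟨x, hx⟩ with hu0
  have hx0 : ι u0 = x := rfl
  refine ⟨?_, ?_⟩
  · intro z z' hz hz'
    obtain ⟨y, hy, hyb⟩ := (hEXC _ _ ι hι {ι u0} isClosed_singleton (hptr u0)).1 n z hz
    obtain ⟨y', hy', hyb'⟩ := (hEXC _ _ ι hι {ι u0} isClosed_singleton (hptr u0)).1 n z' hz'
    have c1 : RC {κ u0} (cmap κ y) := by
      refine RC.cmap hy fun v hv => ?_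
      rw [hpt u0] at hv
      exact hv
    have c2 : RC {κ u0} (cmap κ y') := by
      refine RC.cmap hy' fun v hv => ?_
      rw [hpt u0] at hv
      exact hv
    rcases (hPT n (κ u0)).2 _ _ c1 c2 with h | h | h
    · exact Or.inl ((RB.congr hyb).2 (to1 u0 y hy h))
    · exact Or.inr (Or.inl ((RB.congr hyb').2 (to1 u0 y' hy' h)))
    · refine Or.inr (Or.inr ?_)
      rw [← map_add] at h
      have h1 := to1 u0 (y + y') (hy.add hy') h
      have h2 : RB {ι u0} (z + z' + cmap ι (y + y')) := by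
        rw [map_add, add_add_add_comm]
        exact hyb.add hyb'
      exact (RB.congr h2).2 h1
  · have hnr : Set.range κ ∈ 𝓝 (κ u0) := hκ.isOpen_range.mem_nhds ⟨u0, rfl⟩
    obtain ⟨r, hr, hrb⟩ := Metric.nhds_basis_closedBall.mem_iff.1 hnr
    set K' : Set (Fin n → ℝ) := Metric.closedBall (κ u0) r with hK'
    have hK'c : IsCompact K' := isCompact_closedBall _ _
    have hK0c : IsCompact (κ ⁻¹' K') := (hκ.isInducing.isCompact_preimage_iff hrb).2 hK'c
    set B : Set M := ι '' (κ ⁻¹' K') with hB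
    have hBc : IsClosed B := (hK0c.image ι.continuous).isClosed
    have hpre : ι ⁻¹' B = κ ⁻¹' K' := Set.preimage_image_eq _ hι.injective
    have hBr : B ⊆ Set.range ι := Set.image_subset_range _ _
    refine ⟨B, ?_, ?_⟩
    · have h1 : κ ⁻¹' K' ∈ 𝓝 u0 := κ.continuous.continuousAt.preimage_mem_nhds
        (Metric.closedBall_mem_nhds _ hr)
      exact (hι.isOpenMap.image_mem_nhds h1 : ι '' (κ ⁻¹' K') ∈ 𝓝 (ι u0))
    · rintro _ ⟨u, hu, rfl⟩ z hz hzb
      obtain ⟨y, hy, hyb⟩ := (hEXC _ _ ι hι B hBc hBr).1 n z hz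
      have huB : ({ι u} : Set M) ⊆ B := Set.singleton_subset_iff.2 ⟨u, hu, rfl⟩
      have hyu : RC (ι ⁻¹' {ι u}) y := hy.mono (Set.preimage_mono huB)
      have h1 : RB {ι u} (cmap ι y) := (RB.congr (hyb.mono huB)).1 hzb
      have h2 := to2 u y hyu h1
      have c1 : RC K' (cmap κ y) := by
        refine RC.cmap hy fun v hv => ?_
        rw [hpre] at hv
        exact hv
      have h3 : RB K' (cmap κ y) :=
        hCONV n K' hK'c (convex_closedBall _ _) (κ u) hu n _ c1 h2
      have h4 : RB B (cmap ι y) := by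
        refine transfer hEXC κ ι hκ hK'c.isClosed hrb hpre.symm ?_ h3
        rw [← hpre]
        exact hy
      exact (RB.congr hyb).2 h4

end Lit
end TC
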