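import Pool.Agent.TC.Lit.Stmts2

/-!
# Basic lemmas on singular chains supported in a set (block LIT)
-/

set_option autoImplicit false
set_option linter.unusedSectionVars false

open scoped Manifold ContDiff Topology

noncomputable section

namespace TC
namespace Lit

section

variable {X Y : Type} [TopologicalSpace X] [TopologicalSpace Y] {k : ℕ} {A B : Set X}

/-! ## Characteristic two -/

theorem ch_add_self {α : Type} (z : α →₀ F2) : z + z = 0 := by
  ext a
  rw [Finsupp.add_apply, Finsupp.zero_apply]
  exact CharTwo.add_self_eq_zero _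

theorem ch_neg {α : Type} (z : α →₀ F2) : -z = z := by
  rw [neg_eq_iff_add_eq_zero]
  exact ch_add_self z

theorem ch_sub {α : Type} (z w : α →₀ F2) : z - w = z + w := by
  rw [sub_eq_add_neg, ch_neg]

theorem ch_add_cancel {α : Type} (z w : α →₀ F2) : z + w + w = z := by
  rw [add_assoc, ch_add_self, add_zero]

theorem ch_add_cancel_left {α : Type} (z w : α →₀ F2) : z + (z + w) = w := by
  rw [← add_assoc, ch_add_self, zero_add]

theorem ch_add_eq_zero {α : Type} {z w : α →₀ F2} : z + w = 0 ↔ z = w := by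
  constructor
  · intro h
    rw [← ch_add_cancel z w, h, zero_add]
  · rintro rfl
    exact ch_add_self z

theorem ch_eq_add_iff {α : Type} {a b c : α →₀ F2} : a = b + c ↔ a + b = c := by
  constructor
  · rintro rfl
    rw [add_comm b c, add_assoc, ch_add_self, add_zero]
  · rintro rfl
    rw [add_comm a b, ← add_assoc, ch_add_self, zero_add]

/-- A linear map of chains is determined by its values on simplices. -/
theorem lin_ext {α V : Type} [AddCommGroup V] [Module F2 V] {L L' : (α →₀ F2) →ₗ[F2] V}
    (h : ∀ σ, L (Finsupp.single σ 1) = L' (Finsupp.single σ 1)) (z : α →₀ F2) : L z = L' z := by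
  have : L = L' := Finsupp.lhom_ext' fun σ => LinearMap.ext_ring (h σ)
  rw [this]

/-! ## The boundary -/

theorem face_face {j : ℕ} (i : Fin (j + 3)) (l : Fin (j + 2)) :
    (face (k := j + 1) i).comp (face (k := j) l) =
      (smap (fun x => i.succAbove (l.succAbove x)) : C(Simp j, Simp (j + 2))) := by
  refine ContinuousMap.ext fun t => ?_
  show stdSimplex.map _ (stdSimplex.map _ t) = stdSimplex.map _ t
  rw [stdSimplex.map_comp_apply]
  rfl

theorem bd_bd (z : Chain X (k + 2)) : bd (bd z) = 0 := by
  have key : ∀ σ : C(Simp (k + 2), X), bd (bd (Finsupp.single σ (1 : F2))) = 0 := by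
    intro σ
    rw [bd_single, map_sum]
    simp only [bd_single]
    have e : ∀ (i : Fin (k + 3)) (l : Fin (k + 2)),
        Finsupp.single ((σ.comp (face i)).comp (face l)) (1 : F2) =
          Finsupp.single (σ.comp ((face i).comp (face l))) 1 := fun i l => rfl
    simp only [e]
    rw [← Finset.sum_product']
    apply Finset.sum_involution (fun (p : Fin (k + 3) × Fin (k + 2)) _ =>
      ((p.1.succAbove p.2, p.2.predAbove p.1) : Fin (k + 3) × Fin (k + 2)))
    · rintro ⟨i, l⟩ -
      have : (face (k := k + 1) i).comp (face (k := k) l) =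
          (face (k := k + 1) (i.succAbove l)).comp (face (k := k) (l.predAbove i)) := by
        rw [face_face, face_face]
        congr 1
        funext x
        exact (Fin.succAbove_succAbove_succAbove_predAbove i l x).symm
      simp only [this]
      exact ch_add_self _
    · rintro ⟨i, l⟩ - h heq
      have := congrArg Prod.fst heq
      exact Fin.succAbove_ne i l this
    · intro _ _
      exact Finset.mem_univ _
    · rintro ⟨i, l⟩ -
      simp only [Prod.mk.injEq]
      constructor
      · exact Fin.succAbove_succAbove_predAbove i l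
      · exact Fin.predAbove_predAbove_succAbove i l
  exact lin_ext (L := bd.comp bd) (L' := 0) (fun σ => key σ) z

/-! ## Chains supported in a set -/

theorem ChainIn.zero : ChainIn A (0 : Chain X k) := fun σ h => by simp at h

theorem ChainIn.add {z w : Chain X k} (hz : ChainIn A z) (hw : ChainIn A w) :
    ChainIn A (z + w) := fun σ h => by
  classical
  rcases Finset.mem_union.1 (Finsupp.support_add h) with h | h
  · exact hz σ h
  · exact hw σ h

theorem ChainIn.sum {ι : Type} (s : Finset ι) (f : ι → Chain X k)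
    (h : ∀ i ∈ s, ChainIn A (f i)) : ChainIn A (∑ i ∈ s, f i) := by
  classical
  induction s using Finset.induction_on with
  | empty => simpa using ChainIn.zero
  | insert a s ha ih =>
    rw [Finset.sum_insert ha]
    exact (h a (Finset.mem_insert_self a s)).add (ih fun i hi => h i (Finset.mem_insert_of_mem hi))

theorem ChainIn.mono {z : Chain X k} (hz : ChainIn A z) (h : A ⊆ B) : ChainIn B z :=
  fun σ hσ => (hz σ hσ).trans h

theorem ChainIn.inter {z : Chain X k} (hz : ChainIn A z) (hz' : ChainIn B z) :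
    ChainIn (A ∩ B) z := fun σ hσ => Set.subset_inter (hz σ hσ) (hz' σ hσ)

theorem ChainIn.single {σ : C(Simp k, X)} (a : F2) (h : Set.range σ ⊆ A) :
    ChainIn A (Finsupp.single σ a) := fun τ hτ => by
  have := Finsupp.support_single_subset hτ
  rw [Finset.mem_singleton] at this
  rwa [this]

theorem ChainIn.univ (z : Chain X k) : ChainIn Set.univ z := fun _ _ => Set.subset_univ _

instance (k : ℕ) : Nonempty (Simp k) := ⟨vtx 0⟩

theorem ChainIn.empty {z : Chain X k} (h : ChainIn (∅ : Set X) z) : z = 0 := by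
  by_contra hz
  obtain ⟨σ, hσ⟩ := Finsupp.support_nonempty_iff.2 hz
  exact h σ hσ ⟨vtx 0, rfl⟩

/-- Linear maps and supports: it suffices to look at simplices. -/
theorem ChainIn.map {j : ℕ} {L : Chain X k →ₗ[F2] Chain Y j} {A : Set X} {B : Set Y}
    (hL : ∀ σ : C(Simp k, X), Set.range σ ⊆ A → ChainIn B (L (Finsupp.single σ 1)))
    {z : Chain X k} (hz : ChainIn A z) : ChainIn B (L z) := by
  have e : z = ∑ σ ∈ z.support, (z σ) • Finsupp.single σ (1 : F2) := by
    conv_lhs => rw [← Finsupp.sum_single z]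
    rw [Finsupp.sum]
    exact Finset.sum_congr rfl fun σ _ => by simp
  rw [e, map_sum]
  refine ChainIn.sum _ _ fun σ hσ => ?_
  rw [map_smul]
  intro τ hτ
  exact hL σ (hz σ hσ) τ (Finsupp.support_smul hτ)

theorem ChainIn.bd {z : Chain X (k + 1)} (hz : ChainIn A z) : ChainIn A (bd z) :=
  ChainIn.map (L := TC.bd) (fun σ hσ => by
    rw [bd_single]
    refine ChainIn.sum _ _ fun i _ => ChainIn.single _ ?_
    rintro _ ⟨t, rfl⟩
    exact hσ ⟨face i t, rfl⟩) hz

theorem ChainIn.cmap {f : C(X, Y)} {C : Set Y} {z : Chain X k} (hz : ChainIn A z)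
    (h : Set.MapsTo f A C) : ChainIn C (cmap f z) :=
  ChainIn.map (L := TC.cmap f) (fun σ hσ => by
    rw [cmap_single]
    refine ChainIn.single _ ?_
    rintro _ ⟨t, rfl⟩
    exact h (hσ ⟨t, rfl⟩)) hz

/-- A chain supported in a union of two sets such that each simplex lies in one of them. -/
theorem ChainIn.preimage {f : C(X, Y)} (hf : Function.Injective f) {C : Set Y} {z : Chain X k}
    (h : ChainIn C (TC.cmap f z)) : ChainIn (f ⁻¹' C) z := by
  intro σ hσ
  have hinj : Function.Injective (fun σ : C(Simp k, X) => f.comp σ) := by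
    intro a b hab
    ext t
    exact hf (congrArg (fun g : C(Simp k, Y) => g t) hab)
  have : f.comp σ ∈ (TC.cmap f z).support := by
    rw [Finsupp.mem_support_iff]
    show (Finsupp.mapDomain (fun σ : C(Simp k, X) => f.comp σ) z) (f.comp σ) ≠ 0
    rw [Finsupp.mapDomain_apply hinj]
    exact Finsupp.mem_support_iff.1 hσ
  rintro _ ⟨t, rfl⟩
  exact h _ this ⟨t, rfl⟩

/-! ## Relative cycles and boundaries -/

theorem RC_zero (z : Chain X 0) : RC A z := trivial

theorem RC_succ {z : Chain X (k + 1)} : RC A z ↔ ChainIn Aᶜ (bd z) := Iff.rfl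

theorem RC.mono {z : Chain X k} (h : RC B z) (hAB : A ⊆ B) : RC A z := by
  cases k with
  | zero => trivial
  | succ k => exact ChainIn.mono (A := Bᶜ) (B := Aᶜ) h (Set.compl_subset_compl.2 hAB)

theorem RC.add {z w : Chain X k} (hz : RC A z) (hw : RC A w) : RC A (z + w) := by
  cases k with
  | zero => trivial
  | succ k =>
    show ChainIn Aᶜ (bd (z + w))
    rw [map_add]
    exact ChainIn.add hz hw

theorem RC.of_bd_eq_zero {z : Chain X (k + 1)} (h : bd z = 0) : RC A z := by
  show ChainIn Aᶜ (bd z)
  rw [h]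
  exact ChainIn.zero

theorem RB.zero : RB A (0 : Chain X k) := ⟨0, by rw [map_zero, add_zero]; exact ChainIn.zero⟩

theorem RB.of_chainIn {z : Chain X k} (h : ChainIn Aᶜ z) : RB A z :=
  ⟨0, by rw [map_zero, add_zero]; exact h⟩

theorem RB.bd (w : Chain X (k + 1)) : RB A (bd w) := ⟨w, by rw [ch_add_self]; exact ChainIn.zero⟩

theorem RB.add {z w : Chain X k} (hz : RB A z) (hw : RB A w) : RB A (z + w) := by
  obtain ⟨a, ha⟩ := hz
  obtain ⟨b, hb⟩ := hw
  refine ⟨a + b, ?_⟩
  rw [map_add, add_add_add_comm]
  exact ha.add hb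

theorem RB.mono {z : Chain X k} (h : RB B z) (hAB : A ⊆ B) : RB A z := by
  obtain ⟨w, hw⟩ := h
  exact ⟨w, hw.mono (Set.compl_subset_compl.2 hAB)⟩

/-- `RB` only depends on the class modulo boundaries and chains outside `A`. -/
theorem RB.congr {z w : Chain X k} (h : RB A (z + w)) : RB A z ↔ RB A w := by
  constructor
  · intro hz
    have := hz.add h
    rwa [ch_add_cancel_left] at this
  · intro hw
    have := h.add hw
    rwa [ch_add_cancel] at this

theorem RB_empty (z : Chain X k) : RB (∅ : Set X) z :=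
  RB.of_chainIn (by rw [Set.compl_empty]; exact ChainIn.univ z)

theorem RB_univ {z : Chain X k} : RB (Set.univ : Set X) z ↔
    z ∈ LinearMap.range (TC.bd : Chain X (k + 1) →ₗ[F2] Chain X k) := by
  constructor
  · rintro ⟨w, hw⟩
    rw [Set.compl_univ] at hw
    exact ⟨w, (ch_add_eq_zero.1 hw.empty).symm⟩
  · rintro ⟨w, rfl⟩
    exact RB.bd w

theorem RC_univ {z : Chain X (k + 1)} : RC (Set.univ : Set X) z ↔ bd z = 0 := by
  constructor
  · intro h
    have h' : ChainIn (Set.univ : Set X)ᶜ (TC.bd z) := h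
    rw [Set.compl_univ] at h'
    exact h'.empty
  · intro h
    exact RC.of_bd_eq_zero h

/-- The push forward of relative cycles. -/
theorem RC.cmap {f : C(X, Y)} {C : Set Y} {z : Chain X k} (h : RC A z)
    (hf : Set.MapsTo f Aᶜ Cᶜ) : RC C (cmap f z) := by
  cases k with
  | zero => trivial
  | succ k =>
    show ChainIn Cᶜ (TC.bd (TC.cmap f z))
    rw [bd_cmap]
    exact ChainIn.cmap h hf

/-- The push forward of relative boundaries. -/
theorem RB.cmap {f : C(X, Y)} {C : Set Y} {z : Chain X k} (h : RB A z)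
    (hf : Set.MapsTo f Aᶜ Cᶜ) : RB C (cmap f z) := by
  obtain ⟨w, hw⟩ := h
  refine ⟨TC.cmap f w, ?_⟩
  rw [bd_cmap, ← map_add]
  exact hw.cmap hf

theorem cmap_id (z : Chain X k) : cmap (ContinuousMap.id X) z = z :=
  lin_ext (L := TC.cmap (ContinuousMap.id X)) (L' := LinearMap.id) (fun σ => by
    rw [cmap_single]; rfl) z

/-! ## Homotopies: consequences of `PRISM` -/

/-- If `F` is a homotopy from `f` to `g` which maps `A` to `C` at all times, then
`f_* z + g_* z` is a relative boundary modulo `C` for relative cycles `z` modulo `A`. -/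
theorem prism_rel (hP : Stmt_PRISM) (F : C(X × unitInterval, Y)) (f g : C(X, Y))
    (hf : ∀ x, F (x, 0) = f x) (hg : ∀ x, F (x, 1) = g x) (C : Set Y)
    (hAC : ∀ x ∈ Aᶜ, ∀ t, F (x, t) ∈ Cᶜ) (z : Chain X k) (hz : RC A z) :
    RB C (cmap f z + cmap g z) := by
  obtain ⟨P, h0, h1, h2⟩ := hP X Y F f g hf hg
  cases k with
  | zero => exact ⟨P 0 z, by rw [h0, ch_add_self]; exact ChainIn.zero⟩
  | succ k =>
    refine ⟨P (k + 1) z, ?_⟩
    rw [h1, ← add_assoc, ch_add_self, zero_add]
    refine ChainIn.map (A := Aᶜ) (fun σ hσ => ?_) hz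
    refine (h2 k σ).mono ?_
    rintro _ ⟨⟨x, t⟩, ⟨hx, -⟩, rfl⟩
    exact hAC x (hσ hx) t

end

end Lit
end TC
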