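import Pool.Agent.TC.Lit.Basic

/-!
# Iterated subdivision (block LIT)
-/

set_option autoImplicit false
set_option linter.unusedSectionVars false

noncomputable section

namespace TC
namespace Lit

variable {X : Type} [TopologicalSpace X]

/-- The chain homotopy between the identity and the `N`-fold subdivision. -/
def hoN : ℕ → (k : ℕ) → Chain X k →ₗ[F2] Chain X (k + 1)
  | 0, _ => 0
  | N + 1, k => hoN N k + (hoC k).comp ((sdC k) ^ N)

theorem bd_sdN (hS : Stmt_SDS) (N k : ℕ) (z : Chain X (k + 1)) :
    bd ((sdC (k + 1))^[N] z) = (sdC k)^[N] (bd z) := by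
  induction N with
  | zero => rfl
  | succ N ih =>
    rw [Function.iterate_succ_apply', Function.iterate_succ_apply', (hS X).1, ih]

theorem ChainIn.sdN (hS : Stmt_SDS) {A : Set X} (N : ℕ) {k : ℕ} {z : Chain X k}
    (hz : ChainIn A z) : ChainIn A ((sdC k)^[N] z) := by
  induction N with
  | zero => exact hz
  | succ N ih =>
    rw [Function.iterate_succ_apply']
    exact ((hS X).2.2.2.1 A k _ ih).1

theorem ChainIn.hoN (hS : Stmt_SDS) {A : Set X} (N : ℕ) {k : ℕ} {z : Chain X k}
    (hz : ChainIn A z) : ChainIn A (Lit.hoN N k z) := by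
  induction N with
  | zero => exact ChainIn.zero
  | succ N ih =>
    show ChainIn A (Lit.hoN N k z + hoC k (((sdC k) ^ N) z))
    refine ih.add ?_
    rw [Module.End.pow_apply]
    exact ((hS X).2.2.2.1 A k _ (ChainIn.sdN hS N hz)).2

theorem bd_hoN_zero (hS : Stmt_SDS) (N : ℕ) (z : Chain X 0) :
    bd (hoN N 0 z) = z + (sdC 0)^[N] z := by
  induction N with
  | zero =>
    show bd (0 : Chain X 1) = z + z
    rw [map_zero, ch_add_self]
  | succ N ih =>
    show bd (hoN N 0 z + hoC 0 (((sdC 0) ^ N) z)) = _
    rw [map_add, ih, (hS X).2.1, Module.End.pow_apply, Function.iterate_succ_apply']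
    have : ∀ a b c : Chain X 0, a + b + (b + c) = a + c := by
      intro a b c
      have h : a + b + (b + c) = (b + b) + (a + c) := by abel
      rw [h, ch_add_self]
      exact zero_add _
    exact this _ _ _

theorem bd_hoN (hS : Stmt_SDS) (N k : ℕ) (z : Chain X (k + 1)) :
    bd (hoN N (k + 1) z) = z + (sdC (k + 1))^[N] z + hoN N k (bd z) := by
  induction N with
  | zero =>
    show bd (0 : Chain X (k + 2)) = z + z + 0
    rw [map_zero, ch_add_self, add_zero]
  | succ N ih =>
    show bd (hoN N (k + 1) z + hoC (k + 1) (((sdC (k + 1)) ^ N) z)) =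
      _ + (hoN N k (bd z) + hoC k (((sdC k) ^ N) (bd z)))
    rw [map_add, ih, (hS X).2.2.1, Module.End.pow_apply, Module.End.pow_apply,
      bd_sdN hS, Function.iterate_succ_apply' (f := sdC (k + 1))]
    have : ∀ a b c d e : Chain X (k + 1), a + b + c + (b + d + e) = a + d + (c + e) := by
      intro a b c d e
      have h : a + b + c + (b + d + e) = (b + b) + (a + d + (c + e)) := by abel
      rw [h, ch_add_self, zero_add]
    exact this _ _ _ _ _

theorem cmap_sdN (hS : Stmt_SDS) {Y : Type} [TopologicalSpace Y] (f : C(X, Y)) (N k : ℕ)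
    (z : Chain X k) : cmap f ((sdC k)^[N] z) = (sdC k)^[N] (cmap f z) := by
  induction N with
  | zero => rfl
  | succ N ih =>
    rw [Function.iterate_succ_apply', Function.iterate_succ_apply',
      ((hS X).2.2.2.2 Y f k _).1, ih]

theorem cmap_hoN (hS : Stmt_SDS) {Y : Type} [TopologicalSpace Y] (f : C(X, Y)) (N k : ℕ)
    (z : Chain X k) : cmap f (hoN N k z) = hoN N k (cmap f z) := by
  induction N with
  | zero => exact map_zero _
  | succ N ih =>
    show cmap f (hoN N k z + hoC k (((sdC k) ^ N) z)) =
      hoN N k (cmap f z) + hoC k (((sdC k) ^ N) (cmap f z))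
    rw [map_add, ih, ((hS X).2.2.2.2 Y f k _).2, Module.End.pow_apply, Module.End.pow_apply,
      cmap_sdN hS]

end Lit
end TC
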