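import Pool.Agent.TC.Defs
import Pool.Agent.TC.Jets
import Pool.Agent.TC.Milnor

/-!
# The classifying space of the identity component of a diffeomorphism group

The `C^∞` topology on the group of diffeomorphisms, its identity component `Diff_0(M)`, Milnor's
classifying space, the universal `M`-bundle over `BDiff_0(M)`, its vertical tangent bundle.
-/

set_option autoImplicit false
set_option linter.unusedSectionVars false

open scoped Manifold ContDiff Topology

noncomputable section

namespace TC

/-! ## The group of diffeomorphisms with the `C^∞` topology -/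

section diff

variable (n : ℕ) (M : Type) [TopologicalSpace M] [ChartedSpace (EuclideanSpace ℝ (Fin n)) M]
  [IsManifold (𝓡 n) ∞ M]

/-- A manifold modelled on a Euclidean space, bundled. -/
def mfd : Mfd where
  E := EuclideanSpace ℝ (Fin n)
  H := EuclideanSpace ℝ (Fin n)
  I := 𝓡 n
  X := M

/-- The group of smooth diffeomorphisms of `M`. -/
def DiffM : Type := Diffeomorph (𝓡 n) (𝓡 n) M M ∞

variable {n M}

/-- The diffeomorphism as a map. -/
def DiffM.fn (f : DiffM n M) : M → M := Diffeomorph.toEquiv f

theorem DiffM.contMDiff (f : DiffM n M) : ContMDiff (𝓡 n) (𝓡 n) ∞ f.fn :=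
  Diffeomorph.contMDiff_toFun f

instance : Group (DiffM n M) where
  mul f g := Diffeomorph.trans g f
  one := Diffeomorph.refl (𝓡 n) M ∞
  inv f := Diffeomorph.symm f
  mul_assoc _ _ _ := rfl
  one_mul _ := rfl
  mul_one _ := rfl
  inv_mul_cancel f := Diffeomorph.ext fun x => Equiv.symm_apply_apply (Diffeomorph.toEquiv f) x

theorem DiffM.ext {f g : DiffM n M} (h : ∀ x, f.fn x = g.fn x) : f = g := Diffeomorph.ext h

theorem DiffM.one_fn (x : M) : (1 : DiffM n M).fn x = x := rfl

theorem DiffM.mul_fn (f g : DiffM n M) (x : M) : (f * g).fn x = f.fn (g.fn x) := rfl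

/-- The iterated tangent map `T^r f : T^r M → T^r M` of a diffeomorphism. -/
def DiffM.iter (r : ℕ) (f : DiffM n M) : C((iterT r (mfd n M)).X, (iterT r (mfd n M)).X) :=
  ⟨iterD r (mfd n M) f.fn, continuous_iterD r (mfd n M) f.fn f.contMDiff⟩

/-- The `C^∞` topology on the group of diffeomorphisms: the coarsest topology for which the maps
`f ↦ T^r f` and `f ↦ T^r (f⁻¹)` are continuous for the compact-open topology, for all `r`. -/
instance : TopologicalSpace (DiffM n M) :=
  ⨅ r : ℕ, TopologicalSpace.induced (fun f : DiffM n M => (f.iter r, f⁻¹.iter r)) inferInstance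

/-- `M` acted on by its diffeomorphisms. -/
instance : MulAction (DiffM n M) M where
  smul f x := f.fn x
  one_smul _ := rfl
  mul_smul _ _ _ := rfl

theorem DiffM.continuous_iff {X : Type} [TopologicalSpace X] {F : X → DiffM n M} :
    Continuous F ↔ ∀ r : ℕ, Continuous (fun x => (F x).iter r) ∧
      Continuous (fun x => (F x)⁻¹.iter r) := by
  rw [continuous_iInf_rng]
  refine forall_congr' fun r => ?_
  rw [continuous_induced_rng]
  exact ⟨fun h => ⟨continuous_fst.comp h, continuous_snd.comp h⟩, fun h => h.1.prodMk h.2⟩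

theorem DiffM.iter_mul (r : ℕ) (f g : DiffM n M) : (f * g).iter r = (f.iter r).comp (g.iter r) :=
  ContinuousMap.ext fun x => congrFun
    (iterD_comp r (mfd n M) f.fn g.fn f.contMDiff g.contMDiff) x

/-- The group of diffeomorphisms is a topological group. -/
instance : IsTopologicalGroup (DiffM n M) where
  continuous_mul := by
    have hid := (DiffM.continuous_iff (n := n) (M := M)).1 continuous_id
    refine DiffM.continuous_iff.2 fun r => ?_
    have : FiniteDimensional ℝ (mfd n M).E :=
      inferInstanceAs (FiniteDimensional ℝ (EuclideanSpace ℝ (Fin n)))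
    have : LocallyCompactSpace (mfd n M).H :=
      inferInstanceAs (LocallyCompactSpace (EuclideanSpace ℝ (Fin n)))
    have : LocallyCompactSpace (iterT r (mfd n M)).X := iterT_locallyCompact r _
    constructor
    · simp only [DiffM.iter_mul]
      exact ((hid r).1.comp continuous_fst).compCM ((hid r).1.comp continuous_snd)
    · simp only [mul_inv_rev, DiffM.iter_mul]
      exact ((hid r).2.comp continuous_snd).compCM ((hid r).2.comp continuous_fst)
  continuous_inv := by
    have hid := (DiffM.continuous_iff (n := n) (M := M)).1 continuous_id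
    refine DiffM.continuous_iff.2 fun r => ⟨(hid r).2, ?_⟩
    simp only [inv_inv]
    exact (hid r).1

variable (n M) in
/-- The identity component `Diff_0(M)` of the group of diffeomorphisms. -/
abbrev Diff0 : Subgroup (DiffM n M) := Subgroup.connectedComponentOfOne (DiffM n M)

end diff

/-! ## The universal `M`-bundle over `BDiff_0(M)` and its vertical tangent bundle -/

section universal

variable {n : ℕ} {M : Type} [TopologicalSpace M] [ChartedSpace (EuclideanSpace ℝ (Fin n)) M]
  [IsManifold (𝓡 n) ∞ M]

/-- A Gauss map of the vertical tangent bundle `EG ×_G TM` of the universal bundle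
`E = EG ×_G M → BG`, `G = Diff_0(M)`: a continuous map `Φ : EG × TM → ℓ²`, linear and injective on
the tangent spaces of `M`, with `Φ (g x, dg v) = Φ (x, v)`. -/
structure UGaussMap (n : ℕ) (M : Type) [TopologicalSpace M]
    [ChartedSpace (EuclideanSpace ℝ (Fin n)) M] [IsManifold (𝓡 n) ∞ M] where
  toFun : EJ (Diff0 n M) × TangentBundle (𝓡 n) M → L2
  cont : Continuous toFun
  lin : ∀ (x : EJ (Diff0 n M)) (m : M), ∃ L : TangentSpace (𝓡 n) m →ₗ[ℝ] L2,
    Function.Injective L ∧ ∀ v : TangentSpace (𝓡 n) m, toFun (x, ⟨m, v⟩) = L v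
  inv : ∀ (g : Diff0 n M) (x : EJ (Diff0 n M)) (v : TangentBundle (𝓡 n) M),
    toFun (g • x, tangentMap (𝓡 n) (𝓡 n) (DiffM.fn g.1) v) = toFun (x, v)

/-- `f : E → BSO n` is a classifying map of the (oriented) vertical tangent bundle of the universal
bundle `E = EG ×_G M → BG`, `G = Diff_0(M)`: for some Gauss map `Φ`, `f` maps the class of `(x, m)`
to the subspace `Φ (x, T_m M)` oriented by the images of the positive frames of `T_m M`. -/
def IsUClassifying (o : Orient M n) (f : C(Borel (Diff0 n M) M, BSO n)) : Prop :=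
  ∃ Φ : UGaussMap n M, ∀ (x : EJ (Diff0 n M)) (m : M)
    (t : Module.Basis (Fin n) ℝ (TangentSpace (𝓡 n) m)), t.orientation = o.or m →
    ∃ hli : LinearIndependent ℝ (fun i => Φ.toFun (x, ⟨m, t i⟩)),
      f (Borel.mk (x, m)) = BSO.mk ⟨_, hli⟩

/-- `κ ∈ H^j(BDiff_0(M); ZMod 2)` is the tautological class `κ_c = π_!(c(T_v E))` of the class
`c ∈ H^(m+1+j)(BSO(m+1); ZMod 2)`. -/
def IsKappa {m j : ℕ} {M : Type} [TopologicalSpace M]
    [ChartedSpace (EuclideanSpace ℝ (Fin (m + 1))) M] [IsManifold (𝓡 (m + 1)) ∞ M]
    (o : Orient M (m + 1)) (c : HH (BSO (m + 1)) (m + 1 + j))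
    (κ : HH (BG (Diff0 (m + 1) M)) j) : Prop :=
  ∃ (f : C(Borel (Diff0 (m + 1) M) M, BSO (m + 1)))
    (T : FibreTransfer m (Borel.proj (G := Diff0 (m + 1) M) (X := M))),
    IsUClassifying o f ∧ κ = T.integ (HH.map f c)

end universal

/-- The negated form of Q1 with `n = 7`, `k = 9`, `R = ℤ/2`: there are a closed connected smooth
oriented aspherical manifold `M` of dimension `7` and a class `c ∈ H^9(BSO(7); ZMod 2)` for which
the tautological class `κ_c = π_!(c(T_v E)) ∈ H^2(BDiff_0(M); ZMod 2)` is (well defined and) not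
zero.  (`Diff_0(M)` is a topological group, see above; its actions on `EG`, `M` and `T M` are
continuous, which is proved in the modules EJA and DEV.) -/
def Goal2 : Prop :=
  ∃ (M : Type) (_ : TopologicalSpace M) (_ : ChartedSpace (EuclideanSpace ℝ (Fin 7)) M)
    (_ : IsManifold (𝓡 7) ∞ M) (_ : T2Space M) (_ : CompactSpace M) (_ : ConnectedSpace M)
    (o : Orient M 7), Aspherical M ∧
    ∃ (c : HH (BSO 7) 9) (κ : HH (BG (Diff0 7 M)) 2),
      (∀ κ' : HH (BG (Diff0 7 M)) 2, IsKappa (m := 6) (j := 2) o c κ' ↔ κ' = κ) ∧ κ ≠ 0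

end TC
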