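import Pool.Agent.TC.Lit.Basic2

/-!
# LHT: two Gauss maps are connected by three linear homotopies of Gauss maps
-/

set_option autoImplicit false
set_option linter.unusedSectionVars false

open scoped Manifold ContDiff Topology

noncomputable section

namespace TC
namespace Lit
namespace MLHT

/-- The coordinate `j` of a vector of `ℓ²` as the inner product with a standard vector. -/
theorem coord_eq (w : L2) (j : ℕ) : w j = inner ℝ w (lp.single 2 j (1 : ℝ) : L2) := by
  rw [lp.inner_single_right]
  simp

/-- For an injective map `e` of the indices there is the corresponding isometry of `ℓ²`. -/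
theorem exists_shift (e : ℕ → ℕ) (he : Function.Injective e) :
    ∃ T : L2 →L[ℝ] L2, (∀ (w : L2) (j : ℕ), T w (e j) = w j) ∧
      ∀ (w : L2) (i : ℕ), (∀ j, i ≠ e j) → T w i = 0 := by
  have hv : Orthonormal ℝ (fun k : ℕ => (lp.single 2 (e k) (1 : ℝ) : L2)) := by
    rw [orthonormal_iff_ite]
    intro i j
    rw [lp.inner_single_left]
    by_cases hij : i = j
    · subst hij
      simp
    · rw [if_neg hij]
      have h1 : e i ≠ e j := fun h => hij (he h)
      simp [lp.single_apply, Pi.single_apply, h1]
  have key : ∀ (w : L2) (i : ℕ), HasSum (fun k : ℕ => w k * (if e k = i then 1 else 0))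
      (hv.orthogonalFamily.linearIsometry w i) := by
    intro w i
    have h1 := hv.orthogonalFamily.hasSum_linearIsometry w
    have h2 := h1.mapL (innerSL ℝ (lp.single 2 i (1 : ℝ) : L2))
    have h3 : innerSL ℝ (lp.single 2 i (1 : ℝ) : L2) (hv.orthogonalFamily.linearIsometry w) =
        hv.orthogonalFamily.linearIsometry w i := by
      rw [innerSL_apply_apply, lp.inner_single_left]
      simp
    rw [h3] at h2
    have h4 : (fun k : ℕ => w k * (if e k = i then (1 : ℝ) else 0)) =
        fun k => innerSL ℝ (lp.single 2 i (1 : ℝ) : L2)
          ((LinearIsometry.toSpanSingleton ℝ L2 (hv.1 k)) (w k)) := by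
      funext k
      rw [innerSL_apply_apply, lp.inner_single_left]
      by_cases h : e k = i
      · subst h
        simp [LinearIsometry.toSpanSingleton_apply]
      · have h' : i ≠ e k := fun h' => h h'.symm
        simp [LinearIsometry.toSpanSingleton_apply, lp.single_apply, Pi.single_apply, h, h']
    rw [h4]
    exact h2
  refine ⟨hv.orthogonalFamily.linearIsometry.toContinuousLinearMap, ?_, ?_⟩
  · intro w j
    have h1 := key w (e j)
    have h2 : HasSum (fun k : ℕ => w k * (if e k = e j then 1 else 0)) (w j) := by
      have h3 : (fun k : ℕ => w k * (if e k = e j then (1 : ℝ) else 0)) =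
          fun k => if k = j then w j else 0 := by
        funext k
        by_cases hk : k = j
        · subst hk; simp
        · have : e k ≠ e j := fun h => hk (he h)
          simp [hk, this]
      rw [h3]
      exact hasSum_ite_eq j (w j)
    exact h1.unique h2
  · intro w i hi
    have h1 := key w i
    have h2 : HasSum (fun k : ℕ => w k * (if e k = i then (1 : ℝ) else 0)) 0 := by
      have h3 : (fun k : ℕ => w k * (if e k = i then (1 : ℝ) else 0)) = fun _ => 0 := by
        funext k
        have : e k ≠ i := fun h => hi k h.symm
        simp [this]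
      rw [h3]
      exact hasSum_zero
    exact h1.unique h2

/-- The linear homotopy from the identity to a shift is injective. -/
theorem shift_inj (e : ℕ → ℕ) (hle : ∀ j, j ≤ e j) (T : L2 →L[ℝ] L2)
    (h1 : ∀ (w : L2) (j : ℕ), T w (e j) = w j)
    (h2 : ∀ (w : L2) (i : ℕ), (∀ j, i ≠ e j) → T w i = 0) (s : ℝ) (hs : s ∈ Set.Icc (0 : ℝ) 1)
    (w : L2) (hw : (1 - s) • w + s • T w = 0) : w = 0 := by
  have hc : ∀ k : ℕ, (1 - s) * w k + s * T w k = 0 := by
    intro k
    have h := congrArg (fun u : L2 => u k) hw
    simpa using h
  rcases eq_or_lt_of_le hs.2 with hs1 | hs1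
  · subst hs1
    apply lp.ext
    funext j
    have h := hc (e j)
    rw [h1] at h
    simpa using h
  · have hpos : 0 < 1 - s := by linarith
    have hall : ∀ k : ℕ, w k = 0 := by
      intro k
      induction k using Nat.strong_induction_on with
      | _ k ih =>
        have h := hc k
        by_cases hk : ∃ j, k = e j
        · obtain ⟨j, rfl⟩ := hk
          rw [h1] at h
          rcases eq_or_lt_of_le (hle j) with hj | hj
          · rw [← hj] at h ⊢
            linarith
          · rw [ih j hj] at h
            have h4 : (1 - s) * w (e j) = 0 := by linarith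
            rcases mul_eq_zero.1 h4 with h5 | h5
            · exact absurd h5 hpos.ne'
            · exact h5
        · push Not at hk
          rw [h2 w k hk] at h
          have h4 : (1 - s) * w k = 0 := by linarith
          rcases mul_eq_zero.1 h4 with h5 | h5
          · exact absurd h5 hpos.ne'
          · exact h5
    apply lp.ext
    funext j
    exact hall j

end MLHT

open MLHT in
/-- LHT: two Gauss maps are connected by three linear homotopies of Gauss maps. -/
theorem LHT : Stmt_LHT := by
  obtain ⟨a, ha1, ha2⟩ := exists_shift (fun j => 2 * j) (fun i j h => by simpa using h)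
  obtain ⟨b, hb1, hb2⟩ := exists_shift (fun j => 2 * j + 1) (fun i j h => by simpa using h)
  refine ⟨a, b, ?_⟩
  intro V _ _ L L' hL hL' s hs
  refine ⟨?_, ?_, ?_⟩
  · intro v v' hvv
    have hz : (1 - s) • L (v - v') + s • a (L (v - v')) = 0 := by
      have h : (1 - s) • L v + s • a (L v) = (1 - s) • L v' + s • a (L v') := hvv
      rw [map_sub, map_sub, smul_sub, smul_sub]
      rw [← sub_eq_zero] at h
      rw [← h]
      abel
    have h0 := shift_inj _ (fun j => by omega) a ha1 ha2 s hs _ hz
    have h3 : v - v' = 0 := hL (by rw [h0, map_zero])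
    exact sub_eq_zero.1 h3
  · intro v v' hvv
    have hz : (1 - s) • L' (v - v') + s • b (L' (v - v')) = 0 := by
      have h : (1 - s) • L' v + s • b (L' v) = (1 - s) • L' v' + s • b (L' v') := hvv
      rw [map_sub, map_sub, smul_sub, smul_sub]
      rw [← sub_eq_zero] at h
      rw [← h]
      abel
    have h0 := shift_inj _ (fun j => by omega) b hb1 hb2 s hs _ hz
    have h3 : v - v' = 0 := hL' (by rw [h0, map_zero])
    exact sub_eq_zero.1 h3
  · intro v v' hvv
    have hz : (1 - s) • a (L (v - v')) + s • b (L' (v - v')) = 0 := by
      have h : (1 - s) • a (L v) + s • b (L' v) = (1 - s) • a (L v') + s • b (L' v') := hvv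
      rw [map_sub, map_sub, map_sub, map_sub, smul_sub, smul_sub]
      rw [← sub_eq_zero] at h
      rw [← h]
      abel
    have hc : ∀ k : ℕ, (1 - s) * a (L (v - v')) k + s * b (L' (v - v')) k = 0 := by
      intro k
      have h := congrArg (fun u : L2 => u k) hz
      simpa using h
    rcases eq_or_lt_of_le hs.2 with hs1 | hs1
    · have h3 : L' (v - v') = 0 := by
        apply lp.ext
        funext j
        have h := hc (2 * j + 1)
        rw [hb1, hs1] at h
        simpa using h
      have h4 : v - v' = 0 := hL' (by rw [h3, map_zero])
      exact sub_eq_zero.1 h4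
    · have hpos : (1 - s) ≠ 0 := by
        have : 0 < 1 - s := by linarith
        exact this.ne'
      have h3 : L (v - v') = 0 := by
        apply lp.ext
        funext j
        have h := hc (2 * j)
        rw [ha1, hb2 _ _ (fun i => by omega)] at h
        simp only [mul_zero, add_zero] at h
        rcases mul_eq_zero.1 h with h5 | h5
        · exact absurd h5 hpos
        · exact h5
      have h4 : v - v' = 0 := hL (by rw [h3, map_zero])
      exact sub_eq_zero.1 h4

end Lit
end TC
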