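import Pool.Agent.TC.Lit.Basic2

/-!
# Local sections of `EG → BG`
-/

set_option autoImplicit false
set_option linter.unusedSectionVars false

open Topology

noncomputable section

namespace TC
namespace Lit

namespace MSEC

variable {G : Type} [Group G]

theorem smul_t (h : G) (x : EJ G) : (h • x).t = x.t := rfl

theorem smul_g (h : G) (x : EJ G) (i : ℕ) (hi : x.t i ≠ 0) : (h • x).g i = h * x.g i :=
  if_neg hi

theorem exists_pos (x : EJ G) : ∃ i, 0 < x.t i := by
  by_contra hn
  have h1 : ∀ i, x.t i = 0 := fun i =>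
    le_antisymm (not_lt.1 fun h => hn ⟨i, h⟩) (x.nonneg i)
  have h2 : x.t = 0 := Finsupp.ext h1
  have h3 := x.sum
  rw [h2, Finsupp.sum_zero_index] at h3
  exact zero_ne_one h3

/-- The section over `{t_i > 0}`. -/
def sec (i : ℕ) (b : BG G) : EJ G :=
  ((Quotient.out (s := MulAction.orbitRel G (EJ G)) b).g i)⁻¹ •
    Quotient.out (s := MulAction.orbitRel G (EJ G)) b

theorem mk_smul (h : G) (x : EJ G) : BG.mk (h • x) = BG.mk x := Quotient.sound ⟨h, rfl⟩

theorem mk_sec (i : ℕ) (b : BG G) : BG.mk (sec i b) = b := by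
  unfold sec
  rw [mk_smul]
  exact Quotient.out_eq (s := MulAction.orbitRel G (EJ G)) b

theorem sec_mk (i : ℕ) (x : EJ G) (hx : 0 < x.t i) : sec i (BG.mk x) = (x.g i)⁻¹ • x := by
  unfold sec
  have h1 : BG.mk (Quotient.out (s := MulAction.orbitRel G (EJ G)) (BG.mk x)) = BG.mk x :=
    Quotient.out_eq (s := MulAction.orbitRel G (EJ G)) (BG.mk x)
  obtain ⟨h, hh⟩ := Quotient.exact h1
  have hh' : h • x = Quotient.out (s := MulAction.orbitRel G (EJ G)) (BG.mk x) := hh
  rw [← hh', smul_g h x i hx.ne', mul_inv_rev, mul_smul, inv_smul_smul]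

end MSEC

open MSEC in
theorem SEC (hEJC : Stmt_EJC) (hEJA : Stmt_EJA) : Stmt_SEC := by
  intro G _ _ _ p
  have hcs : ContinuousSMul G (EJ G) := (hEJA G).1
  have hC := (hEJC G (EJ G) id).1 continuous_id
  have hop : IsOpenMap (BG.mk : EJ G → BG G) := isOpenMap_quotient_mk'_mul
  have hco : Continuous (BG.mk : EJ G → BG G) := continuous_quotient_mk'
  obtain ⟨x0, rfl⟩ : ∃ x : EJ G, BG.mk x = p := Quotient.exists_rep p
  obtain ⟨i, hi⟩ := exists_pos x0
  have hopen : IsOpen {x : EJ G | 0 < x.t i} := isOpen_lt continuous_const (hC.1 i)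
  refine ⟨BG.mk '' {x | 0 < x.t i}, hop _ hopen, ⟨x0, hi, rfl⟩, sec i, ?_, fun u _ => mk_sec i u⟩
  rintro _ ⟨x, hx, rfl⟩
  have hx' : 0 < x.t i := hx
  apply ContinuousAt.continuousWithinAt
  have h1 : ContinuousAt (fun y : EJ G => (y.g i)⁻¹ • y) x := by
    have h2 : ContinuousAt (fun y : EJ G => y.g i) x :=
      (hC.2 i).continuousAt (hopen.mem_nhds hx')
    exact h2.inv.smul continuousAt_id
  have h3 : ContinuousAt (fun y : EJ G => sec i (BG.mk y)) x := by
    refine h1.congr ?_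
    filter_upwards [hopen.mem_nhds hx'] with y hy
    exact (sec_mk i y hy).symm
  have h4 : Filter.map (BG.mk : EJ G → BG G) (𝓝 x) = 𝓝 (BG.mk x) :=
    (hop.nhds_le x).antisymm' hco.continuousAt
  unfold ContinuousAt
  rw [← h4, Filter.tendsto_map'_iff]
  exact h3

end Lit
end TC
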