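import Pool.Agent.TC.Lit.Defs
import Pool.Agent.TC.Goal

/-!
# Statements of the modules of the block LIT (`TC.Goal → TC.Goal2`), part 1: singular homology,
subdivision, top homology of closed manifolds.  All chains have coefficients in `ZMod 2`.
-/

set_option autoImplicit false
set_option linter.unusedSectionVars false

open scoped Manifold ContDiff Topology

noncomputable section

namespace TC
namespace Lit

/-! ## Chains supported in a set, relative cycles and boundaries -/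

/-- All simplices of the chain `z` lie in the set `A`. -/
def ChainIn {X : Type} [TopologicalSpace X] (A : Set X) {k : ℕ} (z : Chain X k) : Prop :=
  ∀ σ ∈ z.support, Set.range σ ⊆ A

/-- The chain `z` is zero in `H_k(X | A) = H_k(X, X \ A)`. -/
def RB {X : Type} [TopologicalSpace X] (A : Set X) {k : ℕ} (z : Chain X k) : Prop :=
  ∃ w : Chain X (k + 1), ChainIn Aᶜ (z + bd w)

/-- The chain `z` is a cycle of `(X, X \ A)`. -/
def RC {X : Type} [TopologicalSpace X] (A : Set X) : {k : ℕ} → Chain X k → Prop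
  | 0, _ => True
  | _ + 1, z => ChainIn Aᶜ (bd z)

/-- `H_k(X | A) = 0` for all `k > n`. -/
def Van (n : ℕ) {X : Type} [TopologicalSpace X] (A : Set X) : Prop :=
  ∀ k, n ≤ k → ∀ z : Chain X (k + 1), RC A z → RB A z

/-- A class in `H_n(X | A)` is zero if it is zero at every point of `A`. -/
def Det (n : ℕ) {X : Type} [TopologicalSpace X] (A : Set X) : Prop :=
  ∀ z : Chain X n, RC A z → (∀ x ∈ A, RB {x} z) → RB A z

/-- `H_n(X | A)` has at most one non-zero element. -/
def Unq (n : ℕ) {X : Type} [TopologicalSpace X] (A : Set X) : Prop :=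
  ∀ z z' : Chain X n, RC A z → RC A z' → RB A z ∨ RB A z' ∨ RB A (z + z')

/-! ## Homotopy invariance (prism operators) -/

/-- PRISM. -/
def Stmt_PRISM : Prop := ∀ (X Y : Type) [TopologicalSpace X] [TopologicalSpace Y]
  (F : C(X × unitInterval, Y)) (f g : C(X, Y)), (∀ x, F (x, 0) = f x) → (∀ x, F (x, 1) = g x) →
  ∃ P : ∀ k : ℕ, Chain X k →ₗ[F2] Chain Y (k + 1),
    (∀ z : Chain X 0, bd (P 0 z) = cmap f z + cmap g z) ∧
    (∀ (k : ℕ) (z : Chain X (k + 1)), bd (P (k + 1) z) = cmap f z + cmap g z + P k (bd z)) ∧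
    (∀ (k : ℕ) (σ : C(Simp k, X)),
      ChainIn (F '' (Set.range σ ×ˢ Set.univ)) (P k (Finsupp.single σ 1)))

/-! ## Subdivision -/

/-- Affine `k`-simplices of the standard simplex `Simp n`, given by their vertices, and their
formal sums. -/
abbrev ACh (n k : ℕ) := (Fin (k + 1) → Simp n) →₀ F2

/-- Convex combination of points of the standard simplex. -/
def comb {n k : ℕ} (p : Fin (k + 1) → Simp n) (t : Simp k) : Simp n :=
  ⟨fun j => ∑ i, t.1 i * (p i).1 j, fun j => Finset.sum_nonneg fun i _ =>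
      mul_nonneg (t.2.1 i) ((p i).2.1 j), by
    rw [Finset.sum_comm]
    have : ∀ i, ∑ j, t.1 i * (p i).1 j = t.1 i := fun i => by
      rw [← Finset.mul_sum, (p i).2.2, mul_one]
    rw [Finset.sum_congr rfl fun i _ => this i, t.2.2]⟩

theorem continuous_comb {n k : ℕ} (p : Fin (k + 1) → Simp n) : Continuous (comb p) := by
  refine Continuous.subtype_mk ?_ _
  refine continuous_pi fun j => continuous_finsetSum _ fun i _ => ?_
  exact ((continuous_apply i).comp continuous_subtype_val).mul continuous_const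

/-- The affine singular simplex with the given vertices. -/
def affS {n k : ℕ} (p : Fin (k + 1) → Simp n) : C(Simp k, Simp n) := ⟨comb p, continuous_comb p⟩

/-- The singular chain of an affine chain. -/
def affC {n k : ℕ} : ACh n k →ₗ[F2] Chain (Simp n) k := Finsupp.lmapDomain F2 F2 affS

/-- The boundary of affine chains. -/
def abd {n k : ℕ} : ACh n (k + 1) →ₗ[F2] ACh n k :=
  ∑ i : Fin (k + 2), Finsupp.lmapDomain F2 F2 (fun p : Fin (k + 2) → Simp n => p ∘ i.succAbove)

/-- The cone over affine chains. -/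
def acone {n k : ℕ} (b : Simp n) : ACh n k →ₗ[F2] ACh n (k + 1) :=
  Finsupp.lmapDomain F2 F2 (fun p : Fin (k + 1) → Simp n => (Fin.cons b p : Fin (k + 2) → Simp n))

/-- The barycenter of an affine simplex. -/
def abary {n k : ℕ} (p : Fin (k + 1) → Simp n) : Simp n := comb p stdSimplex.barycenter

/-- The barycentric subdivision of affine chains. -/
def asd {n : ℕ} : (k : ℕ) → ACh n k →ₗ[F2] ACh n k
  | 0 => LinearMap.id
  | k + 1 => Finsupp.linearCombination F2 fun p : Fin (k + 2) → Simp n =>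
      acone (abary p) (asd k (abd (Finsupp.single p 1)))

/-- The chain homotopy between the identity and the barycentric subdivision of affine chains. -/
def aho {n : ℕ} : (k : ℕ) → ACh n k →ₗ[F2] ACh n (k + 1)
  | 0 => 0
  | k + 1 => Finsupp.linearCombination F2 fun p : Fin (k + 2) → Simp n =>
      acone (abary p) (Finsupp.single p 1 + aho k (abd (Finsupp.single p 1)))

/-- The push forward of affine chains under an affine map of standard simplices. -/
def apush {m n k : ℕ} (v : Fin (m + 1) → Simp n) : ACh m k →ₗ[F2] ACh n k :=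
  Finsupp.lmapDomain F2 F2 (fun p : Fin (k + 1) → Simp m => fun i => comb v (p i))

/-- The identity affine simplex of `Simp k`. -/
def iotaA (k : ℕ) : Fin (k + 1) → Simp k := vtx

/-- Barycentric subdivision of singular chains. -/
def sdC {X : Type} [TopologicalSpace X] (k : ℕ) : Chain X k →ₗ[F2] Chain X k :=
  Finsupp.linearCombination F2 fun σ : C(Simp k, X) =>
    cmap σ (affC (asd k (Finsupp.single (iotaA k) 1)))

/-- The chain homotopy of the barycentric subdivision of singular chains. -/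
def hoC {X : Type} [TopologicalSpace X] (k : ℕ) : Chain X k →ₗ[F2] Chain X (k + 1) :=
  Finsupp.linearCombination F2 fun σ : C(Simp k, X) =>
    cmap σ (affC (aho k (Finsupp.single (iotaA k) 1)))

/-- SDA: algebra of the affine subdivision. -/
def Stmt_SDA : Prop :=
  (∀ n k (z : ACh n (k + 1)), abd (asd (k + 1) z) = asd k (abd z)) ∧
  (∀ n k (z : ACh n (k + 1)), abd (aho (k + 1) z) = z + asd (k + 1) z + aho k (abd z)) ∧
  (∀ m n k (v : Fin (m + 1) → Simp n) (z : ACh m k), apush v (asd k z) = asd k (apush v z)) ∧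
  (∀ m n k (v : Fin (m + 1) → Simp n) (z : ACh m k), apush v (aho k z) = aho k (apush v z))

/-- SDM: the mesh of the affine subdivision. -/
def Stmt_SDM : Prop := ∀ (n k : ℕ) (p : Fin (k + 1) → Simp n) (r : ℝ),
  (∀ i j, dist (p i) (p j) ≤ r) → ∀ q ∈ (asd k (Finsupp.single p 1)).support,
    (∀ i j, dist (q i) (q j) ≤ k / (k + 1) * r) ∧
    ∀ i, (q i).1 ∈ convexHull ℝ (Set.range fun j => (p j).1)

/-- SDS: the subdivision operators on singular chains. -/
def Stmt_SDS : Prop := ∀ (X : Type) [TopologicalSpace X],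
  (∀ k (z : Chain X (k + 1)), bd (sdC (k + 1) z) = sdC k (bd z)) ∧
  (∀ z : Chain X 0, bd (hoC 0 z) = z + sdC 0 z) ∧
  (∀ k (z : Chain X (k + 1)), bd (hoC (k + 1) z) = z + sdC (k + 1) z + hoC k (bd z)) ∧
  (∀ (A : Set X) k (z : Chain X k), ChainIn A z → ChainIn A (sdC k z) ∧ ChainIn A (hoC k z)) ∧
  (∀ (Y : Type) [TopologicalSpace Y] (f : C(X, Y)) k (z : Chain X k),
    cmap f (sdC k z) = sdC k (cmap f z) ∧ cmap f (hoC k z) = hoC k (cmap f z))

/-- SMALL: iterated subdivision makes chains small with respect to two open sets. -/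
def Stmt_SMALL : Prop := ∀ (X : Type) [TopologicalSpace X] (U V : Set X), IsOpen U → IsOpen V →
  ∀ (k : ℕ) (z : Chain X k), ChainIn (U ∪ V) z → ∃ N : ℕ, ∃ a b : Chain X k, ChainIn U a ∧
    ChainIn V b ∧ (sdC k)^[N] z = a + b

/-- SPLIT. -/
def Stmt_SPLIT : Prop := ∀ (X : Type) [TopologicalSpace X] (A B : Set X), IsClosed A →
  IsClosed B →
  (∀ y : Chain X 0, ChainIn (A ∩ B)ᶜ y →
    ∃ a b : Chain X 0, ChainIn Aᶜ a ∧ ChainIn Bᶜ b ∧ y = a + b) ∧
  (∀ (k : ℕ) (y : Chain X (k + 1)) (c d : Chain X k), ChainIn (A ∩ B)ᶜ y → ChainIn Aᶜ c →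
    ChainIn Bᶜ d → bd y = c + d → ∃ (a b : Chain X (k + 1)) (v : Chain X (k + 2)),
      ChainIn Aᶜ a ∧ ChainIn Bᶜ b ∧ ChainIn (A ∩ B)ᶜ v ∧ y = a + b + bd v)

/-- EXC: excision for open embeddings. -/
def Stmt_EXC : Prop := ∀ (U X : Type) [TopologicalSpace U] [TopologicalSpace X] (φ : C(U, X)),
  Topology.IsOpenEmbedding φ → ∀ K : Set X, IsClosed K → K ⊆ Set.range φ →
  (∀ (k : ℕ) (z : Chain X k), RC K z → ∃ y : Chain U k, RC (φ ⁻¹' K) y ∧ RB K (z + cmap φ y)) ∧
  (∀ (k : ℕ) (y : Chain U k), RC (φ ⁻¹' K) y → RB K (cmap φ y) → RB (φ ⁻¹' K) y)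

/-! ## Mayer–Vietoris -/

/-- MV. -/
def Stmt_MV : Prop := ∀ (X : Type) [TopologicalSpace X] (A B : Set X), IsClosed A →
  IsClosed B → ∀ n : ℕ, Van n (A ∩ B) →
    (Van n A → Van n B → Van n (A ∪ B)) ∧ (Det n A → Det n B → Det n (A ∪ B))

/-- SUSP. -/
def Stmt_SUSP : Prop := ∀ (X : Type) [TopologicalSpace X] (A B : Set X), IsClosed A →
  IsClosed B → ∀ k : ℕ, (∀ z : Chain X (k + 1), RC A z → RB A z) →
  (∀ z : Chain X (k + 1), RC B z → RB B z) →
  ∀ z z' : Chain X (k + 1), RC (A ∩ B) z → RC (A ∩ B) z' →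
  ∃ a a' : Chain X k, RC (A ∪ B) a ∧ RC (A ∪ B) a' ∧ (RB (A ∪ B) a → RB (A ∩ B) z) ∧
    (RB (A ∪ B) a' → RB (A ∩ B) z') ∧ (RB (A ∪ B) (a + a') → RB (A ∩ B) (z + z'))

/-! ## Euclidean space -/

/-- The projection `ℝ^(n+1) → ℝ^n` which forgets the last coordinate. -/
def prN (n : ℕ) : C(Fin (n + 1) → ℝ, Fin n → ℝ) :=
  ⟨fun y i => y i.castSucc, continuous_pi fun _ => continuous_apply _⟩

/-- The line through `x` parallel to the last axis. -/
def lineN {n : ℕ} (x : Fin (n + 1) → ℝ) : Set (Fin (n + 1) → ℝ) := {y | prN n y = prN n x}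

/-- The upper half of this line. -/
def rayU {n : ℕ} (x : Fin (n + 1) → ℝ) : Set (Fin (n + 1) → ℝ) :=
  {y | prN n y = prN n x ∧ x (Fin.last n) ≤ y (Fin.last n)}

/-- The lower half of this line. -/
def rayL {n : ℕ} (x : Fin (n + 1) → ℝ) : Set (Fin (n + 1) → ℝ) :=
  {y | prN n y = prN n x ∧ y (Fin.last n) ≤ x (Fin.last n)}

/-- RAY. -/
def Stmt_RAY : Prop := ∀ (n : ℕ) (x : Fin (n + 1) → ℝ) (k : ℕ)
  (z : Chain (Fin (n + 1) → ℝ) (k + 1)),
  (RC (rayU x) z → RB (rayU x) z) ∧ (RC (rayL x) z → RB (rayL x) z)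

/-- LINE. -/
def Stmt_LINE : Prop := ∀ (n : ℕ) (x : Fin (n + 1) → ℝ) (k : ℕ)
  (a : Chain (Fin (n + 1) → ℝ) k), RC (lineN x) a →
  RC {prN n x} (cmap (prN n) a) ∧ (RB {prN n x} (cmap (prN n) a) → RB (lineN x) a)

/-- PT: the local homology of `ℝ^n` at a point. -/
def Stmt_PT : Prop := ∀ (n : ℕ) (x : Fin n → ℝ), Van n {x} ∧ Unq n {x}

/-- CONV: compact convex subsets. -/
def Stmt_CONV : Prop := ∀ (n : ℕ) (A : Set (Fin n → ℝ)), IsCompact A → Convex ℝ A → ∀ x ∈ A,
  ∀ (k : ℕ) (z : Chain (Fin n → ℝ) k), RC A z → RB {x} z → RB A z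

/-- UNI: finite unions of compact convex subsets. -/
def Stmt_UNI : Prop := ∀ (n : ℕ) (L : List (Set (Fin n → ℝ))),
  (∀ A ∈ L, IsCompact A ∧ Convex ℝ A) → Van n (⋃ A ∈ L, A) ∧ Det n (⋃ A ∈ L, A)

/-- CPT: compact subsets of `ℝ^n`. -/
def Stmt_CPT : Prop := ∀ (n : ℕ) (K : Set (Fin n → ℝ)), IsCompact K → Van n K ∧ Det n K

/-! ## Closed manifolds -/

/-- CHT: compact subsets of a chart domain. -/
def Stmt_CHT : Prop := ∀ (n : ℕ) (M : Type) [TopologicalSpace M] [T2Space M]
  (e : OpenPartialHomeomorph M (EuclideanSpace ℝ (Fin n))) (K : Set M), IsCompact K →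
  K ⊆ e.source → Van n K ∧ Det n K

/-- BALL: small balls, and the local homology at a point. -/
def Stmt_BALL : Prop := ∀ (n : ℕ) (M : Type) [TopologicalSpace M] [T2Space M]
  (e : OpenPartialHomeomorph M (EuclideanSpace ℝ (Fin n))) (x : M), x ∈ e.source →
  Unq n {x} ∧ ∃ B ∈ 𝓝 x, ∀ y ∈ B, ∀ z : Chain M n, RC B z → RB {y} z → RB B z

/-- MFD: compact manifolds. -/
def Stmt_MFD : Prop := ∀ (n : ℕ) (M : Type) [TopologicalSpace M] [T2Space M] [CompactSpace M]
  [ChartedSpace (EuclideanSpace ℝ (Fin n)) M],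
  Van n (Set.univ : Set M) ∧ Det n (Set.univ : Set M)

/-- The homology of `X` vanishes in the degrees `> m + 1` and has at most one non-zero class in
degree `m + 1`. -/
def TopH (m : ℕ) (X : Type) [TopologicalSpace X] : Prop :=
  (∀ k, m + 1 ≤ k → ∀ z : Chain X (k + 1), bd z = 0 →
    z ∈ LinearMap.range (bd : Chain X (k + 2) →ₗ[F2] Chain X (k + 1))) ∧
  (∀ z z' : Chain X (m + 1), bd z = 0 → bd z' = 0 →
    z ∉ LinearMap.range (bd : Chain X (m + 2) →ₗ[F2] Chain X (m + 1)) →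
    z' ∉ LinearMap.range (bd : Chain X (m + 2) →ₗ[F2] Chain X (m + 1)) →
    z + z' ∈ LinearMap.range (bd : Chain X (m + 2) →ₗ[F2] Chain X (m + 1)))

/-- TOPH: closed connected manifolds. -/
def Stmt_TOPH : Prop := ∀ (m : ℕ) (M : Type) [TopologicalSpace M] [T2Space M] [CompactSpace M]
  [ConnectedSpace M] [ChartedSpace (EuclideanSpace ℝ (Fin (m + 1))) M], TopH m M

end Lit
end TC
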