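import Pool.Agent.TC.Lit.Basic2

/-!
# WHI: a closed manifold is parallelisably embedded (block LIT)

The second component of the tangent map of a smooth immersion of the closed manifold in a
Euclidean space.
-/

set_option autoImplicit false

open scoped Manifold ContDiff Topology

noncomputable section

namespace TC
namespace Lit
namespace MWHI

/-- The second component of a tangent vector of a Euclidean space. -/
theorem continuous_vec (N : ℕ) :
    Continuous (fun p : TangentBundle 𝓘(ℝ, EuclideanSpace ℝ (Fin N))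
      (EuclideanSpace ℝ (Fin N)) => (p.2 : EuclideanSpace ℝ (Fin N))) := by
  have h := (contMDiff_snd_tangentBundle_modelSpace (n := 0)
    (EuclideanSpace ℝ (Fin N)) 𝓘(ℝ, EuclideanSpace ℝ (Fin N)))
  exact h.continuous

end MWHI

theorem WHI : Stmt_WHI := by
  intro n M _ _ _ _ _
  obtain ⟨N, e, he, -, hinj⟩ := exists_embedding_euclidean_of_compact (I := 𝓡 n) (M := M)
  refine ⟨N, fun p => (tangentMap (𝓡 n) 𝓘(ℝ, EuclideanSpace ℝ (Fin N)) e p).2, ?_, ?_⟩
  · have h1 : Continuous (tangentMap (𝓡 n) 𝓘(ℝ, EuclideanSpace ℝ (Fin N)) e) :=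
      he.continuous_tangentMap (by simp)
    exact (MWHI.continuous_vec N).comp h1
  · intro m
    exact ⟨(mfderiv (𝓡 n) 𝓘(ℝ, EuclideanSpace ℝ (Fin N)) e m).toLinearMap, hinj m,
      fun v => rfl⟩

end Lit
end TC
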